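import Mathlib

/-!
# lr_mod Wt: one parameter subgroup and prime

Proof. The polynomials `p_j = ∑_b w_j(b) X^b ∈ ℤ[X]` are nonzero, so `∏ p_j ≠ 0` has finitely many
roots and there is a natural number `B` which is not a root of any of them. Put `c_b = B^b`, and
let `q > 2 + |∏_j p_j(B)|` be prime: `q` divides no `p_j(B) = ∑_b c_b w_j(b)`.
-/

namespace Pool.Agent.H78.LR

theorem exists_weights {m : ℕ} {ρ : Type} [Fintype ρ] (w : ρ → Fin m → ℤ) (hw : ∀ j, w j ≠ 0) :
    ∃ (c : Fin m → ℕ) (q : ℕ), q.Prime ∧ 2 < q ∧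
      ∀ j, ¬ ((q : ℤ) ∣ ∑ b, (c b : ℤ) * w j b) := by
  classical
  let p : ρ → Polynomial ℤ := fun j => ∑ b : Fin m, Polynomial.C (w j b) * Polynomial.X ^ (b : ℕ)
  have hcoeff : ∀ j (b : Fin m), (p j).coeff (b : ℕ) = w j b := by
    intro j b
    simp only [p, Polynomial.finsetSum_coeff, Polynomial.coeff_C_mul, Polynomial.coeff_X_pow]
    rw [Finset.sum_eq_single b]
    · simp
    · intro b' _ hb'
      have : (b : ℕ) ≠ (b' : ℕ) := fun h => hb' (Fin.ext h.symm)
      simp [this]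
    · intro h
      exact absurd (Finset.mem_univ b) h
  have hp : ∀ j, p j ≠ 0 := by
    intro j h0
    refine hw j ?_
    funext b
    have := hcoeff j b
    rw [h0, Polynomial.coeff_zero] at this
    exact this.symm
  have heval : ∀ j (B : ℕ), (p j).eval (B : ℤ) = ∑ b : Fin m, (((B ^ (b : ℕ) : ℕ)) : ℤ) * w j b := by
    intro j B
    simp only [p, Polynomial.eval_finsetSum, Polynomial.eval_mul, Polynomial.eval_C,
      Polynomial.eval_pow, Polynomial.eval_X]
    refine Finset.sum_congr rfl fun b _ => ?_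
    push_cast
    ring
  have hP : (∏ j, p j) ≠ 0 := Finset.prod_ne_zero_iff.mpr fun j _ => hp j
  obtain ⟨B, hB⟩ : ∃ B : ℕ, (∏ j, p j).eval (B : ℤ) ≠ 0 := by
    by_contra hcon
    push Not at hcon
    refine hP (Polynomial.eq_zero_of_infinite_isRoot _ ?_)
    refine Set.Infinite.mono ?_ (Set.infinite_range_of_injective (Nat.cast_injective (R := ℤ)))
    rintro _ ⟨B, rfl⟩
    exact hcon B
  obtain ⟨q, hq, hqp⟩ := Nat.exists_infinite_primes (3 + ((∏ j, p j).eval (B : ℤ)).natAbs)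
  refine ⟨fun b => B ^ (b : ℕ), q, hqp, by omega, fun j hj => ?_⟩
  rw [← heval] at hj
  have h1 : (p j).eval (B : ℤ) ∣ (∏ j, p j).eval (B : ℤ) := by
    rw [Polynomial.eval_prod]
    exact Finset.dvd_prod_of_mem _ (Finset.mem_univ j)
  have h2 := Int.natAbs_dvd_natAbs.mpr (hj.trans h1)
  have h3 := Nat.le_of_dvd (Int.natAbs_pos.mpr hB) h2
  simp only [Int.natAbs_natCast] at h3
  omega

end Pool.Agent.H78.LR
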