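import Pool.Agent.H78.LR.Stage
import Pool.Agent.H78.LR.Wt

/-!
# lr_mod BU: torus equivariant Borsuk-Ulam theorem over the reals

Proof of `bu`. Suppose not: for all `z ∈ XX m A` some `G_j(z) ≠ 0` (so there is some `j`). Take
`c, q` from `exists_weights`, `g = gq q c`. By `hE` with `l b = ζ^(c b)`:
`G_j(g z) = ζ^(k_j) G_j(z)` where `k_j ∈ ℕ` is the residue mod `q` of `∑_b c_b w_j(b)` and
`q ∤ k_j` (use `zt_pow_q`, `zpow`). Now copy the proof of
`Pool.Agent.H73.Avr.not_contractible` (file `Pool/Agent/H73/Avr/Main.lean`), with `G_j` in place of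
the moments: `J(z)` = index of maximal `‖G_j(z)‖` (chosen from the vector of norms so that
`J(g z) = J(z)`), `u(z) = ua q (G_J z)`, label
`ℓ(z) = (k_J⁻¹ nn(u), number of (J, tp u)) ∈ ZMod q × ℕ`, number `< card (ρ × Fin 2) = 2 card ρ`.
Equivariance and local compatibility as there (`ua_mul`, `tp_add_int`, `nn_add_int`, `ua_local`,
`nn_eq`). Apply `engine'` with `M = 2 * card ρ`, `H = hh q c`, `x0 = xb`, `x1 k = pp`, and
`stage_cont` with `r = card ρ < A`. Contradiction.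

`bu'` is `bu` transported along `Fintype.equivFin κ`.
-/

namespace Pool.Agent.H78.LR

open Pool.Agent.H73.Avr

private theorem bu_prod_zpow {ι : Type*} (s : Finset ι) (x : ℂ) (hx : x ≠ 0) (f : ι → ℤ) :
    ∏ b ∈ s, x ^ f b = x ^ ∑ b ∈ s, f b := by
  classical
  induction s using Finset.induction_on with
  | empty => simp
  | insert a s ha ih => rw [Finset.prod_insert ha, Finset.sum_insert ha, zpow_add₀ hx, ih]

/-- labelling: there is no continuous equivariant nowhere vanishing map -/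
theorem bu {m A : ℕ} {ρ : Type} [Fintype ρ] (w : ρ → Fin m → ℤ) (hw : ∀ j, w j ≠ 0)
    (G : ρ → V m A → ℂ) (hG : ∀ j, Continuous (G j))
    (hE : ∀ j (l : Fin m → ℂ), (∀ b, ‖l b‖ = 1) → ∀ z, G j (fun b a => l b * z b a) =
      (∏ b, l b ^ w j b) * G j z)
    (hA : Fintype.card ρ < A) : ∃ z : V m A, (∀ b, z b ≠ 0) ∧ ∀ j, G j z = 0 := by
  classical
  by_contra hcon
  have hne : ∀ z : V m A, (∀ b, z b ≠ 0) → ∃ j, G j z ≠ 0 := by
    intro z hz
    by_contra h
    push Not at h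
    exact hcon ⟨z, hz, h⟩
  obtain ⟨c, q, hqpr, hq2, hdiv⟩ := exists_weights w hw
  have hqo : Odd q := hqpr.odd_of_ne_two (by omega)
  have hF : Fact q.Prime := ⟨hqpr⟩
  have hq1 : 1 < q := hqpr.one_lt
  have hq0 : 0 < q := by omega
  have hNZ : NeZero q := ⟨by omega⟩
  have hA0 : 0 < A := by omega
  have hzt0 : zt q ≠ 0 := by
    have := zt_pow_ne q 1
    rwa [pow_one] at this
  have hIx : Nonempty ρ := ⟨(hne (xb (m := m) hA0).1 (xb (m := m) hA0).2).choose⟩
  let N : ρ → ℤ := fun j => ∑ b, (c b : ℤ) * w j b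
  have hNq : ∀ j, 0 < N j % (q : ℤ) := by
    intro j
    have h1 : 0 ≤ N j % (q : ℤ) := Int.emod_nonneg _ (by exact_mod_cast hq0.ne')
    rcases h1.eq_or_lt with h2 | h2
    · exact absurd (Int.dvd_of_emod_eq_zero h2.symm) (hdiv j)
    · exact h2
  let kj : ρ → ℕ := fun j => (N j % (q : ℤ)).toNat
  have hkj : ∀ j, (kj j : ℤ) = N j % (q : ℤ) := fun j => Int.toNat_of_nonneg (hNq j).le
  have hkpos : ∀ j, 0 < kj j := by
    intro j
    have h1 := hkj j
    have h2 := hNq j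
    omega
  have hklt : ∀ j, kj j < q := by
    intro j
    have h1 := hkj j
    have h2 : N j % (q : ℤ) < q := Int.emod_lt_of_pos _ (by exact_mod_cast hq0)
    omega
  have hG' : ∀ (j : ρ) (z : XX m A), G j (gq q c z).1 = zt q ^ kj j * G j z.1 := by
    intro j z
    have h1 := hE j (fun b => zt q ^ c b) (fun b => by rw [norm_pow, norm_zt, one_pow]) z.1
    have h2 : ∏ b, (zt q ^ c b) ^ w j b = zt q ^ kj j := by
      have h3 : ∀ b, (zt q ^ c b) ^ w j b = zt q ^ ((c b : ℤ) * w j b) := by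
        intro b
        rw [← zpow_natCast, ← zpow_mul]
      simp_rw [h3]
      rw [bu_prod_zpow _ _ hzt0]
      show zt q ^ N j = _
      rw [← zpow_natCast, hkj]
      conv_lhs => rw [← Int.mul_ediv_add_emod (N j) q, zpow_add₀ hzt0, zpow_mul, zpow_natCast,
        zt_pow_q hq0, one_zpow, one_mul]
    rw [← h2]
    exact h1
  have hGc : ∀ j, Continuous fun z : XX m A => G j z.1 := fun j =>
    (hG j).comp continuous_subtype_val
  have hnorm : ∀ (j : ρ) (z : XX m A), ‖G j (gq q c z).1‖ = ‖G j z.1‖ := by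
    intro j z
    rw [hG', norm_mul, norm_pow, norm_zt, one_pow, one_mul]
  let am : (ρ → ℝ) → ρ := fun v => (Finite.exists_max v).choose
  have ham : ∀ (v : ρ → ℝ) (i : ρ), v i ≤ v (am v) := fun v => (Finite.exists_max v).choose_spec
  let Jx : XX m A → ρ := fun z => am (fun J => ‖G J z.1‖)
  have hJg : ∀ z, Jx (gq q c z) = Jx z := by
    intro z
    show am (fun J => ‖G J (gq q c z).1‖) = am (fun J => ‖G J z.1‖)
    congr 1
    funext J
    exact hnorm J z
  have hJmax : ∀ (z : XX m A) J, ‖G J z.1‖ ≤ ‖G (Jx z) z.1‖ := fun z J => ham (fun J => ‖G J z.1‖) J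
  have hJpos : ∀ z : XX m A, 0 < ‖G (Jx z) z.1‖ := by
    intro z
    obtain ⟨J, hJ⟩ := hne z.1 z.2
    exact lt_of_lt_of_le (norm_pos_iff.2 hJ) (hJmax z J)
  let u : XX m A → ℝ := fun z => ua q (G (Jx z) z.1)
  let enc := Fintype.equivFin (ρ × Fin 2)
  let ty : XX m A → ρ × Fin 2 := fun z => (Jx z, ⟨tp (u z), tp_lt _⟩)
  let ℓ : XX m A → ZMod q × ℕ := fun z =>
    (((kj (Jx z) : ℕ) : ZMod q)⁻¹ * (nn (u z) : ZMod q), (enc (ty z)).val)
  have hcard : Fintype.card (ρ × Fin 2) = 2 * Fintype.card ρ := by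
    rw [Fintype.card_prod, Fintype.card_fin, mul_comm]
  refine engine' (X := XX m A) hq1 (Fintype.card (ρ × Fin 2)) (gq_q hq0 c) ℓ ?_
    (fun z => (enc (ty z)).isLt) ?_ (hh q c) (xb hA0) (fun k => ⟨pp A q c k, pp_ne hqo hA0 c k⟩)
    (fun k x => hh_zero q c k x) (fun k x => hh_one hqo hA0 c k x)
    (fun k hk a ha => stage_cont hqo hA c k (by rw [hcard] at hk; exact hk) a ha)
  · intro z
    have hk : ((kj (Jx z) : ℕ) : ZMod q) ≠ 0 := by
      rw [Ne, ZMod.natCast_eq_zero_iff]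
      intro hdvd
      have h2 := Nat.le_of_dvd (hkpos _) hdvd
      have h3 := hklt (Jx z)
      omega
    obtain ⟨n, hn⟩ := ua_mul hq0 (kj (Jx z)) (z := G (Jx z) z.1) (norm_pos_iff.1 (hJpos z))
    have hu : u (gq q c z) = u z + (((kj (Jx z) : ℕ) : ℤ) + q * n : ℤ) := by
      show ua q (G (Jx (gq q c z)) (gq q c z).1) = _
      rw [hJg, hG']
      exact hn
    have htp : tp (u (gq q c z)) = tp (u z) := by rw [hu, tp_add_int]
    have hty : ty (gq q c z) = ty z := by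
      show (Jx (gq q c z), (⟨tp (u (gq q c z)), tp_lt _⟩ : Fin 2)) = (Jx z, ⟨tp (u z), tp_lt _⟩)
      rw [hJg]
      congr 1
      exact Fin.ext htp
    refine Prod.ext ?_ ?_
    · show ((kj (Jx (gq q c z)) : ℕ) : ZMod q)⁻¹ * (nn (u (gq q c z)) : ZMod q) =
        ((kj (Jx z) : ℕ) : ZMod q)⁻¹ * (nn (u z) : ZMod q) + 1
      rw [hJg, hu, nn_add_int]
      push_cast
      rw [ZMod.natCast_self, zero_mul, add_zero, mul_add, inv_mul_cancel₀ hk]
    · show (enc (ty (gq q c z))).val = (enc (ty z)).val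
      rw [hty]
  · intro z0
    set cc := ‖G (Jx z0) z0.1‖ with hcdef
    have hcpos : 0 < cc := hJpos z0
    have hV : ∀ J : ρ, ∃ W : Set ℂ, IsOpen W ∧ G J z0.1 ∈ W ∧
        ∀ y ∈ W, ∀ z ∈ W, cc / 2 < ‖y‖ → cc / 2 < ‖z‖ →
          ∃ n : ℤ, |ua q y - ua q z - ((q : ℤ) * n : ℤ)| < 1 / 2 := by
      intro J
      by_cases hJ : G J z0.1 = 0
      · refine ⟨Metric.ball 0 (cc / 2), Metric.isOpen_ball, ?_, ?_⟩
        · rw [hJ]; exact Metric.mem_ball_self (by positivity)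
        · intro y hy z _ h1 _
          rw [mem_ball_zero_iff] at hy
          exact absurd h1 (not_lt.2 hy.le)
      · obtain ⟨W, hVo, hVm, hVl⟩ := ua_local hq0 hJ
        exact ⟨W, hVo, hVm, fun y hy z hz _ _ => hVl y hy z hz⟩
    choose W hVo hVm hVl using hV
    refine ⟨(⋂ J, (fun z : XX m A => G J z.1) ⁻¹' (W J)) ∩
      {z | cc / 2 < ‖G (Jx z0) z.1‖}, ?_, ?_, ?_⟩
    · refine IsOpen.inter (isOpen_iInter_of_finite fun J => (hVo J).preimage (hGc J)) ?_
      exact isOpen_lt continuous_const (hGc (Jx z0)).norm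
    · refine ⟨Set.mem_iInter.2 fun J => hVm J, ?_⟩
      show cc / 2 < ‖G (Jx z0) z0.1‖
      rw [← hcdef]; linarith
    · rintro y ⟨hy1, hy2⟩ z ⟨hz1, hz2⟩ hyz
      have h1 : ty y = ty z := enc.injective (Fin.ext hyz)
      have h2 : Jx y = Jx z := congrArg Prod.fst h1
      have h3 : tp (u y) = tp (u z) := congrArg (fun w : ρ × Fin 2 => (w.2 : ℕ)) h1
      have hy3 : cc / 2 < ‖G (Jx y) y.1‖ := lt_of_lt_of_le hy2 (hJmax y _)
      have hz3 : cc / 2 < ‖G (Jx y) z.1‖ := by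
        rw [h2]; exact lt_of_lt_of_le hz2 (hJmax z _)
      obtain ⟨n, hn⟩ := hVl (Jx y) _ (Set.mem_iInter.1 hy1 (Jx y)) _
        (Set.mem_iInter.1 hz1 (Jx y)) hy3 hz3
      have h4 : u z = ua q (G (Jx y) z.1) := by
        show ua q (G (Jx z) z.1) = _
        rw [h2]
      have h5 : nn (u y) = nn (u z) + (q : ℤ) * n := by
        apply nn_eq _ h3
        rw [h4]
        exact hn
      show ((kj (Jx y) : ℕ) : ZMod q)⁻¹ * (nn (u y) : ZMod q) =
        ((kj (Jx z) : ℕ) : ZMod q)⁻¹ * (nn (u z) : ZMod q)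
      rw [h2, h5]
      push_cast
      rw [ZMod.natCast_self, zero_mul, add_zero]

theorem bu' {m : ℕ} {κ ρ : Type} [Fintype κ] [Fintype ρ] (w : ρ → Fin m → ℤ)
    (hw : ∀ j, w j ≠ 0) (G : ρ → (Fin m → κ → ℂ) → ℂ) (hG : ∀ j, Continuous (G j))
    (hE : ∀ j (l : Fin m → ℂ), (∀ b, ‖l b‖ = 1) → ∀ z, G j (fun b a => l b * z b a) =
      (∏ b, l b ^ w j b) * G j z)
    (hA : Fintype.card ρ < Fintype.card κ) :
    ∃ z : Fin m → κ → ℂ, (∀ b, z b ≠ 0) ∧ ∀ j, G j z = 0 := by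
  classical
  let e := Fintype.equivFin κ
  let T : V m (Fintype.card κ) → (Fin m → κ → ℂ) := fun z b a => z b (e a)
  have hT : Continuous T := by
    apply continuous_pi
    intro b
    apply continuous_pi
    intro a
    exact (continuous_apply (e a)).comp (continuous_apply b)
  obtain ⟨z, hz, hz0⟩ := bu w hw (fun j z => G j (T z)) (fun j => (hG j).comp hT)
    (fun j l hl z => hE j l hl (T z)) hA
  refine ⟨T z, fun b hb => hz b ?_, hz0⟩
  funext a
  have := congrFun hb (e.symm a)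
  simpa [T] using this

end Pool.Agent.H78.LR
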