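import Pool.Agent.H78.LR.CFb
import Pool.Agent.H78.LR.BU

/-!
# lr_mod BUK: the mixed Tsen-Lang theorem over `K`

Proof. Apply `hGL` to `C`, `D`, `a = card ρ`, `b = n`: `Ω` finite dimensional, `1 ∈ Ω`,
`card ρ * e' < n * e`, where `e = finrank Ω` (basis `ω = finBasis`), `S = span C * Ω^D`,
`e' = finrank S` with basis `η` (`S` is finite dimensional: `Submodule.FG.mul`, `.pow`).
By `hP` and `CF.expand`: `A j (∑_l z_{b,(c,l)} ω_l) = ∑_k G_{j,k}(z) η_k` with `G_{j,k}` continuous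
on `Fin m → (Fin n × Fin e) → ℂ`. By `hE` and `cc_indep` `G_{j,k}(l z) = (∏ l^w_j) G_{j,k}(z)`
(`cc (l b * z) = cc (l b) * cc z`, pull `cc (l b)` out of the sum over `l`). Apply `bu'` with
`κ = Fin n × Fin e`, `ρ' = ρ × Fin e'`, weights `w j`. The vector
`z b c = ∑_l cc (z' b (c,l)) * kk (ω l)` is nonzero for each `b` by `cc_indep` (for `ω`, comparing
with `c' = 0`), and `A j z = ∑ 0 = 0`.
-/

namespace Pool.Agent.H78.LR

theorem buK {K : Type*} [Field K] [Algebra ℝ K] (hGL : Grow K) {m n D : ℕ} (hD : 1 ≤ D)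
    {ρ : Type} [Fintype ρ] (w : ρ → Fin m → ℤ) (hw : ∀ j, w j ≠ 0) (C : Finset K)
    (A : ρ → (Fin m → Fin n → LL K) → LL K)
    (hE : ∀ j (l : Fin m → ℂ), (∀ b, ‖l b‖ = 1) → ∀ z,
      A j (fun b c => cc K (l b) * z b c) = cc K (∏ b, l b ^ w j b) * A j z)
    (hP : ∀ j (Ω : Submodule ℝ K) (e : ℕ) (ω : Fin e → K), (1 : K) ∈ Ω → (∀ l, ω l ∈ Ω) →
      CF (Submodule.span ℝ (C : Set K) * Ω ^ D) (fun z : Fin m → (Fin n × Fin e) → ℂ =>
        A j (fun b c => ∑ l, cc K (z b (c, l)) * kk K (ω l))))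
    (h : Fintype.card ρ * D < n) :
    ∃ z : Fin m → Fin n → LL K, (∀ b, z b ≠ 0) ∧ ∀ j, A j z = 0 := by
  classical
  obtain ⟨Ω, hfd, h1, hlt⟩ := hGL C D (Fintype.card ρ) n hD h
  have hfgΩ : Ω.FG := Module.Finite.iff_fg.1 hfd
  have hfgS : (Submodule.span ℝ (C : Set K) * Ω ^ D : Submodule ℝ K).FG :=
    (Submodule.fg_span C.finite_toSet).mul (hfgΩ.pow D)
  have hfdS : FiniteDimensional ℝ (Submodule.span ℝ (C : Set K) * Ω ^ D : Submodule ℝ K) :=
    Module.Finite.iff_fg.2 hfgS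
  set e := Module.finrank ℝ Ω with he
  set e' := Module.finrank ℝ (Submodule.span ℝ (C : Set K) * Ω ^ D : Submodule ℝ K) with he'
  let ω : Module.Basis (Fin e) ℝ Ω := Module.finBasis ℝ Ω
  let η : Module.Basis (Fin e') ℝ (Submodule.span ℝ (C : Set K) * Ω ^ D : Submodule ℝ K) :=
    Module.finBasis ℝ _
  have hω : LinearIndependent ℝ (fun l => (ω l : K)) :=
    ω.linearIndependent.map' Ω.subtype (Submodule.ker_subtype _)
  have hη : LinearIndependent ℝ (fun l => (η l : K)) :=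
    η.linearIndependent.map' (Submodule.subtype _) (Submodule.ker_subtype _)
  choose G hGc hG using fun j => (hP j Ω e (fun l => (ω l : K)) h1 (fun l => (ω l).2)).expand η
  have hEq : ∀ (j : ρ) (k : Fin e') (l : Fin m → ℂ), (∀ b, ‖l b‖ = 1) → ∀ z,
      G j k (fun b a => l b * z b a) = (∏ b, l b ^ w j b) * G j k z := by
    intro j k l hl z
    have h2 : ∑ k, cc K (G j k (fun b a => l b * z b a)) * kk K (η k : K) =
        ∑ k, cc K ((∏ b, l b ^ w j b) * G j k z) * kk K (η k : K) := by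
      rw [← hG j (fun b a => l b * z b a)]
      have h3 : (fun (b : Fin m) (c : Fin n) =>
          ∑ l' : Fin e, cc K (l b * z b (c, l')) * kk K (ω l' : K)) =
          fun b c => cc K (l b) * ∑ l' : Fin e, cc K (z b (c, l')) * kk K (ω l' : K) := by
        funext b c
        rw [Finset.mul_sum]
        refine Finset.sum_congr rfl fun l' _ => ?_
        rw [map_mul, mul_assoc]
      rw [h3, hE j l hl, hG j z, Finset.mul_sum]
      refine Finset.sum_congr rfl fun k _ => ?_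
      rw [map_mul, mul_assoc]
    exact congrFun (cc_indep hη h2) k
  obtain ⟨z, hz, hz0⟩ := bu' (m := m) (κ := Fin n × Fin e) (ρ := ρ × Fin e')
    (fun p => w p.1) (fun p => hw p.1) (fun p => G p.1 p.2) (fun p => hGc p.1 p.2)
    (fun p l hl z => hEq p.1 p.2 l hl z) (by
      rw [Fintype.card_prod, Fintype.card_prod, Fintype.card_fin, Fintype.card_fin,
        Fintype.card_fin]
      exact hlt)
  refine ⟨fun b c => ∑ l, cc K (z b (c, l)) * kk K (ω l : K), fun b hb => ?_, fun j => ?_⟩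
  · apply hz b
    funext p
    obtain ⟨c, l⟩ := p
    have h2 : ∑ l, cc K (z b (c, l)) * kk K (ω l : K) =
        ∑ l, cc K ((fun _ : Fin e => (0 : ℂ)) l) * kk K (ω l : K) := by
      have h3 : ∑ l, cc K (z b (c, l)) * kk K (ω l : K) = 0 := congrFun hb c
      rw [h3]
      symm
      apply Finset.sum_eq_zero
      intro l _
      rw [map_zero, zero_mul]
    exact congrFun (cc_indep (c := fun l => z b (c, l)) hω h2) l
  · rw [hG j z]
    apply Finset.sum_eq_zero
    intro k _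
    have h2 : G j k z = 0 := hz0 (j, k)
    rw [h2, map_zero, zero_mul]

end Pool.Agent.H78.LR
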