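import Pool.Agent.H78.LR.Defs

/-!
# lr_mod CFa: closure properties of the classes `CFR` and `CF`

All by `Submodule.span_induction` (twice for products). Products: generators
`(g • s)(g' • s') = (g g') • (s s')` with `s s' ∈ S * S'` (`Submodule.mul_mem_mul`).
`CF.finset_prod`: induction on `t` and on the exponents, `Ω ^ 0 = 1 = span {1}`, use
`CF.mul` and `pow_add`/`pow_succ`.
-/

namespace Pool.Agent.H78.LR

variable {Z : Type} [TopologicalSpace Z] {K : Type*} [Field K] [Algebra ℝ K]

theorem CFR_mono {S S' : Submodule ℝ K} (h : S ≤ S') : CFR Z S ≤ CFR Z S' := by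
  apply Submodule.span_mono
  rintro φ ⟨g, s, hs, hg, rfl⟩
  exact ⟨g, s, h hs, hg, rfl⟩

theorem CFR_mul {S S' : Submodule ℝ K} {φ ψ : Z → K} (h : φ ∈ CFR Z S) (h' : ψ ∈ CFR Z S') :
    (fun z => φ z * ψ z) ∈ CFR Z (S * S') := by
  unfold CFR at h
  induction h using Submodule.span_induction with
  | mem φ hφ =>
    obtain ⟨g, s, hs, hg, rfl⟩ := hφ
    unfold CFR at h'
    induction h' using Submodule.span_induction with
    | mem ψ hψ =>
      obtain ⟨g', s', hs', hg', rfl⟩ := hψ
      apply Submodule.subset_span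
      refine ⟨fun z => g z * g' z, s * s', Submodule.mul_mem_mul hs hs', hg.mul hg', ?_⟩
      funext z
      simp only [Algebra.smul_def, map_mul]
      ring
    | zero =>
      have : (fun z => (g z • s) * (0 : Z → K) z) = 0 := by funext z; simp
      rw [this]; exact zero_mem _
    | add x y _ _ hx hy =>
      have : (fun z => (g z • s) * (x + y) z) =
          (fun z => (g z • s) * x z) + (fun z => (g z • s) * y z) := by
        funext z; simp [mul_add]
      rw [this]; exact add_mem hx hy
    | smul a x _ hx =>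
      have : (fun z => (g z • s) * (a • x) z) = a • (fun z => (g z • s) * x z) := by
        funext z; simp
      rw [this]; exact Submodule.smul_mem _ _ hx
  | zero =>
    have : (fun z => (0 : Z → K) z * ψ z) = 0 := by funext z; simp
    rw [this]; exact zero_mem _
  | add x y _ _ hx hy =>
    have : (fun z => (x + y) z * ψ z) = (fun z => x z * ψ z) + (fun z => y z * ψ z) := by
      funext z; simp [add_mul]
    rw [this]; exact add_mem hx hy
  | smul a x _ hx =>
    have : (fun z => (a • x) z * ψ z) = a • (fun z => x z * ψ z) := by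
      funext z; simp
    rw [this]; exact Submodule.smul_mem _ _ hx

/-- multiplication by a continuous real function -/
theorem CFR_smul {S : Submodule ℝ K} {φ : Z → K} (h : φ ∈ CFR Z S) {g : Z → ℝ}
    (hg : Continuous g) : (fun z => g z • φ z) ∈ CFR Z S := by
  unfold CFR at h
  induction h using Submodule.span_induction with
  | mem φ hφ =>
    obtain ⟨g', s, hs, hg', rfl⟩ := hφ
    apply Submodule.subset_span
    refine ⟨fun z => g z * g' z, s, hs, hg.mul hg', ?_⟩
    funext z
    rw [smul_smul]
  | zero =>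
    have : (fun z => g z • (0 : Z → K) z) = 0 := by funext z; simp
    rw [this]; exact zero_mem _
  | add x y _ _ hx hy =>
    have : (fun z => g z • (x + y) z) = (fun z => g z • x z) + (fun z => g z • y z) := by
      funext z; simp [smul_add]
    rw [this]; exact add_mem hx hy
  | smul a x _ hx =>
    have : (fun z => g z • (a • x) z) = a • (fun z => g z • x z) := by
      funext z
      show g z • (a • x z) = a • (g z • x z)
      rw [smul_comm]
    rw [this]; exact Submodule.smul_mem _ _ hx

theorem CF.mono {S S' : Submodule ℝ K} (h : S ≤ S') {φ : Z → LL K} (hφ : CF S φ) :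
    CF S' φ :=
  ⟨CFR_mono h hφ.1, CFR_mono h hφ.2⟩

theorem CF.zero (S : Submodule ℝ K) : CF S (fun _ : Z => (0 : LL K)) :=
  ⟨zero_mem (CFR Z S), zero_mem (CFR Z S)⟩

theorem CF.add {S : Submodule ℝ K} {φ ψ : Z → LL K} (h : CF S φ) (h' : CF S ψ) :
    CF S (fun z => φ z + ψ z) :=
  ⟨add_mem h.1 h'.1, add_mem h.2 h'.2⟩

theorem CF.mul {S S' : Submodule ℝ K} {φ ψ : Z → LL K} (h : CF S φ) (h' : CF S' ψ) :
    CF (S * S') (fun z => φ z * ψ z) := by
  constructor
  · have h1 : (fun z => (φ z * ψ z).re) =
        (fun z => (φ z).re * (ψ z).re) - (fun z => (φ z).im * (ψ z).im) := by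
      funext z
      simp [QuadraticAlgebra.re_mul]
      ring
    rw [h1]
    exact sub_mem (CFR_mul h.1 h'.1) (CFR_mul h.2 h'.2)
  · have h1 : (fun z => (φ z * ψ z).im) =
        (fun z => (φ z).re * (ψ z).im) + (fun z => (φ z).im * (ψ z).re) := by
      funext z
      simp [QuadraticAlgebra.im_mul]
    rw [h1]
    exact add_mem (CFR_mul h.1 h'.2) (CFR_mul h.2 h'.1)

theorem CF.cj {S : Submodule ℝ K} {φ : Z → LL K} (h : CF S φ) :
    CF S (fun z => cj K (φ z)) := by
  constructor
  · simpa using h.1
  · have h1 : (fun z => (Pool.Agent.H78.LR.cj K (φ z)).im) = -(fun z => (φ z).im) := by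
      funext z; simp
    rw [h1]
    exact neg_mem h.2

theorem CF.sum {S : Submodule ℝ K} {ι : Type*} (t : Finset ι) {φ : ι → Z → LL K}
    (h : ∀ i ∈ t, CF S (φ i)) : CF S (fun z => ∑ i ∈ t, φ i z) := by
  classical
  induction t using Finset.induction_on with
  | empty => simpa using CF.zero S
  | insert a t ha ih =>
    have h1 : (fun z => ∑ i ∈ insert a t, φ i z) = fun z => φ a z + ∑ i ∈ t, φ i z := by
      funext z; rw [Finset.sum_insert ha]
    rw [h1]
    exact CF.add (h a (Finset.mem_insert_self a t))
      (ih fun i hi => h i (Finset.mem_insert_of_mem hi))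

/-- `z ↦ g(z) s` with `g` continuous complex valued and `s ∈ S` -/
theorem CF.coord {S : Submodule ℝ K} {g : Z → ℂ} (hg : Continuous g) {s : K} (hs : s ∈ S) :
    CF S (fun z => cc K (g z) * kk K s) := by
  constructor
  · apply Submodule.subset_span
    refine ⟨fun z => (g z).re, s, hs, Complex.continuous_re.comp hg, ?_⟩
    funext z
    simp [Algebra.smul_def, QuadraticAlgebra.re_mul]
  · apply Submodule.subset_span
    refine ⟨fun z => (g z).im, s, hs, Complex.continuous_im.comp hg, ?_⟩
    funext z
    simp [Algebra.smul_def, QuadraticAlgebra.im_mul]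

theorem CF.const {S : Submodule ℝ K} {s : K} (hs : s ∈ S) : CF S (fun _ : Z => kk K s) := by
  have h := CF.coord (Z := Z) (g := fun _ => (1 : ℂ)) continuous_const hs
  simpa using h

private theorem cfa_pow {Ω : Submodule ℝ K} {φ : Z → LL K} (h : CF Ω φ) (u : ℕ) :
    CF (Ω ^ u) (fun z => φ z ^ u) := by
  induction u with
  | zero =>
    have h1 := CF.const (Z := Z) (S := (Ω ^ 0 : Submodule ℝ K)) (s := 1) (by
      rw [pow_zero]; exact Submodule.one_le.1 le_rfl)
    simpa using h1
  | succ u ih =>
    have h1 : (fun z => φ z ^ (u + 1)) = fun z => φ z ^ u * φ z := by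
      funext z; rw [pow_succ]
    rw [h1, pow_succ]
    exact CF.mul ih h

theorem CF.finset_prod {Ω : Submodule ℝ K} {ι : Type*} (t : Finset ι) {φ : ι → Z → LL K}
    (u : ι → ℕ) (h : ∀ i ∈ t, CF Ω (φ i)) :
    CF (Ω ^ (∑ i ∈ t, u i)) (fun z => ∏ i ∈ t, φ i z ^ u i) := by
  classical
  induction t using Finset.induction_on with
  | empty =>
    have h1 := CF.const (Z := Z) (S := (Ω ^ 0 : Submodule ℝ K)) (s := 1) (by
      rw [pow_zero]; exact Submodule.one_le.1 le_rfl)
    simpa using h1
  | insert a t ha ih =>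
    have h1 : (fun z => ∏ i ∈ insert a t, φ i z ^ u i) =
        fun z => φ a z ^ u a * ∏ i ∈ t, φ i z ^ u i := by
      funext z; rw [Finset.prod_insert ha]
    rw [h1, Finset.sum_insert ha, pow_add]
    exact CF.mul (cfa_pow (h a (Finset.mem_insert_self a t)) (u a))
      (ih fun i hi => h i (Finset.mem_insert_of_mem hi))

end Pool.Agent.H78.LR
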