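import Pool.Agent.H78.LR.CFa

/-!
# lr_mod CFb: expansion in a basis and uniqueness

`CFR_expand`: by `Submodule.span_induction` every `φ ∈ CFR Z S` is `∑_k g_k(z) • η_k` with `g_k`
continuous (for a generator `g • s` take `g_k = g * (η.repr s k)`). Apply to real and imaginary
part and put `G_k = g_k + i h_k`.

`cc_indep`: take real and imaginary parts: `∑_k (c_k.re - c'_k.re) • η_k = 0` and likewise for
`im` (`algebraMap ℝ K x * η = x • η`, `Algebra.smul_def`).
-/

namespace Pool.Agent.H78.LR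

variable {Z : Type} [TopologicalSpace Z] {K : Type*} [Field K] [Algebra ℝ K]

omit [Algebra ℝ K] in
private theorem CFb_re_sum {e : ℕ} (f : Fin e → LL K) : (∑ k, f k).re = ∑ k, (f k).re :=
  map_sum (QuadraticAlgebra.reₗ (R := K) (-1) 0) f Finset.univ

omit [Algebra ℝ K] in
private theorem CFb_im_sum {e : ℕ} (f : Fin e → LL K) : (∑ k, f k).im = ∑ k, (f k).im :=
  map_sum (QuadraticAlgebra.imₗ (R := K) (-1) 0) f Finset.univ

theorem CFR_expand {S : Submodule ℝ K} {e : ℕ} (η : Module.Basis (Fin e) ℝ S) {φ : Z → K}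
    (h : φ ∈ CFR Z S) : ∃ g : Fin e → Z → ℝ, (∀ k, Continuous (g k)) ∧
      ∀ z, φ z = ∑ k, g k z • (η k : K) := by
  unfold CFR at h
  induction h using Submodule.span_induction with
  | mem x hx =>
    obtain ⟨g, s, hs, hg, rfl⟩ := hx
    refine ⟨fun k z => g z * η.repr ⟨s, hs⟩ k, fun k => hg.mul continuous_const, fun z => ?_⟩
    have h1 := congrArg Subtype.val (η.sum_repr ⟨s, hs⟩)
    rw [Submodule.coe_sum] at h1
    have h2 : s = ∑ k, η.repr ⟨s, hs⟩ k • (η k : K) := h1.symm
    show g z • s = _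
    conv_lhs => rw [h2]
    rw [Finset.smul_sum]
    exact Finset.sum_congr rfl fun k _ => smul_smul _ _ _
  | zero =>
    refine ⟨fun _ _ => 0, fun _ => continuous_const, fun z => ?_⟩
    simp
  | add x y _ _ ihx ihy =>
    obtain ⟨g, hg, hg'⟩ := ihx
    obtain ⟨g2, hg2, hg2'⟩ := ihy
    refine ⟨fun k z => g k z + g2 k z, fun k => (hg k).add (hg2 k), fun z => ?_⟩
    show x z + y z = _
    rw [hg' z, hg2' z, ← Finset.sum_add_distrib]
    exact Finset.sum_congr rfl fun k _ => (add_smul _ _ _).symm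
  | smul a x _ ih =>
    obtain ⟨g, hg, hg'⟩ := ih
    refine ⟨fun k z => a * g k z, fun k => continuous_const.mul (hg k), fun z => ?_⟩
    show a • x z = _
    rw [hg' z, Finset.smul_sum]
    exact Finset.sum_congr rfl fun k _ => smul_smul _ _ _

theorem CF.expand {S : Submodule ℝ K} {e : ℕ} (η : Module.Basis (Fin e) ℝ S) {φ : Z → LL K}
    (h : CF S φ) : ∃ G : Fin e → Z → ℂ, (∀ k, Continuous (G k)) ∧
      ∀ z, φ z = ∑ k, cc K (G k z) * kk K (η k : K) := by
  obtain ⟨g, hg, hg'⟩ := CFR_expand η h.1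
  obtain ⟨g2, hg2, hg2'⟩ := CFR_expand η h.2
  refine ⟨fun k z => (g k z : ℂ) + (g2 k z : ℂ) * Complex.I, fun k =>
    (Complex.continuous_ofReal.comp (hg k)).add
      ((Complex.continuous_ofReal.comp (hg2 k)).mul continuous_const), fun z => ?_⟩
  have h1 := hg' z
  have h2 := hg2' z
  ext
  · rw [CFb_re_sum]
    refine h1.trans (Finset.sum_congr rfl fun k _ => ?_)
    simp [Algebra.smul_def]
  · rw [CFb_im_sum]
    refine h2.trans (Finset.sum_congr rfl fun k _ => ?_)
    simp [Algebra.smul_def]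

theorem cc_indep {e : ℕ} {η : Fin e → K} (h : LinearIndependent ℝ η) {c c' : Fin e → ℂ}
    (hc : ∑ k, cc K (c k) * kk K (η k) = ∑ k, cc K (c' k) * kk K (η k)) : c = c' := by
  rw [Fintype.linearIndependent_iff] at h
  have h1 : ∑ k, ((c k).re - (c' k).re) • η k = 0 := by
    have h2 := congrArg QuadraticAlgebra.re hc
    rw [CFb_re_sum, CFb_re_sum] at h2
    simp only [sub_smul, Finset.sum_sub_distrib, sub_eq_zero]
    have h3 : ∀ d : Fin e → ℂ, ∑ k, (cc K (d k) * kk K (η k)).re = ∑ k, (d k).re • η k :=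
      fun d => Finset.sum_congr rfl fun k _ => by simp [Algebra.smul_def]
    rw [h3, h3] at h2
    exact h2
  have h1' : ∑ k, ((c k).im - (c' k).im) • η k = 0 := by
    have h2 := congrArg QuadraticAlgebra.im hc
    rw [CFb_im_sum, CFb_im_sum] at h2
    simp only [sub_smul, Finset.sum_sub_distrib, sub_eq_zero]
    have h3 : ∀ d : Fin e → ℂ, ∑ k, (cc K (d k) * kk K (η k)).im = ∑ k, (d k).im • η k :=
      fun d => Finset.sum_congr rfl fun k _ => by simp [Algebra.smul_def]
    rw [h3, h3] at h2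
    exact h2
  funext k
  apply Complex.ext
  · exact sub_eq_zero.1 (h _ h1 k)
  · exact sub_eq_zero.1 (h _ h1' k)

end Pool.Agent.H78.LR
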