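import Mathlib

/-!
# MP_3d4eef_ag: definitions for the weak Lang conjecture over function fields of real curves

`LL K = K[i]` is the quadratic algebra `K[ω]/(ω² = -1)` (a field iff `-1` is not a square in `K`),
`kk : K → LL K` the inclusion, `cc : ℂ → LL K` the inclusion of the complex numbers when `K` is an
`ℝ`-algebra, `cj` the conjugation.
-/

namespace Pool.Agent.H78.LR

open MvPolynomial

/-- `K[i]` -/
abbrev LL (K : Type*) [CommRing K] := QuadraticAlgebra K (-1) 0

/-- the inclusion of `K` in `K[i]` -/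
noncomputable def kk (K : Type*) [Field K] : K →+* LL K := algebraMap K (LL K)

/-- the inclusion of `ℂ` in `K[i]` -/
noncomputable def cc (K : Type*) [Field K] [Algebra ℝ K] : ℂ →+* LL K where
  toFun c := ⟨algebraMap ℝ K c.re, algebraMap ℝ K c.im⟩
  map_one' := by
    ext
    · show algebraMap ℝ K (1 : ℂ).re = 1
      simp
    · show algebraMap ℝ K (1 : ℂ).im = 0
      simp
  map_mul' x y := by
    ext <;> simp <;> ring
  map_zero' := by ext <;> simp
  map_add' x y := by ext <;> simp

/-- the conjugation of `K[i]` -/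
noncomputable def cj (K : Type*) [Field K] : LL K →+* LL K := starRingEnd (LL K)

section
variable {K : Type*} [Field K]

@[simp] theorem kk_re (a : K) : (kk K a).re = a := rfl
@[simp] theorem kk_im (a : K) : (kk K a).im = 0 := rfl

@[simp] theorem cj_re (z : LL K) : (cj K z).re = z.re := by
  show (star z).re = z.re
  simp

@[simp] theorem cj_im (z : LL K) : (cj K z).im = -z.im := by
  show (star z).im = -z.im
  simp

@[simp] theorem cj_cj (z : LL K) : cj K (cj K z) = z := by ext <;> simp

@[simp] theorem cj_kk (a : K) : cj K (kk K a) = kk K a := by ext <;> simp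

variable [Algebra ℝ K]

@[simp] theorem cc_re (c : ℂ) : (cc K c).re = algebraMap ℝ K c.re := rfl
@[simp] theorem cc_im (c : ℂ) : (cc K c).im = algebraMap ℝ K c.im := rfl

@[simp] theorem cj_cc (c : ℂ) : cj K (cc K c) = cc K ((starRingEnd ℂ) c) := by ext <;> simp

end

/-- functions `Z → K` of the form `z ↦ ∑ g_i(z) s_i` with `g_i` continuous real functions and
`s_i ∈ S` -/
def CFR (Z : Type) [TopologicalSpace Z] {K : Type*} [Field K] [Algebra ℝ K]
    (S : Submodule ℝ K) : Submodule ℝ (Z → K) :=
  Submodule.span ℝ {φ | ∃ g : Z → ℝ, ∃ s ∈ S, Continuous g ∧ φ = fun z => g z • s}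

/-- functions `Z → K[i]` with real and imaginary part in `CFR Z S` -/
def CF {Z : Type} [TopologicalSpace Z] {K : Type*} [Field K] [Algebra ℝ K]
    (S : Submodule ℝ K) (φ : Z → LL K) : Prop :=
  (fun z => (φ z).re) ∈ CFR Z S ∧ (fun z => (φ z).im) ∈ CFR Z S

/-- the growth property used in the Tsen-Lang counting argument -/
def Grow (K : Type*) [Field K] [Algebra ℝ K] : Prop :=
  ∀ (C : Finset K) (D a b : ℕ), 1 ≤ D → a * D < b →
    ∃ Ω : Submodule ℝ K, FiniteDimensional ℝ Ω ∧ (1 : K) ∈ Ω ∧
      a * Module.finrank ℝ (Submodule.span ℝ (C : Set K) * Ω ^ D : Submodule ℝ K) <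
        b * Module.finrank ℝ Ω

/-- every element is a sum of two squares -/
def TwoSq (K : Type*) [Field K] : Prop := ∀ a : K, ∃ s t : K, a = s ^ 2 + t ^ 2

/-- The generic restriction of `f` to the planes `{Re (τ_b z_b)}`: the polynomial
`f((z_b τ_b + conj(z_b) τ'_b)_b)` in the variables `τ_b = X (inl b)`, `τ'_b = X (inr b)`. -/
noncomputable def FF {K : Type*} [Field K] {m n : ℕ} (f : MvPolynomial (Fin m × Fin n) K)
    (z : Fin m → Fin n → LL K) : MvPolynomial (Fin m ⊕ Fin m) (LL K) :=
  eval₂ (C.comp (kk K)) (fun p => C (z p.1 p.2) * X (Sum.inl p.1) +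
    C (cj K (z p.1 p.2)) * X (Sum.inr p.1)) f

/-- the number of variables: `T r 0 = 1` and `T r D = m (r (D+1)^(2m) D + 1)` with
`m = T r (D/2)` for `D ≥ 1` -/
def T (r D : ℕ) : ℕ :=
  if _h : D = 0 then 1
  else T r (D / 2) * (r * (D + 1) ^ (2 * T r (D / 2)) * D + 1)
termination_by D
decreasing_by all_goals exact Nat.div_lt_self (by omega) (by omega)

/-- every system of `r` forms, each zero or of degree between `1` and `D`, in at least `N`
variables has a nontrivial zero -/
def Good (K : Type*) [Field K] (r D N : ℕ) : Prop :=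
  ∀ (ι : Type) [Fintype ι], N ≤ Fintype.card ι → ∀ f : Fin r → MvPolynomial ι K,
    (∀ j, f j = 0 ∨ ∃ e, 1 ≤ e ∧ e ≤ D ∧ (f j).IsHomogeneous e) →
    ∃ x : ι → K, x ≠ 0 ∧ ∀ j, eval x (f j) = 0

end Pool.Agent.H78.LR
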