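import Pool.Agent.H78.LR.PlC

/-!
# lr_mod Dep: degenerate planes

Proof of `dep`. Put `s = σ e_{b0}`, `t = τ e_{b0}` (`Pi.single`). The left side of the relation is
`f (2 (σ p + τ q) v) = (2 (σ p + τ q))^d f(v)`, `v` = `v0` placed in block `b0`
(`IsHomogeneous.eval_smul` or similar). The right side is `P((σ²+τ²) e_{b0})`, which is `0` for odd
`d`, and `(σ²+τ²)^e P(e_{b0})` for `d = 2e` (`e ≥ 1`).
Odd `d`: choose `(σ, τ)` with `σ p + τ q = 1`. Even `d`: if `p² + q² ≠ 0` take
`(σ, τ) = (q, -p)`: `0 = (p²+q²)^e P(e_{b0})`, so `P(e_{b0}) = 0`, and then again choose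
`σ p + τ q = 1`. If `p² + q² = 0` then `p ≠ 0`; take `(σ, τ) = (p, -q)`: `σ² + τ² = 0` and
`σ p + τ q = p² - q² = 2 p² ≠ 0`. In all cases `f(v) = 0` (`2 ≠ 0` in `K`).

`dep_exists`: if `x ≠ 0` take `v0 = x`, `p = 1`, `y = q x`; else `v0 = y`, `p = 0`, `q = 1`
(`LinearIndependent.pair_iff`).
-/

namespace Pool.Agent.H78.LR

open MvPolynomial

private theorem Dep_eval {K σ : Type*} [Field K] {d : ℕ} {f : MvPolynomial σ K}
    (hf : f.IsHomogeneous d) (a : K) (v : σ → K) :
    eval (fun i => a * v i) f = a ^ d * eval v f := by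
  rw [eval_eq, eval_eq, Finset.mul_sum]
  refine Finset.sum_congr rfl fun u hu => ?_
  have h1 : u.degree = d := by
    by_contra hcon
    exact (mem_support_iff.1 hu) (hf.coeff_eq_zero hcon)
  have h2 : ∏ i ∈ u.support, (a * v i) ^ u i = a ^ d * ∏ i ∈ u.support, v i ^ u i := by
    simp only [mul_pow]
    rw [Finset.prod_mul_distrib, Finset.prod_pow_eq_pow_sum, ← Finsupp.degree_apply, h1]
  rw [h2]
  ring

private theorem Dep_rel {K : Type*} [Field K] {m n d : ℕ}
    {f : MvPolynomial (Fin m × Fin n) K} (hf : f.IsHomogeneous d) (z : Fin m → Fin n → LL K)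
    (P : MvPolynomial (Fin m) K) (hP : PlaneRel d f z P) (b0 : Fin m) (p q : K)
    (v0 : Fin n → K) (hx : ∀ c, (z b0 c).re = p * v0 c) (hy : ∀ c, (z b0 c).im = q * v0 c)
    (σ τ : K) :
    (2 * (σ * p + τ * q)) ^ d * eval (fun i : Fin m × Fin n => if i.1 = b0 then v0 i.2 else 0) f =
      eval (fun b => (σ ^ 2 + τ ^ 2) * (if b = b0 then 1 else 0)) P := by
  rw [← Dep_eval hf]
  have h1 := hP.1 (fun b => if b = b0 then σ else 0) (fun b => if b = b0 then τ else 0)
  have e1 : (fun i : Fin m × Fin n => 2 * (σ * p + τ * q) * (if i.1 = b0 then v0 i.2 else 0)) =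
      fun i : Fin m × Fin n => 2 * ((if i.1 = b0 then σ else 0) * (z i.1 i.2).re +
        (if i.1 = b0 then τ else 0) * (z i.1 i.2).im) := by
    funext i
    by_cases hi : i.1 = b0
    · rw [if_pos hi, if_pos hi, if_pos hi, hi, hx, hy]
      ring
    · rw [if_neg hi, if_neg hi, if_neg hi]
      ring
  have e2 : (fun b : Fin m => (σ ^ 2 + τ ^ 2) * (if b = b0 then (1 : K) else 0)) =
      fun b : Fin m => (if b = b0 then σ else 0) ^ 2 + (if b = b0 then τ else 0) ^ 2 := by
    funext b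
    by_cases hb : b = b0
    · rw [if_pos hb, if_pos hb, if_pos hb, mul_one]
    · rw [if_neg hb, if_neg hb, if_neg hb]
      ring
  rw [e1, e2]
  exact h1

theorem dep {K : Type*} [Field K] [CharZero K] {m n d : ℕ} (hd : 1 ≤ d)
    {f : MvPolynomial (Fin m × Fin n) K} (hf : f.IsHomogeneous d) (z : Fin m → Fin n → LL K)
    (P : MvPolynomial (Fin m) K) (hP : PlaneRel d f z P) (b0 : Fin m) (p q : K)
    (hpq : p ≠ 0 ∨ q ≠ 0) (v0 : Fin n → K) (hx : ∀ c, (z b0 c).re = p * v0 c)
    (hy : ∀ c, (z b0 c).im = q * v0 c) :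
    eval (fun i : Fin m × Fin n => if i.1 = b0 then v0 i.2 else 0) f = 0 := by
  have hR := Dep_rel hf z P hP b0 p q v0 hx hy
  set F := eval (fun i : Fin m × Fin n => if i.1 = b0 then v0 i.2 else 0) f with hF
  obtain ⟨σ₀, τ₀, h0⟩ : ∃ σ τ : K, σ * p + τ * q = 1 := by
    rcases hpq with h | h
    · exact ⟨p⁻¹, 0, by rw [inv_mul_cancel₀ h]; ring⟩
    · exact ⟨0, q⁻¹, by rw [inv_mul_cancel₀ h]; ring⟩
  have h2 : (2 : K) ≠ 0 := two_ne_zero
  rcases Nat.even_or_odd d with hev | hodd
  · obtain ⟨e, he⟩ := hev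
    have he' : d = 2 * e := by omega
    have he1 : e ≠ 0 := by omega
    have hPh := hP.2.2 e he'
    have hR' : ∀ σ τ : K, (2 * (σ * p + τ * q)) ^ d * F =
        (σ ^ 2 + τ ^ 2) ^ e * eval (fun b => if b = b0 then (1 : K) else 0) P := by
      intro σ τ
      rw [hR σ τ, Dep_eval hPh]
    by_cases hs : p ^ 2 + q ^ 2 = 0
    · have hp : p ≠ 0 := by
        intro hp0
        rcases hpq with h | h
        · exact h hp0
        · rw [hp0] at hs
          apply h
          have : q ^ 2 = 0 := by linear_combination hs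
          exact pow_eq_zero_iff (two_ne_zero) |>.1 this
      have h3 := hR' p (-q)
      have h4 : p ^ 2 + (-q) ^ 2 = 0 := by linear_combination hs
      rw [h4, zero_pow he1, zero_mul] at h3
      rcases mul_eq_zero.1 h3 with h5 | h5
      · exfalso
        have h6 := pow_eq_zero_iff (by omega : d ≠ 0) |>.1 h5
        have h7 : 2 * (p * p + -q * q) = 4 * p ^ 2 := by linear_combination (-2) * hs
        rw [h7] at h6
        rcases mul_eq_zero.1 h6 with h8 | h8
        · exact absurd h8 (by norm_num)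
        · exact hp (pow_eq_zero_iff two_ne_zero |>.1 h8)
      · exact h5
    · have h3 := hR' q (-p)
      have h4 : 2 * (q * p + -p * q) = (0 : K) := by ring
      rw [h4, zero_pow (by omega : d ≠ 0), zero_mul] at h3
      have h5 : eval (fun b => if b = b0 then (1 : K) else 0) P = 0 := by
        rcases mul_eq_zero.1 h3.symm with h6 | h6
        · exfalso
          have h7 := pow_eq_zero_iff he1 |>.1 h6
          exact hs (by linear_combination h7)
        · exact h6
      have h6 := hR' σ₀ τ₀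
      rw [h5, mul_zero, h0, mul_one] at h6
      rcases mul_eq_zero.1 h6 with h7 | h7
      · exact absurd h7 (pow_ne_zero _ h2)
      · exact h7
  · have h3 := hR σ₀ τ₀
    rw [hP.2.1 hodd, map_zero, h0, mul_one] at h3
    rcases mul_eq_zero.1 h3 with h7 | h7
    · exact absurd h7 (pow_ne_zero _ h2)
    · exact h7

theorem dep_exists {K : Type*} [Field K] {n : ℕ} {x y : Fin n → K} (h0 : x ≠ 0 ∨ y ≠ 0)
    (h : ¬ LinearIndependent K ![x, y]) :
    ∃ (v0 : Fin n → K) (p q : K), v0 ≠ 0 ∧ (p ≠ 0 ∨ q ≠ 0) ∧ (∀ c, x c = p * v0 c) ∧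
      ∀ c, y c = q * v0 c := by
  by_cases hx : x = 0
  · rcases h0 with h1 | h1
    · exact absurd hx h1
    · exact ⟨y, 0, 1, h1, Or.inr one_ne_zero, fun c => by rw [hx]; simp, fun c => by ring⟩
  · rw [LinearIndependent.pair_iff' hx] at h
    push Not at h
    obtain ⟨a, ha⟩ := h
    refine ⟨x, 1, a, hx, Or.inl one_ne_zero, fun c => by ring, fun c => ?_⟩
    rw [← ha]
    rfl

end Pool.Agent.H78.LR
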