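import Pool.Agent.H73.Avr.Engine

/-!
# A finite dimensional form of the `ℤ/q` engine

Variant of `Pool.Agent.H73.Avr.Prism` and `Pool.Agent.H73.Avr.Engine` where the discrete
homotopies depend on the step.
-/

namespace Pool.Agent.H78.LR

open FreeAbelianGroup Pool.Agent.H73.Avr

variable {X : Type} {q : ℕ}

/-- range of the translates used in step `k` -/
def ran (q k : ℕ) : ℕ := if Even k then 2 else q

theorem opc_mem' {g : X → X} {q k : ℕ} {S S' : AddSubgroup (O X)}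
    (h : ∀ s < ran q k, ∀ y ∈ S, (mp g)^[s] y ∈ S') {y : O X} (hy : y ∈ S) :
    opc g q k y ∈ S' := by
  unfold opc
  unfold ran at h
  split_ifs with hk
  · rw [if_pos hk] at h
    exact S'.sub_mem (h 1 (by omega) y hy) (h 0 (by omega) y hy)
  · rw [if_neg hk] at h
    exact AddSubgroup.sum_mem _ fun s hs => h s (Finset.mem_range.1 hs) y hy

/-- the chains of the minimal resolution built with step dependent cone operators -/
noncomputable def ech' (g : X → X) (q : ℕ) (Hs : ℕ → ℕ → X → X) (D : ℕ) (x0 : X) : ℕ → O X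
  | 0 => of [x0]
  | (k + 1) => K (Hs k) D (opc g q k (ech' g q Hs D x0 k))

theorem ech'_mem {g : X → X} {q : ℕ} {Hs : ℕ → ℕ → X → X} {D : ℕ} {x0 : X}
    {F : ℕ → Set (Set X)} (h0 : ∃ S ∈ F 0, x0 ∈ S)
    (hF : ∀ k, ∀ S ∈ F k, ∀ s < ran q k, ∀ i < D, ∃ S' ∈ F (k + 1), ∀ x ∈ S,
      Hs k i (g^[s] x) ∈ S' ∧ Hs k (i + 1) (g^[s] x) ∈ S') (k : ℕ) :
    ech' g q Hs D x0 k ∈ cl (Sm F k) := by
  induction k with
  | zero =>
    obtain ⟨S, hS, hx⟩ := h0
    exact of_mem_cl ⟨rfl, S, hS, by simpa using hx⟩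
  | succ k ih =>
    show K (Hs k) D (opc g q k (ech' g q Hs D x0 k)) ∈ _
    have h1 : opc g q k (ech' g q Hs D x0 k) ∈ cl (X := X) (fun σ => σ.length = k + 1 ∧
        ∃ S ∈ F k, ∃ s < ran q k, ∀ y ∈ σ, ∃ x ∈ S, y = g^[s] x) := by
      refine opc_mem' (fun s hs y hy => ?_) ih
      have h2 : ∀ y : O X, (mp g)^[s] y = (mp g^[s]) y := by
        intro y
        induction y using FreeAbelianGroup.induction_on with
        | zero => rw [iterate_map_zero', map_zero]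
        | of σ => rw [mp_iter_of, mp_of]
        | neg σ h => rw [iterate_map_neg', h, map_neg]
        | add a b ha hb => rw [iterate_map_add', ha, hb, map_add]
      rw [h2]
      refine map_mem_of_cl _ ?_ hy
      rintro σ ⟨hl, S, hS, hx⟩
      rw [mp_of]
      refine of_mem_cl ⟨by simpa using hl, S, hS, s, hs, ?_⟩
      intro y hy
      obtain ⟨x, hx1, rfl⟩ := List.mem_map.1 hy
      exact ⟨x, hx x hx1, rfl⟩
    rw [K_apply]
    refine AddSubgroup.sum_mem _ fun i hi => map_mem_of_cl _ ?_ h1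
    rintro σ ⟨hl, S, hS, s, hs, hx⟩
    rw [P_of]
    obtain ⟨S', hS', hin⟩ := hF k S hS s hs i (Finset.mem_range.1 hi)
    have h3 := pl_mem (Hs k i) (Hs k (i + 1)) σ
    have h4 : cl (X := X) (fun τ => τ.length = σ.length + 1 ∧
        ∀ y ∈ τ, ∃ x ∈ σ, y = Hs k i x ∨ y = Hs k (i + 1) x) ≤ cl (Sm F (k + 1)) := by
      unfold cl
      rw [AddSubgroup.closure_le]
      rintro _ ⟨τ, ⟨h5, h6⟩, rfl⟩
      refine AddSubgroup.subset_closure ⟨τ, ⟨by rw [h5, hl], S', hS', ?_⟩, rfl⟩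
      intro y hy
      obtain ⟨x, hxσ, hyx⟩ := h6 y hy
      obtain ⟨z, hz, rfl⟩ := hx x hxσ
      rcases hyx with rfl | rfl
      · exact (hin z hz).1
      · exact (hin z hz).2
    exact h4 h3

theorem ech'_length {g : X → X} {q : ℕ} {Hs : ℕ → ℕ → X → X} {D : ℕ} {x0 : X} (k : ℕ) :
    ech' g q Hs D x0 k ∈ cl (X := X) (fun σ => σ.length = k + 1) := by
  have h := ech'_mem (g := g) (q := q) (Hs := Hs) (D := D) (x0 := x0) (F := fun _ => {Set.univ})
    ⟨Set.univ, rfl, trivial⟩ (fun k S _ s _ i _ => ⟨Set.univ, rfl, fun x _ => ⟨trivial, trivial⟩⟩) k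
  have h4 : cl (X := X) (Sm (fun _ => {Set.univ}) k) ≤ cl (X := X) (fun σ => σ.length = k + 1) := by
    unfold cl
    rw [AddSubgroup.closure_le]
    rintro _ ⟨τ, h5, rfl⟩
    exact AddSubgroup.subset_closure ⟨τ, h5.1, rfl⟩
  exact h4 h

/-- the boundary relation modulo degenerate lists -/
theorem dO_ech' {g : X → X} {q : ℕ} (hq : 1 < q) (hg : g^[q] = id) {Hs : ℕ → ℕ → X → X} {D : ℕ}
    {x0 : X} {x1 : ℕ → X} (h0 : ∀ k x, Hs k 0 x = x) (hD : ∀ k x, Hs k D x = x1 k) (k : ℕ) :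
    dO (ech' g q Hs D x0 (k + 1)) + opc g q k (ech' g q Hs D x0 k) ∈ cl (X := X) Dg := by
  have hmp0 : ∀ k, ∀ y : O X, mp (Hs k 0) y = y := by
    intro k y
    have : Hs k 0 = id := funext (h0 k)
    rw [this]
    induction y using FreeAbelianGroup.induction_on with
    | zero => rw [map_zero]
    | of σ => rw [mp_of]; simp
    | neg σ h => rw [map_neg, h]
    | add a b ha hb => rw [map_add, ha, hb]
  have step : ∀ k, ∀ c : O X, dO c ∈ cl (X := X) Dg → mp (Hs k D) c ∈ cl (X := X) Dg →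
      dO (K (Hs k) D c) + c ∈ cl (X := X) Dg := by
    intro k c h1 h2
    have h3 := dO_K (Hs k) D c
    rw [hmp0] at h3
    have h4 : dO (K (Hs k) D c) + c = mp (Hs k D) c - K (Hs k) D (dO c) := by
      rw [eq_sub_iff_add_eq]
      calc dO (K (Hs k) D c) + c + K (Hs k) D (dO c)
          = (dO (K (Hs k) D c) + K (Hs k) D (dO c)) + c := by abel
        _ = mp (Hs k D) c := by rw [h3]; abel
    rw [h4]
    exact AddSubgroup.sub_mem _ h2 (K_mem_Dg (Hs k) D h1)
  induction k with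
  | zero =>
    show dO (K (Hs 0) D (opc g q 0 (of [x0]))) + opc g q 0 (of [x0]) ∈ _
    have hc : opc g q 0 (of [x0]) = of [g x0] - of [x0] := by
      unfold opc; rw [if_pos (by decide)]; rfl
    rw [hc]
    apply step
    · have : dO (of [g x0] - of [x0]) = (0 : O X) := by
        rw [map_sub, dO_of, dO_of]
        simp [dl]
      rw [this]; exact AddSubgroup.zero_mem _
    · have : mp (Hs 0 D) (of [g x0] - of [x0]) = (0 : O X) := by
        rw [map_sub, mp_of, mp_of]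
        simp [hD]
      rw [this]; exact AddSubgroup.zero_mem _
  | succ k ih =>
    show dO (K (Hs (k + 1)) D (opc g q (k + 1) (ech' g q Hs D x0 (k + 1)))) +
      opc g q (k + 1) (ech' g q Hs D x0 (k + 1)) ∈ _
    apply step
    · rw [dO_opc]
      set z := dO (ech' g q Hs D x0 (k + 1)) + opc g q k (ech' g q Hs D x0 k) with hz
      have h1 : dO (ech' g q Hs D x0 (k + 1)) = z - opc g q k (ech' g q Hs D x0 k) := by
        rw [hz]; abel
      rw [h1, opc_sub, opc_opc hg, sub_zero]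
      exact opc_mem hq (fun s _ y hy => iter_mem_Dg g s hy) ih
    · have h1 : opc g q (k + 1) (ech' g q Hs D x0 (k + 1)) ∈
          cl (X := X) (fun σ => σ.length = k + 1 + 1) := by
        refine opc_mem hq (fun s _ y hy => iter_mem_length g s hy) (ech'_length (k + 1))
      refine map_mem_of_cl (mp (Hs (k + 1) D)) (fun σ hσ => ?_) h1
      rw [mp_of]
      match σ, hσ with
      | a :: b :: r, _ =>
        rw [List.map_cons, List.map_cons, hD, hD]
        exact of_mem_cl (Dg.head _ _)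

/-- discrete form of the theorem -/
theorem engine_disc' [NeZero q] (hq : 1 < q) (M : ℕ) {g : X → X} (hg : g^[q] = id)
    (ℓ : X → ZMod q × ℕ) (hℓ : ∀ x, ℓ (g x) = ((ℓ x).1 + 1, (ℓ x).2)) (hM : ∀ x, (ℓ x).2 < M)
    (Hs : ℕ → ℕ → X → X) (D : ℕ) (x0 : X) (x1 : ℕ → X) (h0 : ∀ k x, Hs k 0 x = x)
    (hD : ∀ k x, Hs k D x = x1 k)
    (F : ℕ → Set (Set X)) (hF0 : ∃ S ∈ F 0, x0 ∈ S)
    (hF : ∀ k, ∀ S ∈ F k, ∀ s < ran q k, ∀ i < D, ∃ S' ∈ F (k + 1), ∀ x ∈ S,
      Hs k i (g^[s] x) ∈ S' ∧ Hs k (i + 1) (g^[s] x) ∈ S')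
    (hcomp : ∀ k ≤ M, ∀ S ∈ F k, ∀ x ∈ S, ∀ y ∈ S, Compat (ℓ x) (ℓ y)) : False := by
  have hpair : ∀ k ≤ M, ∀ σ, Sm F k σ → (σ.map ℓ).Pairwise Compat := by
    rintro k hk σ ⟨_, S, hS, hx⟩
    rw [List.pairwise_map]
    exact List.pairwise_of_forall_mem_list fun a ha b hb => hcomp k hk S hS a (hx a ha) b (hx b hb)
  have hmem : ∀ k, ech' g q Hs D x0 k ∈ cl (Sm F k) := ech'_mem hF0 hF
  have hmem2 : ∀ k ≤ M, ech' g q Hs D x0 k ∈ cl (X := X) (fun σ => (σ.map ℓ).Pairwise Compat) := by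
    intro k hk
    have h4 : cl (X := X) (Sm F k) ≤ cl (X := X) (fun σ => (σ.map ℓ).Pairwise Compat) := by
      unfold cl
      rw [AddSubgroup.closure_le]
      rintro _ ⟨τ, h5, rfl⟩
      exact AddSubgroup.subset_closure ⟨τ, hpair k hk τ h5, rfl⟩
    exact h4 (hmem k)
  have hrel : ∀ k < M, bd M (Ph ℓ M (ech' g q Hs D x0 (k + 1))) =
      -Ph ℓ M (opc g q k (ech' g q Hs D x0 k)) := by
    intro k hk
    have h1 := Ph_Dg ℓ M (dO_ech' (x0 := x0) hq hg h0 hD k)
    rw [map_add, Ph_dO ℓ M hM (hmem2 (k + 1) hk)] at h1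
    exact eq_neg_of_add_eq_zero_left h1
  refine descent hq M (fun k => Ph ℓ M (ech' g q Hs D x0 k)) ?_ ?_ ?_ ?_
  · have : Ph ℓ M (ech' g q Hs D x0 M) ∈ (⊥ : AddSubgroup (Ch q M)) := by
      refine map_mem_of_cl (Ph ℓ M) ?_ (hmem M)
      intro σ hσ
      rw [AddSubgroup.mem_bot, Ph_of]
      refine tup_eq_zero_of_length M _ (hpair M le_rfl σ hσ) ?_ (by rw [List.length_map, hσ.1]; omega)
      intro v hv
      obtain ⟨x, _, rfl⟩ := List.mem_map.1 hv
      exact hM x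
    exact (AddSubgroup.mem_bot).1 this
  · show bd M (Ph ℓ M (of [x0])) = emp M
    rw [Ph_of]
    show bd M (tup M (ℓ x0 :: [])) = emp M
    rw [bd_tup_cons M (ℓ x0) [] (hM x0) (by simp)]
    show emp M - ins _ _ M (bd M (emp M)) = emp M
    rw [bd_emp, map_zero, sub_zero]
  · intro k hk he
    show bd M (Ph ℓ M (ech' g q Hs D x0 (k + 1))) = _
    rw [hrel k hk]
    unfold opc
    rw [if_pos he, map_sub, Ph_mp ℓ M hℓ]
  · intro k hk ho
    show bd M (Ph ℓ M (ech' g q Hs D x0 (k + 1))) = _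
    rw [hrel k hk]
    unfold opc
    rw [if_neg (Nat.not_even_iff_odd.2 ho)]
    congr 1
    unfold Nm
    rw [map_sum]
    exact Finset.sum_congr rfl fun s _ => Ph_iter ℓ M hℓ s _

/-- iterated cones and translates of a point, step dependent homotopies -/
def theta' (H : ℕ → X → ℝ → X) (g : X → X) (x0 : X) : ℕ → (ℕ → ℕ) → (ℕ → ℝ) → X
  | 0, _, _ => x0
  | (k + 1), a, t => H k (g^[a k] (theta' H g x0 k a t)) (t k)

theorem theta'_congr (H : ℕ → X → ℝ → X) (g : X → X) (x0 : X) (k : ℕ) {a a' : ℕ → ℕ}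
    {t t' : ℕ → ℝ} (ha : ∀ i < k, a i = a' i) (ht : ∀ i < k, t i = t' i) :
    theta' H g x0 k a t = theta' H g x0 k a' t' := by
  induction k with
  | zero => rfl
  | succ k ih =>
    show H k (g^[a k] (theta' H g x0 k a t)) (t k) = H k (g^[a' k] (theta' H g x0 k a' t')) (t' k)
    rw [ih (fun i hi => ha i (by omega)) (fun i hi => ht i (by omega)), ha k (by omega),
      ht k (by omega)]

end Pool.Agent.H78.LR
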