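import Pool.Agent.H78.LR.Eng1

/-!
# Continuous form of the finite dimensional `ℤ/q` engine
-/

namespace Pool.Agent.H78.LR

open FreeAbelianGroup Pool.Agent.H73.Avr

variable {X : Type} {q : ℕ}

theorem ran_le {q : ℕ} (hq : 1 < q) (k : ℕ) : ran q k ≤ q := by
  unfold ran; split_ifs <;> omega

/-- **Borsuk-Ulam for `ℤ/q`, finite dimensional form.** -/
theorem engine' [TopologicalSpace X] [NeZero q] (hq : 1 < q) (M : ℕ)
    {g : X → X} (hg : g^[q] = id)
    (ℓ : X → ZMod q × ℕ) (hℓ : ∀ x, ℓ (g x) = ((ℓ x).1 + 1, (ℓ x).2)) (hM : ∀ x, (ℓ x).2 < M)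
    (hloc : ∀ x, ∃ U : Set X, IsOpen U ∧ x ∈ U ∧ ∀ y ∈ U, ∀ z ∈ U, Compat (ℓ y) (ℓ z))
    (H : ℕ → X → ℝ → X) (x0 : X) (x1 : ℕ → X) (hH0 : ∀ k x, H k x 0 = x)
    (hH1 : ∀ k x, H k x 1 = x1 k)
    (hcont : ∀ k ≤ M, ∀ a : ℕ → ℕ, (∀ i < k, a i < ran q i) →
      Continuous (theta' H g x0 k a)) : False := by
  choose U hUo hUx hUc using hloc
  -- boxes
  let Bx : ℕ → ℕ → (ℕ → ℕ) → (ℕ → ℕ) → Set X := fun D k a j =>
    {x | ∃ t : ℕ → ℝ, (∀ i < k, (j i : ℝ) / D ≤ t i ∧ t i ≤ (j i + 1 : ℝ) / D) ∧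
      x = theta' H g x0 k a t}
  have hleb : ∀ k : ℕ, ∀ α : Fin k → Fin q, ∃ D0 : ℕ, k ≤ M → (∀ i : Fin k, (α i : ℕ) < ran q i) →
      ∀ D ≥ D0, ∀ a : ℕ → ℕ,
      (∀ i (hi : i < k), a i = α ⟨i, hi⟩) → ∀ j : ℕ → ℕ, (∀ i < k, j i < D) →
      ∀ x ∈ Bx D k a j, ∀ y ∈ Bx D k a j, Compat (ℓ x) (ℓ y) := by
    intro k α
    by_cases hkM : k ≤ M ∧ (∀ i : Fin k, (α i : ℕ) < ran q i)
    swap
    · exact ⟨0, fun h1 h2 => absurd ⟨h1, h2⟩ hkM⟩
    let a0 : ℕ → ℕ := fun i => if h : i < k then α ⟨i, h⟩ else 0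
    have ha0 : ∀ i < k, a0 i < ran q i := by
      intro i hi
      simp only [a0, hi, dif_pos]
      exact hkM.2 ⟨i, hi⟩
    let ex : (Fin k → ℝ) → (ℕ → ℝ) := fun u i => if h : i < k then u ⟨i, h⟩ else 0
    have hex : Continuous ex := by
      apply continuous_pi
      intro i
      by_cases h : i < k
      · simp only [ex, h, dif_pos]; exact continuous_apply _
      · simp only [ex, h, dif_neg, not_false_eq_true]; exact continuous_const
    have hf : Continuous (fun u : Fin k → ℝ => theta' H g x0 k a0 (ex u)) :=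
      (hcont k hkM.1 a0 ha0).comp hex
    have hK : IsCompact (Set.Icc (0 : Fin k → ℝ) 1) := isCompact_Icc
    obtain ⟨δ, hδ, hball⟩ := lebesgue_number_lemma_of_metric hK
      (c := fun x : X => (fun u : Fin k → ℝ => theta' H g x0 k a0 (ex u)) ⁻¹' (U x))
      (fun x => (hUo x).preimage hf)
      (fun u _ => Set.mem_iUnion.2 ⟨theta' H g x0 k a0 (ex u), hUx _⟩)
    refine ⟨⌊1 / δ⌋₊ + 1, fun _ _ D hD a ha j hj => ?_⟩
    have hDpos : (0 : ℝ) < D := by
      have : 0 < D := by omega
      exact_mod_cast this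
    have hDδ : 1 / (D : ℝ) < δ := by
      have h1 : 1 / δ < (⌊1 / δ⌋₊ : ℝ) + 1 := Nat.lt_floor_add_one _
      have h2 : ((⌊1 / δ⌋₊ + 1 : ℕ) : ℝ) ≤ D := by exact_mod_cast hD
      push_cast at h2
      rw [div_lt_iff₀ hDpos]
      rw [div_lt_iff₀ hδ] at h1
      nlinarith
    let u0 : Fin k → ℝ := fun i => (j i : ℝ) / D
    have hu0 : u0 ∈ Set.Icc (0 : Fin k → ℝ) 1 := by
      constructor
      · intro i; simp only [u0, Pi.zero_apply]; positivity
      · intro i
        simp only [u0, Pi.one_apply]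
        rw [div_le_one hDpos]
        exact_mod_cast (hj i i.2).le
    obtain ⟨x, hx⟩ := hball u0 hu0
    have hin : ∀ y ∈ Bx D k a j, y ∈ U x := by
      rintro y ⟨t, ht, rfl⟩
      have h1 : theta' H g x0 k a t = theta' H g x0 k a0 (ex (fun i => t i)) := by
        apply theta'_congr
        · intro i hi; simp only [a0, hi, dif_pos]; exact ha i hi
        · intro i hi; simp only [ex, hi, dif_pos]
      rw [h1]
      have h2 : (fun i : Fin k => t i) ∈ Metric.ball u0 δ := by
        rw [Metric.mem_ball, dist_pi_lt_iff hδ]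
        intro i
        obtain ⟨h3, h4⟩ := ht i i.2
        rw [Real.dist_eq, abs_lt]
        have h5 : ((j i : ℝ) + 1) / D = (j i : ℝ) / D + 1 / D := by ring
        rw [h5] at h4
        constructor
        · show -δ < t i - (j i : ℝ) / D
          linarith
        · show t i - (j i : ℝ) / D < δ
          linarith
      exact hx h2
    intro y hy z hz
    exact hUc x y (hin y hy) z (hin z hz)
  choose D0 hD0 using hleb
  let D : ℕ := (Finset.range (M + 1)).sup (fun k => Finset.univ.sup (fun α => D0 k α)) + 1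
  have hDpos : 0 < D := Nat.succ_pos _
  have hDR : (0 : ℝ) < D := by exact_mod_cast hDpos
  let F : ℕ → Set (Set X) := fun k => {S | ∃ a : ℕ → ℕ, (∀ i < k, a i < ran q i) ∧ ∃ j : ℕ → ℕ,
    (∀ i < k, j i < D) ∧ S = Bx D k a j}
  refine engine_disc' hq M hg ℓ hℓ hM (fun k i x => H k x ((i : ℝ) / D)) D x0 x1 ?_ ?_ F ?_ ?_ ?_
  · intro k x
    show H k x (((0 : ℕ) : ℝ) / D) = x
    rw [Nat.cast_zero, zero_div]; exact hH0 k x
  · intro k x
    show H k x ((D : ℝ) / D) = x1 k
    rw [div_self hDR.ne']; exact hH1 k x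
  · exact ⟨Bx D 0 (fun _ => 0) (fun _ => 0), ⟨fun _ => 0, by simp, fun _ => 0, by simp, rfl⟩,
      fun _ => 0, by simp, rfl⟩
  · rintro k S ⟨a, ha, j, hj, rfl⟩ s hs i hi
    refine ⟨Bx D (k + 1) (Function.update a k s) (Function.update j k i), ⟨_, ?_, _, ?_, rfl⟩, ?_⟩
    · intro i' hi'
      by_cases h : i' = k
      · rw [h, Function.update_self]; exact hs
      · rw [Function.update_of_ne h]; exact ha i' (by omega)
    · intro i' hi'
      by_cases h : i' = k
      · rw [h, Function.update_self]; exact hi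
      · rw [Function.update_of_ne h]; exact hj i' (by omega)
    · rintro x ⟨t, ht, rfl⟩
      have main : ∀ c : ℝ, (i : ℝ) / D ≤ c → c ≤ (i + 1 : ℝ) / D →
          H k (g^[s] (theta' H g x0 k a t)) c ∈
            Bx D (k + 1) (Function.update a k s) (Function.update j k i) := by
        intro c hc1 hc2
        refine ⟨Function.update t k c, ?_, ?_⟩
        · intro i' hi'
          by_cases h : i' = k
          · rw [h, Function.update_self, Function.update_self]; exact ⟨hc1, hc2⟩
          · rw [Function.update_of_ne h, Function.update_of_ne h]; exact ht i' (by omega)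
        · show H k (g^[s] (theta' H g x0 k a t)) c =
            H k (g^[Function.update a k s k] (theta' H g x0 k (Function.update a k s)
              (Function.update t k c))) (Function.update t k c k)
          rw [Function.update_self, Function.update_self]
          congr 2
          apply theta'_congr
          · intro i' hi'; rw [Function.update_of_ne (by omega)]
          · intro i' hi'; rw [Function.update_of_ne (by omega)]
      constructor
      · exact main _ le_rfl (by gcongr; linarith)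
      · show H k (g^[s] (theta' H g x0 k a t)) (((i + 1 : ℕ) : ℝ) / D) ∈ _
        apply main
        · push_cast; gcongr; linarith
        · push_cast; exact le_rfl
  · rintro k hk S ⟨a, ha, j, hj, rfl⟩ x hx y hy
    let α : Fin k → Fin q := fun i => ⟨a i, lt_of_lt_of_le (ha i i.2) (ran_le hq i)⟩
    have hDk : D0 k α ≤ D := by
      have h1 : D0 k α ≤ Finset.univ.sup (fun α => D0 k α) :=
        Finset.le_sup (f := fun α => D0 k α) (Finset.mem_univ α)
      have h2 : Finset.univ.sup (fun α => D0 k α) ≤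
          (Finset.range (M + 1)).sup (fun k => Finset.univ.sup (fun α => D0 k α)) :=
        Finset.le_sup (f := fun k => Finset.univ.sup (fun α => D0 k α))
          (Finset.mem_range.2 (by omega))
      exact (h1.trans h2).trans (Nat.le_succ _)
    exact hD0 k α hk (fun i => ha i i.2) D hDk a (fun i hi => rfl) j hj x hx y hy

end Pool.Agent.H78.LR
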