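import Mathlib

/-!
# lr_mod ExE: a crude set of exponents

Image of the functions `Fin m ⊕ Fin m → Fin (D+1)` (there are `(D+1)^(2m)` of them) under
`Finsupp.equivFunOnFinite.symm`, filtered by the condition. `u i ≤ u.degree ≤ D`
(`Finsupp.le_degree`, or `Finset.single_le_sum` after `Finsupp.degree_eq_sum`).
-/

namespace Pool.Agent.H78.LR

/-- a crude set of exponents: all `u` with entries `≤ D` and `u ∘ inl ≠ u ∘ inr` -/
theorem exists_E (m D : ℕ) : ∃ E : Finset (Fin m ⊕ Fin m →₀ ℕ),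
    (∀ u ∈ E, ∃ b, u (Sum.inl b) ≠ u (Sum.inr b)) ∧
    (∀ u : Fin m ⊕ Fin m →₀ ℕ, u.degree ≤ D →
      (∃ b, u (Sum.inl b) ≠ u (Sum.inr b)) → u ∈ E) ∧
    E.card ≤ (D + 1) ^ (2 * m) := by
  classical
  refine ⟨((Finset.univ : Finset (Fin m ⊕ Fin m → Fin (D + 1))).image
    (fun g => Finsupp.equivFunOnFinite.symm (fun i => (g i : ℕ)))).filter
    (fun u => ∃ b, u (Sum.inl b) ≠ u (Sum.inr b)), ?_, ?_, ?_⟩
  · intro u hu
    exact (Finset.mem_filter.1 hu).2
  · intro u hu hb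
    rw [Finset.mem_filter, Finset.mem_image]
    refine ⟨⟨fun i => ⟨u i, Nat.lt_succ_of_le ((Finsupp.le_degree i u).trans hu)⟩,
      Finset.mem_univ _, ?_⟩, hb⟩
    ext i
    rfl
  · refine (Finset.card_filter_le _ _).trans (Finset.card_image_le.trans ?_)
    rw [Finset.card_univ, Fintype.card_fun, Fintype.card_fin, Fintype.card_sum, Fintype.card_fin,
      two_mul]

end Pool.Agent.H78.LR
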