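import Mathlib

/-!
# lr_mod ExE4: the sixty exponents

There are `126` exponents of degree `4` in `6` variables, `6` of them have `u ∘ inl = u ∘ inr`;
take the `60` remaining ones with `u ∘ inl < u ∘ inr` lexicographically. A way to get them by
`decide`: `List.Nat.antidiagonalTuple 6 4` (or a nested list comprehension), filtered by the
lexicographic condition, mapped to `Fin 3 ⊕ Fin 3 →₀ ℕ` (injective).
-/

namespace Pool.Agent.H78.LR

open MvPolynomial

/-- the lexicographic condition -/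
private def lx (a : Fin 6 → ℕ) : Prop :=
  a 0 < a 3 ∨ (a 0 = a 3 ∧ (a 1 < a 4 ∨ (a 1 = a 4 ∧ a 2 < a 5)))

private instance : DecidablePred lx := fun a => by unfold lx; infer_instance

private noncomputable def em (a : Fin 6 → ℕ) : Fin 3 ⊕ Fin 3 →₀ ℕ :=
  Finsupp.equivFunOnFinite.symm
    (Sum.elim (fun i => ![a 0, a 1, a 2] i) (fun i => ![a 3, a 4, a 5] i))

private theorem em_inj : Function.Injective em := by
  intro a b h
  have h1 : ∀ s, em a s = em b s := fun s => by rw [h]
  have e0 := h1 (Sum.inl 0)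
  have e1 := h1 (Sum.inl 1)
  have e2 := h1 (Sum.inl 2)
  have e3 := h1 (Sum.inr 0)
  have e4 := h1 (Sum.inr 1)
  have e5 := h1 (Sum.inr 2)
  simp [em] at e0 e1 e2 e3 e4 e5
  funext i
  fin_cases i <;> simp_all

private theorem card60 : ((Finset.Nat.antidiagonalTuple 6 4).filter lx).card = 60 := by
  decide +kernel

/-- the sixty exponents -/
theorem exists_E4 : ∃ E : Finset (Fin 3 ⊕ Fin 3 →₀ ℕ),
    (∀ u ∈ E, ∃ b, u (Sum.inl b) ≠ u (Sum.inr b)) ∧
    (∀ u : Fin 3 ⊕ Fin 3 →₀ ℕ, u.degree = 4 →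
      (∃ b, u (Sum.inl b) ≠ u (Sum.inr b)) → u ∈ E ∨ u.mapDomain Sum.swap ∈ E) ∧
    E.card = 60 := by
  classical
  refine ⟨((Finset.Nat.antidiagonalTuple 6 4).filter lx).map ⟨em, em_inj⟩, ?_, ?_, ?_⟩
  · intro u hu
    rw [Finset.mem_map] at hu
    obtain ⟨a, ha, rfl⟩ := hu
    rw [Finset.mem_filter] at ha
    rcases ha.2 with h | ⟨_, h | ⟨_, h⟩⟩
    · exact ⟨0, by simpa [em] using h.ne⟩
    · exact ⟨1, by simpa [em] using h.ne⟩
    · exact ⟨2, by simpa [em] using h.ne⟩
  · intro u hu hb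
    have hsum : u (Sum.inl 0) + u (Sum.inl 1) + u (Sum.inl 2) +
        (u (Sum.inr 0) + u (Sum.inr 1) + u (Sum.inr 2)) = 4 := by
      rw [← hu, Finsupp.degree_eq_sum, Fintype.sum_sum_type, Fin.sum_univ_three,
        Fin.sum_univ_three]
    have h3 : lx ![u (Sum.inl 0), u (Sum.inl 1), u (Sum.inl 2), u (Sum.inr 0), u (Sum.inr 1),
        u (Sum.inr 2)] ∨ lx ![u (Sum.inr 0), u (Sum.inr 1), u (Sum.inr 2), u (Sum.inl 0),
        u (Sum.inl 1), u (Sum.inl 2)] := by
      obtain ⟨b, hb⟩ := hb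
      simp only [lx]
      simp only [Matrix.cons_val]
      fin_cases b <;> simp at hb <;> omega
    rcases h3 with h | h
    · left
      rw [Finset.mem_map]
      refine ⟨_, Finset.mem_filter.mpr ⟨?_, h⟩, ?_⟩
      · rw [Finset.Nat.mem_antidiagonalTuple]
        simp [Fin.sum_univ_succ]
        omega
      · ext s
        rcases s with i | i <;> fin_cases i <;> simp [em]
    · right
      rw [Finset.mem_map]
      refine ⟨_, Finset.mem_filter.mpr ⟨?_, h⟩, ?_⟩
      · rw [Finset.Nat.mem_antidiagonalTuple]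
        simp [Fin.sum_univ_succ]
        omega
      · have hsw : ∀ s, (u.mapDomain Sum.swap) s = u (Sum.swap s) := by
          intro s
          have := Finsupp.mapDomain_apply (f := (Sum.swap : Fin 3 ⊕ Fin 3 → Fin 3 ⊕ Fin 3))
            (Equiv.sumComm (Fin 3) (Fin 3)).injective u (Sum.swap s)
          rwa [Sum.swap_swap] at this
        ext s
        rw [hsw]
        rcases s with i | i <;> fin_cases i <;> simp [em]
  · rw [Finset.card_map]
    exact card60

end Pool.Agent.H78.LR
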