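import Pool.Agent.H78.LR.Defs

/-!
# lr_mod GrA: the filtration of an order

`β_1, ..., β_e ∈ K` linearly independent over `ℝ[t]`. `Wm t β s` = combinations
`∑_j p_j(t) β_j` with `deg p_j < s`.

`Wm_finrank`: the parametrisation `(Fin e → degreeLT ℝ s) → K` is injective by `hli`;
`finrank (degreeLT ℝ s) = s`. `Wm_mul`: expand the product, `p_i p'_j (q_ij)_k` has degree
`< s + s' + h`.
-/

namespace Pool.Agent.H78.LR

open Polynomial

variable {K : Type*} [Field K] [Algebra ℝ K]

/-- combinations `∑_j p_j(t) β_j` with `deg p_j < s` -/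
def Wm (t : K) {e : ℕ} (β : Fin e → K) (s : ℕ) : Submodule ℝ K where
  carrier := {x | ∃ p : Fin e → ℝ[X], (∀ j, p j ∈ degreeLT ℝ s) ∧
    x = ∑ j, aeval t (p j) * β j}
  zero_mem' := ⟨0, fun _ => Submodule.zero_mem _, by simp⟩
  add_mem' := by
    rintro _ _ ⟨p, hp, rfl⟩ ⟨p', hp', rfl⟩
    exact ⟨p + p', fun j => Submodule.add_mem _ (hp j) (hp' j), by
      simp [add_mul, Finset.sum_add_distrib]⟩
  smul_mem' := by
    rintro c _ ⟨p, hp, rfl⟩
    exact ⟨c • p, fun j => Submodule.smul_mem _ c (hp j), by
      simp [Finset.smul_sum]⟩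

theorem Wm_mono (t : K) {e : ℕ} (β : Fin e → K) {s s' : ℕ} (h : s ≤ s') :
    Wm t β s ≤ Wm t β s' := by
  rintro x ⟨p, hp, rfl⟩
  exact ⟨p, fun j => degreeLT_mono h (hp j), rfl⟩

/-- every `ℝ[t]`-combination is in some `Wm` -/
theorem exists_mem_Wm (t : K) {e : ℕ} (β : Fin e → K) (p : Fin e → ℝ[X]) :
    ∃ s, ∑ j, aeval t (p j) * β j ∈ Wm t β s := by
  refine ⟨(Finset.univ.sup fun j => (p j).natDegree) + 1, p, fun j => ?_, rfl⟩
  rw [mem_degreeLT]
  have h1 : (p j).natDegree ≤ Finset.univ.sup fun j => (p j).natDegree :=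
    Finset.le_sup (f := fun j => (p j).natDegree) (Finset.mem_univ j)
  calc (p j).degree ≤ (p j).natDegree := degree_le_natDegree
    _ < _ := by exact_mod_cast Nat.lt_succ_of_le h1

theorem Wm_finrank (t : K) {e : ℕ} (β : Fin e → K)
    (hli : ∀ p : Fin e → ℝ[X], ∑ j, aeval t (p j) * β j = 0 → p = 0) (s : ℕ) :
    FiniteDimensional ℝ (Wm t β s) ∧ Module.finrank ℝ (Wm t β s) = e * s := by
  have hfd : FiniteDimensional ℝ (degreeLT ℝ s) :=
    FiniteDimensional.of_injective (degreeLTEquiv ℝ s).toLinearMap (degreeLTEquiv ℝ s).injective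
  have hfr : Module.finrank ℝ (degreeLT ℝ s) = s := by
    rw [(degreeLTEquiv ℝ s).finrank_eq]
    simp
  let φ : (Fin e → degreeLT ℝ s) →ₗ[ℝ] K :=
    { toFun := fun p => ∑ j, aeval t (p j : ℝ[X]) * β j
      map_add' := by
        intro p q
        simp [add_mul, Finset.sum_add_distrib]
      map_smul' := by
        intro c p
        simp [Finset.smul_sum] }
  have hφ : ∀ p, φ p = ∑ j, aeval t (p j : ℝ[X]) * β j := fun _ => rfl
  have hinj : Function.Injective φ := by
    rw [injective_iff_map_eq_zero]
    intro p hp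
    have h1 := hli (fun j => (p j : ℝ[X])) hp
    funext j
    apply Subtype.ext
    exact congrFun h1 j
  have hrange : LinearMap.range φ = Wm t β s := by
    ext x
    constructor
    · rintro ⟨p, rfl⟩
      exact ⟨fun j => (p j : ℝ[X]), fun j => (p j).2, rfl⟩
    · rintro ⟨p, hp, rfl⟩
      exact ⟨fun j => ⟨p j, hp j⟩, rfl⟩
  rw [← hrange]
  refine ⟨inferInstance, ?_⟩
  rw [LinearMap.finrank_range_of_inj hinj, Module.finrank_pi_fintype]
  simp [hfr]

theorem Wm_mul (t : K) {e : ℕ} (β : Fin e → K)
    (hmul : ∀ i j, ∃ p : Fin e → ℝ[X], β i * β j = ∑ k, aeval t (p k) * β k) :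
    ∃ h : ℕ, ∀ s s', Wm t β s * Wm t β s' ≤ Wm t β (s + s' + h) := by
  choose q hq using hmul
  refine ⟨(Finset.univ.sup fun i => Finset.univ.sup fun j => Finset.univ.sup fun k =>
    (q i j k).natDegree) + 1, fun s s' => ?_⟩
  set h := (Finset.univ.sup fun i => Finset.univ.sup fun j => Finset.univ.sup fun k =>
    (q i j k).natDegree) + 1 with hh
  have hqd : ∀ i j k, (q i j k).degree < (h : WithBot ℕ) := by
    intro i j k
    have h1 : (q i j k).natDegree ≤ Finset.univ.sup fun k => (q i j k).natDegree :=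
      Finset.le_sup (f := fun k => (q i j k).natDegree) (Finset.mem_univ k)
    have h2 : (Finset.univ.sup fun k => (q i j k).natDegree) ≤
        Finset.univ.sup fun j => Finset.univ.sup fun k => (q i j k).natDegree :=
      Finset.le_sup (f := fun j => Finset.univ.sup fun k => (q i j k).natDegree)
        (Finset.mem_univ j)
    have h3 : (Finset.univ.sup fun j => Finset.univ.sup fun k => (q i j k).natDegree) ≤
        Finset.univ.sup fun i => Finset.univ.sup fun j => Finset.univ.sup fun k =>
          (q i j k).natDegree :=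
      Finset.le_sup (f := fun i => Finset.univ.sup fun j => Finset.univ.sup fun k =>
          (q i j k).natDegree) (Finset.mem_univ i)
    calc (q i j k).degree ≤ (q i j k).natDegree := degree_le_natDegree
      _ < _ := by
        rw [hh]
        exact_mod_cast Nat.lt_succ_of_le (h1.trans (h2.trans h3))
  rw [Submodule.mul_le]
  rintro _ ⟨p, hp, rfl⟩ _ ⟨p', hp', rfl⟩
  refine ⟨fun k => ∑ i, ∑ j, p i * p' j * q i j k, fun k => ?_, ?_⟩
  · refine Submodule.sum_mem _ fun i _ => Submodule.sum_mem _ fun j _ => ?_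
    rw [mem_degreeLT]
    by_cases h0 : p i = 0
    · simp only [h0, zero_mul, degree_zero]
      exact WithBot.bot_lt_coe _
    by_cases h0' : p' j = 0
    · simp only [h0', zero_mul, mul_zero, degree_zero]
      exact WithBot.bot_lt_coe _
    by_cases h0'' : q i j k = 0
    · simp only [h0'', mul_zero, degree_zero]
      exact WithBot.bot_lt_coe _
    have e1 := mem_degreeLT.1 (hp i)
    have e2 := mem_degreeLT.1 (hp' j)
    have e3 := hqd i j k
    rw [degree_eq_natDegree h0] at e1
    rw [degree_eq_natDegree h0'] at e2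
    rw [degree_eq_natDegree h0''] at e3
    rw [degree_mul, degree_mul, degree_eq_natDegree h0, degree_eq_natDegree h0',
      degree_eq_natDegree h0'']
    have f1 : (p i).natDegree < s := by exact_mod_cast e1
    have f2 : (p' j).natDegree < s' := by exact_mod_cast e2
    have f3 : (q i j k).natDegree < h := by exact_mod_cast e3
    have : (p i).natDegree + (p' j).natDegree + (q i j k).natDegree < s + s' + h := by omega
    exact_mod_cast this
  · have : ∀ i j, aeval t (p i) * β i * (aeval t (p' j) * β j) =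
        ∑ k, aeval t (p i * p' j * q i j k) * β k := by
      intro i j
      calc aeval t (p i) * β i * (aeval t (p' j) * β j)
          = aeval t (p i) * aeval t (p' j) * (β i * β j) := by ring
        _ = _ := by
          rw [hq i j, Finset.mul_sum]
          refine Finset.sum_congr rfl fun k _ => ?_
          rw [map_mul, map_mul]
          ring
    rw [Finset.sum_mul_sum]
    simp_rw [this]
    simp_rw [map_sum, Finset.sum_mul]
    exact (Finset.sum_congr rfl fun i _ => Finset.sum_comm).trans Finset.sum_comm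

end Pool.Agent.H78.LR
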