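import Pool.Agent.H78.LR.GrA

/-!
# lr_mod GrB: the growth estimate for an order

Proof. Take `h` from `Wm_mul`, `s0` with `1 ∈ Wm s0`, `M` with `Q C ⊆ Wm M` (`exists_mem_Wm`,
`Wm_mono`, finiteness of `C`). For `s ≥ s0` put `Ω = Wm s`. By induction on `k ≥ 1`
`Ω ^ k ≤ Wm (k s + k h)`. So `span C * Ω ^ D` is contained in the image of
`Wm (M + D s + D h + h)` under multiplication by `Q⁻¹`, hence its finrank is at most
`e (D s + c0)`, `c0 = M + D h + h`. With `s = max s0 (a c0 + 1)`: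
`a e (D s + c0) < e (a D + 1) s ≤ b e s` because `a c0 < s` and `0 < e` (as `1 ≠ 0` is a
combination of the `β_j`).
-/

namespace Pool.Agent.H78.LR

open Polynomial

theorem grow_core {K : Type*} [Field K] [Algebra ℝ K] (t : K) {e : ℕ} (β : Fin e → K)
    (hli : ∀ p : Fin e → ℝ[X], ∑ j, aeval t (p j) * β j = 0 → p = 0)
    (hmul : ∀ i j, ∃ p : Fin e → ℝ[X], β i * β j = ∑ k, aeval t (p k) * β k)
    (hone : ∃ p : Fin e → ℝ[X], (1 : K) = ∑ k, aeval t (p k) * β k)
    (C : Finset K) (Q : K) (hQ : Q ≠ 0)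
    (hC : ∀ c ∈ C, ∃ p : Fin e → ℝ[X], Q * c = ∑ k, aeval t (p k) * β k)
    (D a b : ℕ) (hD : 1 ≤ D) (hab : a * D < b) :
    ∃ Ω : Submodule ℝ K, FiniteDimensional ℝ Ω ∧ (1 : K) ∈ Ω ∧
      a * Module.finrank ℝ (Submodule.span ℝ (C : Set K) * Ω ^ D : Submodule ℝ K) <
        b * Module.finrank ℝ Ω := by
  obtain ⟨h, hh⟩ := Wm_mul t β hmul
  obtain ⟨s0, hs0⟩ : ∃ s0, (1 : K) ∈ Wm t β s0 := by
    obtain ⟨p, hp⟩ := hone
    rw [hp]
    exact exists_mem_Wm t β p
  have hm0 : ∀ c : K, ∃ m, c ∈ C → Q * c ∈ Wm t β m := by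
    intro c
    by_cases hc : c ∈ C
    · obtain ⟨p, hp⟩ := hC c hc
      obtain ⟨m, hm⟩ := exists_mem_Wm t β p
      exact ⟨m, fun _ => hp ▸ hm⟩
    · exact ⟨0, fun h => absurd h hc⟩
  choose m hm using hm0
  obtain ⟨M, hM⟩ : ∃ M, ∀ c ∈ C, Q * c ∈ Wm t β M :=
    ⟨C.sup m, fun c hc => Wm_mono t β (Finset.le_sup hc) (hm c hc)⟩
  have he : 0 < e := by
    rcases Nat.eq_zero_or_pos e with he | he
    · subst he
      obtain ⟨p, hp⟩ := hone
      simp at hp
    · exact he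
  obtain ⟨s, hs1, hs2⟩ : ∃ s, s0 ≤ s ∧ a * (M + D * h + h) + 1 ≤ s :=
    ⟨max s0 (a * (M + D * h + h) + 1), le_max_left _ _, le_max_right _ _⟩
  have hpow : ∀ k, 1 ≤ k → Wm t β s ^ k ≤ Wm t β (k * s + k * h) := by
    intro k hk
    induction k, hk using Nat.le_induction with
    | base =>
      rw [pow_one, one_mul, one_mul]
      exact Wm_mono t β (Nat.le_add_right _ _)
    | succ k _ ih =>
      rw [pow_succ]
      have h1 : Wm t β s ^ k * Wm t β s ≤ Wm t β (k * s + k * h) * Wm t β s :=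
        mul_le_mul' ih le_rfl
      refine h1.trans ((hh _ _).trans (Wm_mono t β ?_))
      exact le_of_eq (by ring)
  have hspan : ∀ x ∈ Submodule.span ℝ (C : Set K), Q * x ∈ Wm t β M := by
    intro x hx
    have h1 : Submodule.span ℝ (C : Set K) ≤ (Wm t β M).comap (LinearMap.mulLeft ℝ Q) := by
      rw [Submodule.span_le]
      intro c hc
      exact hM c hc
    exact h1 hx
  have hprod : ∀ x ∈ (Submodule.span ℝ (C : Set K) * Wm t β s ^ D : Submodule ℝ K),
      LinearMap.mulLeft ℝ Q x ∈ Wm t β (M + (D * s + D * h) + h) := by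
    intro x hx
    have h1 : (Submodule.span ℝ (C : Set K) * Wm t β s ^ D : Submodule ℝ K)
        ≤ (Wm t β (M + (D * s + D * h) + h)).comap (LinearMap.mulLeft ℝ Q) := by
      rw [Submodule.mul_le]
      intro y hy z hz
      change Q * (y * z) ∈ Wm t β (M + (D * s + D * h) + h)
      rw [← mul_assoc]
      exact hh _ _ (Submodule.mul_mem_mul (hspan y hy) (hpow D hD hz))
    exact h1 hx
  obtain ⟨hfd, hfr⟩ := Wm_finrank t β hli s
  obtain ⟨hfd', hfr'⟩ := Wm_finrank t β hli (M + (D * s + D * h) + h)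
  refine ⟨Wm t β s, hfd, Wm_mono t β hs1 hs0, ?_⟩
  have hle : Module.finrank ℝ (Submodule.span ℝ (C : Set K) * Wm t β s ^ D : Submodule ℝ K)
      ≤ e * (M + (D * s + D * h) + h) := by
    rw [← hfr']
    refine LinearMap.finrank_le_finrank_of_injective
      (f := (LinearMap.mulLeft ℝ Q).restrict hprod) ?_
    intro x y hxy
    have h1 : Q * (x : K) = Q * (y : K) := congrArg Subtype.val hxy
    exact Subtype.ext (mul_left_cancel₀ hQ h1)
  rw [hfr]
  calc a * Module.finrank ℝ (Submodule.span ℝ (C : Set K) * Wm t β s ^ D : Submodule ℝ K)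
      ≤ a * (e * (M + (D * s + D * h) + h)) := Nat.mul_le_mul_left _ hle
    _ = e * (a * D * s + a * (M + D * h + h)) := by ring
    _ < e * (a * D * s + s) := by
        apply Nat.mul_lt_mul_of_pos_left _ he
        omega
    _ = (a * D + 1) * (e * s) := by ring
    _ ≤ b * (e * s) := Nat.mul_le_mul_right _ hab

end Pool.Agent.H78.LR
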