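import Pool.Agent.H78.LR.Defs

/-!
# lr_mod GrC: existence of an order

Proof. View `K` as an algebra over `R = ℝ[X]` by `aeval t` (injective as `t` is transcendental;
`letI := (aeval t).toRingHom.toAlgebra`). Every `c ∈ K` is algebraic over `adjoin ℝ {t}` = range of
`aeval t`, hence over `R`, so there is `0 ≠ y_c ∈ R` with `y_c • c` integral over `R`
(`exists_integral_multiple` or `IsAlgebraic.exists_integral_multiple`). Put
`Q = ∏_{c ∈ C} aeval t y_c ≠ 0`; `Q c` is integral for `c ∈ C`. Let
`B = Algebra.adjoin R {Q c | c ∈ C}`: a finite `R`-module (`fg_adjoin_of_finite`), torsion free,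
`R` is a PID, so `B` is free with a finite basis `β : Fin e → B`
(`Module.Free`, `Module.finBasis`). Coordinates in this basis of `β_i β_j`, `1`, `Q c` (all in `B`)
give `hmul`, `hone`, `hC`; linear independence gives `hli`.
-/

namespace Pool.Agent.H78.LR

open Polynomial

theorem exists_order {K : Type*} [Field K] [Algebra ℝ K] (t : K) (ht : Transcendental ℝ t)
    (halg : Algebra.IsAlgebraic (Algebra.adjoin ℝ {t}) K) (C : Finset K) :
    ∃ (e : ℕ) (β : Fin e → K),
      (∀ p : Fin e → ℝ[X], ∑ j, aeval t (p j) * β j = 0 → p = 0) ∧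
      (∀ i j, ∃ p : Fin e → ℝ[X], β i * β j = ∑ k, aeval t (p k) * β k) ∧
      (∃ p : Fin e → ℝ[X], (1 : K) = ∑ k, aeval t (p k) * β k) ∧
      ∃ Q : K, Q ≠ 0 ∧
        ∀ c ∈ C, ∃ p : Fin e → ℝ[X], Q * c = ∑ k, aeval t (p k) * β k := by
  classical
  let _ : Algebra ℝ[X] K := (aeval t).toRingHom.toAlgebra
  have hmap : ∀ p : ℝ[X], algebraMap ℝ[X] K p = aeval t p := fun p => rfl
  have hinj : Function.Injective (algebraMap ℝ[X] K) := by
    intro p q hpq
    rw [hmap, hmap] at hpq
    exact (transcendental_iff_injective.1 ht) hpq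
  have : FaithfulSMul ℝ[X] K := (faithfulSMul_iff_algebraMap_injective _ _).2 hinj
  have hsmul : ∀ (p : ℝ[X]) (x : K), p • x = aeval t p * x := fun p x => Algebra.smul_def p x
  -- algebraic over `ℝ[X]`
  have halgX : Algebra.IsAlgebraic ℝ[X] K := by
    constructor
    intro x
    obtain ⟨P, hP0, hP⟩ := halg.isAlgebraic x
    -- lift the coefficients
    let φ : ℝ[X] →+* Algebra.adjoin ℝ ({t} : Set K) :=
      (aeval (⟨t, Algebra.self_mem_adjoin_singleton ℝ t⟩ : Algebra.adjoin ℝ ({t} : Set K))).toRingHom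
    have hφ : ∀ p : ℝ[X], ((φ p : Algebra.adjoin ℝ ({t} : Set K)) : K) = aeval t p := by
      intro p
      have := Polynomial.aeval_algebraMap_apply K
        (⟨t, Algebra.self_mem_adjoin_singleton ℝ t⟩ : Algebra.adjoin ℝ ({t} : Set K)) p
      exact this.symm
    have hsurj : Function.Surjective φ := by
      rintro ⟨z, hz⟩
      have hz' := hz
      rw [Algebra.adjoin_singleton_eq_range_aeval] at hz'
      obtain ⟨p, hp⟩ := hz'
      refine ⟨p, Subtype.ext ?_⟩
      rw [hφ]
      exact hp
    obtain ⟨P', hP'⟩ := Polynomial.map_surjective φ hsurj P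
    refine ⟨P', ?_, ?_⟩
    · rintro rfl
      apply hP0
      rw [← hP', Polynomial.map_zero]
    · rw [aeval_def, ← hP', eval₂_map] at hP
      rw [aeval_def]
      have h1 : (algebraMap (Algebra.adjoin ℝ ({t} : Set K)) K).comp φ = algebraMap ℝ[X] K := by
        apply RingHom.ext
        intro p
        exact hφ p
      rw [h1] at hP
      exact hP
  obtain ⟨y, hy0, hy⟩ := Algebra.IsAlgebraic.exists_integral_multiples ℝ[X] C
  set S : Set K := (fun c => y • c) '' (C : Set K) with hS
  let B : Subalgebra ℝ[X] K := Algebra.adjoin ℝ[X] S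
  have hfg : (Subalgebra.toSubmodule B).FG := by
    apply fg_adjoin_of_finite
    · exact (Finset.finite_toSet C).image _
    · rintro _ ⟨c, hc, rfl⟩
      exact hy c hc
  have : Module.Finite ℝ[X] B := Module.Finite.iff_fg.2 hfg
  have : Module.IsTorsionFree ℝ[X] B := inferInstance
  have : Module.Free ℝ[X] B := inferInstance
  let bs := Module.finBasis ℝ[X] B
  have hrep : ∀ x : K, x ∈ B → ∃ p : Fin (Module.finrank ℝ[X] B) → ℝ[X],
      x = ∑ k, aeval t (p k) * (bs k : K) := by
    intro x hx
    refine ⟨fun k => bs.repr ⟨x, hx⟩ k, ?_⟩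
    have h1 := congrArg (fun z : B => (z : K)) (bs.sum_repr ⟨x, hx⟩)
    simp only at h1
    refine h1.symm.trans ?_
    push_cast
    refine Finset.sum_congr rfl fun k _ => ?_
    rw [← hsmul]
  refine ⟨Module.finrank ℝ[X] B, fun j => (bs j : K), ?_, ?_, ?_, ?_⟩
  · intro p hp
    have h1 : ∑ j, p j • bs j = 0 := by
      apply Subtype.ext
      push_cast
      rw [← hp]
      refine Finset.sum_congr rfl fun k _ => ?_
      rw [← hsmul]
    have h2 := Fintype.linearIndependent_iff.1 bs.linearIndependent p h1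
    funext j
    exact h2 j
  · intro i j
    exact hrep _ (B.mul_mem (bs i).2 (bs j).2)
  · exact hrep _ B.one_mem
  · refine ⟨aeval t y, ?_, ?_⟩
    · intro h
      apply hy0
      apply hinj
      rw [hmap, h, map_zero]
    · intro c hc
      apply hrep
      rw [← hsmul]
      exact Algebra.subset_adjoin ⟨c, hc, rfl⟩

end Pool.Agent.H78.LR
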