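import Pool.Agent.H78.LR.GrB
import Pool.Agent.H78.LR.GrC

/-!
# lr_mod GrD: the growth property for transcendence degree at most one

`grow_algebraic`: for finite `C` the subalgebra `B = Algebra.adjoin ℝ C` is finite dimensional (all
elements of `C` are integral over `ℝ`); take `Ω = B.toSubmodule`: `Ω ^ D = Ω` for `D ≥ 1` (`≤` is
enough), `span C * Ω ≤ Ω`, so the inequality is `a x ≤ a D x < b x`, `x = finrank Ω > 0`.

`grow_of_trdeg`: take a transcendence basis (`exists_isTranscendenceBasis'` or similar); its index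
type has cardinality `≤ 1`. Empty: `K` is algebraic over `adjoin ℝ ∅ = ⊥`, so over `ℝ`. One
element `t`: `t` is transcendental and `K` is algebraic over `adjoin ℝ {t}`
(`IsTranscendenceBasis.isAlgebraic`), use `exists_order` and `grow_core`.
-/

namespace Pool.Agent.H78.LR

theorem grow_algebraic {K : Type*} [Field K] [Algebra ℝ K] (h : Algebra.IsAlgebraic ℝ K) :
    Grow K := by
  intro C D a b hD hab
  have hfg : (Subalgebra.toSubmodule (Algebra.adjoin ℝ (C : Set K))).FG :=
    fg_adjoin_of_finite C.finite_toSet fun x _ => (h.isAlgebraic x).isIntegral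
  have hfin : FiniteDimensional ℝ (Subalgebra.toSubmodule (Algebra.adjoin ℝ (C : Set K))) :=
    (Submodule.fg_iff_finiteDimensional _).1 hfg
  refine ⟨Subalgebra.toSubmodule (Algebra.adjoin ℝ (C : Set K)), hfin,
    (Algebra.adjoin ℝ (C : Set K)).one_mem, ?_⟩
  set Ω := Subalgebra.toSubmodule (Algebra.adjoin ℝ (C : Set K)) with hΩ
  have hmul : Ω * Ω ≤ Ω := by
    rw [Submodule.mul_le]
    intro x hx y hy
    exact (Algebra.adjoin ℝ (C : Set K)).mul_mem hx hy
  have hpow : ∀ n : ℕ, Ω ^ (n + 1) ≤ Ω := by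
    intro n
    induction n with
    | zero => simp
    | succ n ih =>
      rw [pow_succ]
      exact (mul_le_mul' ih le_rfl).trans hmul
  obtain ⟨D', rfl⟩ : ∃ D', D = D' + 1 := ⟨D - 1, by omega⟩
  have hC : Submodule.span ℝ (C : Set K) ≤ Ω := by
    rw [Submodule.span_le]
    exact Algebra.subset_adjoin
  have hle : (Submodule.span ℝ (C : Set K) * Ω ^ (D' + 1) : Submodule ℝ K) ≤ Ω :=
    (mul_le_mul' hC (hpow D')).trans hmul
  have h1 := Submodule.finrank_mono hle
  have hpos : 0 < Module.finrank ℝ Ω := by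
    rw [Module.finrank_pos_iff]
    exact ⟨0, ⟨1, (Algebra.adjoin ℝ (C : Set K)).one_mem⟩, fun h => by
      have := congrArg Subtype.val h
      simp at this⟩
  calc a * Module.finrank ℝ (Submodule.span ℝ (C : Set K) * Ω ^ (D' + 1) : Submodule ℝ K)
      ≤ a * Module.finrank ℝ Ω := Nat.mul_le_mul_left _ h1
    _ ≤ a * (D' + 1) * Module.finrank ℝ Ω := by
      apply Nat.mul_le_mul_right
      exact Nat.le_mul_of_pos_right _ (by omega)
    _ < b * Module.finrank ℝ Ω := Nat.mul_lt_mul_of_pos_right hab hpos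

theorem grow_of_trdeg {K : Type*} [Field K] [Algebra ℝ K] (h : Algebra.trdeg ℝ K ≤ 1) :
    Grow K := by
  obtain ⟨s, hs⟩ := exists_isTranscendenceBasis ℝ K
  have hcard : Cardinal.mk s ≤ 1 := hs.1.cardinalMk_le_trdeg.trans h
  have hsub : s.Subsingleton := Cardinal.mk_le_one_iff_set_subsingleton.1 hcard
  have halg := hs.isAlgebraic
  rcases hsub.eq_empty_or_singleton with rfl | ⟨t, rfl⟩
  · apply grow_algebraic
    exact hs.isEmpty_iff_isAlgebraic.1 (by infer_instance)
  · rw [Subtype.range_coe] at halg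
    have ht : Transcendental ℝ t := hs.1.transcendental ⟨t, rfl⟩
    intro C D a b hD hab
    obtain ⟨e, β, h1, h2, h3, Q, h4, h5⟩ := exists_order t ht halg C
    exact grow_core t β h1 h2 h3 C Q h4 h5 D a b hD hab

end Pool.Agent.H78.LR
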