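import Pool.Agent.H78.LR.Defs

/-!
# lr_mod IndA: restriction to fewer variables

`good_of`: given `ι` with `card ι0 ≤ card ι` choose an injection `g : ι0 → ι`
(`Function.Embedding.nonempty_of_card_le`). Put `F j = aeval (fun i => if i = g i0 for some i0 then
X i0 else 0) (f j)` (zero or homogeneous of the same degree: each variable goes to a form of
degree one; `IsHomogeneous.aeval`), a zero `x0 ≠ 0` of the `F j` gives the zero
`x = Function.extend g x0 0` of the `f j`, `x ≠ 0`.
-/

namespace Pool.Agent.H78.LR

open MvPolynomial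

theorem good_of {K : Type*} [Field K] {r D : ℕ} (ι0 : Type) [Fintype ι0]
    (h : ∀ f : Fin r → MvPolynomial ι0 K,
      (∀ j, f j = 0 ∨ ∃ e, 1 ≤ e ∧ e ≤ D ∧ (f j).IsHomogeneous e) →
      ∃ x : ι0 → K, x ≠ 0 ∧ ∀ j, eval x (f j) = 0) :
    Good K r D (Fintype.card ι0) := by
  intro ι _ hcard f hf
  obtain ⟨g⟩ := Function.Embedding.nonempty_of_card_le hcard
  have hs : ∀ i, (Function.extend g (X : ι0 → MvPolynomial ι0 K) 0 i).IsHomogeneous 1 := by
    intro i
    by_cases hi : ∃ i0, g i0 = i
    · obtain ⟨i0, rfl⟩ := hi
      rw [g.injective.extend_apply]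
      exact isHomogeneous_X _ _
    · rw [Function.extend_apply' _ _ _ hi]
      exact isHomogeneous_zero _ _ _
  obtain ⟨x0, hx0, hz⟩ := h (fun j => aeval (Function.extend g (X : ι0 → MvPolynomial ι0 K) 0) (f j))
    (fun j => by
      rcases hf j with h0 | ⟨e, he1, he2, hh⟩
      · left
        rw [h0, map_zero]
      · right
        refine ⟨e, he1, he2, ?_⟩
        have := hh.aeval _ hs
        rwa [one_mul] at this)
  refine ⟨Function.extend g x0 0, ?_, fun j => ?_⟩
  · intro h0
    apply hx0
    funext i0
    have := congrFun h0 (g i0)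
    rw [g.injective.extend_apply] at this
    exact this
  · have h1 := hz j
    rw [aeval_def, eval₂_comp_left] at h1
    have e1 : (eval x0).comp (algebraMap K (MvPolynomial ι0 K)) = RingHom.id K := by
      ext a
      simp [algebraMap_eq]
    have e2 : ((eval x0) ∘ Function.extend g (X : ι0 → MvPolynomial ι0 K) 0)
        = Function.extend g x0 0 := by
      funext i
      by_cases hi : ∃ i0, g i0 = i
      · obtain ⟨i0, rfl⟩ := hi
        rw [Function.comp_apply, g.injective.extend_apply, g.injective.extend_apply, eval_X]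
      · rw [Function.comp_apply, Function.extend_apply' _ _ _ hi, Function.extend_apply' _ _ _ hi,
          Pi.zero_apply, map_zero, Pi.zero_apply]
    rw [e1, e2] at h1
    exact h1

end Pool.Agent.H78.LR
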