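import Pool.Agent.H78.LR.Step
import Pool.Agent.H78.LR.Dep
import Pool.Agent.H78.LR.IndA

/-!
# lr_mod IndB: the induction step

`good_step`: by `good_of` (with `ι0 = Fin m × Fin n`) let `f j` be forms in `Fin m × Fin n`. Let
`d j` be the degrees. `planes` gives `z` and `P j`. If for some `b` the vectors `x b = re`,
`y b = im` are dependent, `dep_exists` (`z b ≠ 0` gives `x b ≠ 0 ∨ y b ≠ 0`) and `dep` give the
nonzero zero `v0` placed in block `b` (for `f j = 0` nothing to show). Otherwise every `P j` is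
zero or homogeneous of degree `e` with `1 ≤ e ≤ D/2` (`d j` odd: zero; `d j = 2e`). `hm` with
`ι = Fin m` gives `w : Fin m → K`, `w ≠ 0`, `P j (w) = 0`. Write `w b = s b ^ 2 + t b ^ 2`
(`h2`). The vector `v (b,c) = 2 (s b x b c + t b y b c)` is a zero of all `f j` by `PlaneRel`, and
`v ≠ 0`: for `w b ≠ 0` we have `s b ≠ 0` or `t b ≠ 0` and `x b, y b` are independent, `2 ≠ 0`.
-/

namespace Pool.Agent.H78.LR

open MvPolynomial

theorem good_step {K : Type*} [Field K] [Algebra ℝ K] (hGL : Grow K) (h2 : TwoSq K)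
    {m n r D : ℕ} (hD : 1 ≤ D) (E : Finset (Fin m ⊕ Fin m →₀ ℕ))
    (hE1 : ∀ u ∈ E, ∃ b, u (Sum.inl b) ≠ u (Sum.inr b))
    (hE2 : ∀ u : Fin m ⊕ Fin m →₀ ℕ, u.degree ≤ D →
      (∃ b, u (Sum.inl b) ≠ u (Sum.inr b)) → u ∈ E ∨ u.mapDomain Sum.swap ∈ E)
    (hn : r * E.card * D < n) (hm : Good K r (D / 2) m) : Good K r D (m * n) := by
  have : CharZero K := charZero_of_injective_algebraMap (algebraMap ℝ K).injective
  have h20 : (2 : K) ≠ 0 := two_ne_zero
  have hcard : Fintype.card (Fin m × Fin n) = m * n := by simp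
  rw [← hcard]
  refine good_of (Fin m × Fin n) fun f hf => ?_
  have hd0 : ∀ j, ∃ e, 1 ≤ e ∧ e ≤ D ∧ (f j).IsHomogeneous e := fun j => by
    rcases hf j with h | h
    · refine ⟨1, le_rfl, hD, ?_⟩
      rw [h]
      exact isHomogeneous_zero _ _ _
    · exact h
  choose d hd using hd0
  obtain ⟨z, hz, hP0⟩ := planes hGL hD f d (fun j => Or.inr (hd j)) E hE1
    (fun u j hu hb => hE2 u (by rw [hu]; exact (hd j).2.1) hb) hn
  choose P hP using hP0
  by_cases hdep : ∃ b, ¬ LinearIndependent K ![fun c => (z b c).re, fun c => (z b c).im]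
  · obtain ⟨b, hb⟩ := hdep
    have h0 : (fun c => (z b c).re) ≠ 0 ∨ (fun c => (z b c).im) ≠ 0 := by
      by_contra hcon
      push Not at hcon
      apply hz b
      funext c
      exact QuadraticAlgebra.ext (congrFun hcon.1 c) (congrFun hcon.2 c)
    obtain ⟨v0, p, q, hv0, hpq, hx, hy⟩ := dep_exists h0 hb
    refine ⟨fun i => if i.1 = b then v0 i.2 else 0, fun hv => hv0 ?_, fun j => ?_⟩
    · funext c
      have := congrFun hv (b, c)
      simpa using this
    · exact dep (hd j).1 (hd j).2.2 z (P j) (hP j) b p q hpq v0 hx hy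
  · push Not at hdep
    obtain ⟨w, hw, hw0⟩ := hm (Fin m) (by simp) P (fun j => by
      obtain ⟨-, ho, he⟩ := hP j
      obtain ⟨h1, h3, -⟩ := hd j
      rcases Nat.even_or_odd (d j) with h | h
      · obtain ⟨e, he'⟩ := h
        right
        exact ⟨e, by omega, by omega, he e (by omega)⟩
      · exact Or.inl (ho h))
    choose s t hst using fun b => h2 (w b)
    refine ⟨fun i => 2 * (s i.1 * (z i.1 i.2).re + t i.1 * (z i.1 i.2).im), fun hv => hw ?_,
      fun j => ?_⟩
    · funext b
      have h3 : s b • (fun c => (z b c).re) + t b • (fun c => (z b c).im) = 0 := by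
        funext c
        have h4 := congrFun hv (b, c)
        have h5 : 2 * (s b * (z b c).re + t b * (z b c).im) = 0 := h4
        exact (mul_eq_zero.1 h5).resolve_left h20
      obtain ⟨h6, h7⟩ := LinearIndependent.pair_iff.1 (hdep b) _ _ h3
      rw [hst b, h6, h7]
      simp
    · rw [(hP j).1 s t]
      have h8 : (fun b => s b ^ 2 + t b ^ 2) = w := by
        funext b
        exact (hst b).symm
      rw [h8]
      exact hw0 j

end Pool.Agent.H78.LR
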