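import Pool.Agent.H78.LR.IndB
import Pool.Agent.H78.LR.ExE

/-!
# lr_mod IndC: the induction on the degree

`good_T`: strong induction on `D`: `D = 0`: all `f j = 0`, `x = 1` (`card ι ≥ 1`). `D ≥ 1`: unfold
`T`, `good_step` with the `E` of `exists_E`, `m = T r (D/2)`, `n = r (D+1)^(2m) D + 1`.
-/

namespace Pool.Agent.H78.LR

open MvPolynomial

theorem good_T {K : Type*} [Field K] [Algebra ℝ K] (hGL : Grow K) (h2 : TwoSq K) (r D : ℕ) :
    Good K r D (T r D) := by
  induction D using Nat.strong_induction_on with
  | _ D ih =>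
    rcases Nat.eq_zero_or_pos D with hD | hD
    · subst hD
      have hT : T r 0 = 1 := by
        rw [T]
        simp
      rw [hT]
      intro ι _ hι f hf
      have hne : Nonempty ι := Fintype.card_pos_iff.1 (by omega)
      refine ⟨fun _ => 1, ?_, ?_⟩
      · intro h
        obtain ⟨i⟩ := hne
        exact one_ne_zero (congrFun h i)
      · intro j
        rcases hf j with h | ⟨e, h1, h3, _⟩
        · rw [h, map_zero]
        · omega
    · have hlt : D / 2 < D := Nat.div_lt_self hD (by norm_num)
      have hm := ih (D / 2) hlt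
      have hT : T r D = T r (D / 2) * (r * (D + 1) ^ (2 * T r (D / 2)) * D + 1) := by
        rw [T]
        simp [Nat.pos_iff_ne_zero.1 hD]
      obtain ⟨E, hE1, hE2, hE3⟩ := exists_E (T r (D / 2)) D
      rw [hT]
      refine good_step hGL h2 hD E hE1 (fun u hu hb => Or.inl (hE2 u hu hb)) ?_ hm
      have h4 : r * E.card * D ≤ r * (D + 1) ^ (2 * T r (D / 2)) * D :=
        Nat.mul_le_mul_right D (Nat.mul_le_mul_left r hE3)
      omega

end Pool.Agent.H78.LR
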