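import Pool.Agent.H78.LR.Tern
import Pool.Agent.H78.LR.ExE4
import Pool.Agent.H78.LR.IndA

/-!
# lr_mod Quart: the explicit bound for quartic forms

`quart`. `good_of`-type reduction to `ι0 = Fin 3 × Fin 241` (`3 * 241 = 723`), `planes` with
`m = 3`, `n = 241`, `r = 1`, `D = 4` and `E` = the `60` exponents `u` of degree `4` with
`u ∘ inl < u ∘ inr` lexicographically (there are `126` exponents of degree `4` in `6` variables,
`6` of them have `u ∘ inl = u ∘ inr`): `60 * 4 = 240 < 241`. Then `P` is homogeneous of degree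
`2` in `3` variables: `tern`; conclude as in `good_step`.
-/

namespace Pool.Agent.H78.LR

open MvPolynomial

/-- the case of `Fin 3 × Fin 241` -/
private theorem quart0 {K : Type*} [Field K] [Algebra ℝ K] (hGL : Grow K) (h2 : TwoSq K)
    (f : MvPolynomial (Fin 3 × Fin 241) K) (hf : f.IsHomogeneous 4) :
    ∃ x : Fin 3 × Fin 241 → K, x ≠ 0 ∧ eval x f = 0 := by
  have : CharZero K := charZero_of_injective_algebraMap (algebraMap ℝ K).injective
  obtain ⟨E, hE1, hE2, hE3⟩ := exists_E4
  obtain ⟨z, hz, hP⟩ := planes hGL (m := 3) (n := 241) (r := 1) (D := 4) (by norm_num)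
    (fun _ => f) (fun _ => 4) (fun _ => Or.inr ⟨by norm_num, le_rfl, hf⟩) E hE1
    (fun u _ hu hb => hE2 u hu hb) (by rw [hE3]; norm_num)
  obtain ⟨P, hP⟩ := hP 0
  by_cases hdeg : ∃ b, ¬ LinearIndependent K
      ![(fun c => (z b c).re : Fin 241 → K), (fun c => (z b c).im : Fin 241 → K)]
  · obtain ⟨b, hb⟩ := hdeg
    have h0 : (fun c => (z b c).re : Fin 241 → K) ≠ 0 ∨
        (fun c => (z b c).im : Fin 241 → K) ≠ 0 := by
      by_contra hcon
      rw [not_or, not_not, not_not] at hcon
      apply hz b
      funext c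
      apply QuadraticAlgebra.ext
      · exact congrFun hcon.1 c
      · exact congrFun hcon.2 c
    obtain ⟨v0, p, q, hv0, hpq, hx, hy⟩ := dep_exists h0 hb
    refine ⟨_, ?_, dep (by norm_num) hf z P hP b p q hpq v0 hx hy⟩
    intro h
    apply hv0
    funext c
    have := congrFun h (b, c)
    simpa using this
  · have hind : ∀ b, LinearIndependent K
        ![(fun c => (z b c).re : Fin 241 → K), (fun c => (z b c).im : Fin 241 → K)] := by
      intro b
      by_contra hb
      exact hdeg ⟨b, hb⟩
    obtain ⟨w, hw, hPw⟩ := tern hGL h2 P (hP.2.2 2 rfl)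
    choose s t hst using fun b => h2 (w b)
    refine ⟨fun p => 2 * (s p.1 * (z p.1 p.2).re + t p.1 * (z p.1 p.2).im), ?_, ?_⟩
    · intro h
      apply hw
      funext b
      have h1 := (LinearIndependent.pair_iff.1 (hind b)) (s b) (t b) (by
        funext c
        have hc := congrFun h (b, c)
        have h3 := (mul_eq_zero.1 hc).resolve_left two_ne_zero
        simpa using h3)
      rw [hst b, h1.1, h1.2]
      simp
    · rw [hP.1 s t]
      have e1 : (fun b => s b ^ 2 + t b ^ 2) = w := by
        funext b
        exact (hst b).symm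
      rw [e1, hPw]

theorem quart {K : Type*} [Field K] [Algebra ℝ K] (hGL : Grow K) (h2 : TwoSq K)
    (ι : Type) [Fintype ι] (hι : 723 ≤ Fintype.card ι) (f : MvPolynomial ι K)
    (hf : f.IsHomogeneous 4) : ∃ x : ι → K, x ≠ 0 ∧ eval x f = 0 := by
  have hcard : Fintype.card (Fin 3 × Fin 241) ≤ Fintype.card ι := by
    rw [Fintype.card_prod, Fintype.card_fin, Fintype.card_fin]
    exact hι
  obtain ⟨g⟩ := Function.Embedding.nonempty_of_card_le hcard
  have hs : ∀ i, (Function.extend g
      (X : Fin 3 × Fin 241 → MvPolynomial (Fin 3 × Fin 241) K) 0 i).IsHomogeneous 1 := by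
    intro i
    by_cases hi : ∃ i0, g i0 = i
    · obtain ⟨i0, rfl⟩ := hi
      rw [g.injective.extend_apply]
      exact isHomogeneous_X _ _
    · rw [Function.extend_apply' _ _ _ hi]
      exact isHomogeneous_zero _ _ _
  obtain ⟨x0, hx0, hz⟩ := quart0 hGL h2
    (aeval (Function.extend g (X : Fin 3 × Fin 241 → MvPolynomial (Fin 3 × Fin 241) K) 0) f)
    (by
      have := hf.aeval _ hs
      rwa [one_mul] at this)
  refine ⟨Function.extend g x0 0, ?_, ?_⟩
  · intro h0
    apply hx0
    funext i0
    have := congrFun h0 (g i0)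
    rw [g.injective.extend_apply] at this
    exact this
  · have h1 := hz
    rw [aeval_def, eval₂_comp_left] at h1
    have e1 : (eval x0).comp (algebraMap K (MvPolynomial (Fin 3 × Fin 241) K)) =
        RingHom.id K := by
      ext a
      simp [algebraMap_eq]
    have e2 : ((eval x0) ∘ Function.extend g
        (X : Fin 3 × Fin 241 → MvPolynomial (Fin 3 × Fin 241) K) 0)
        = Function.extend g x0 0 := by
      funext i
      by_cases hi : ∃ i0, g i0 = i
      · obtain ⟨i0, rfl⟩ := hi
        rw [Function.comp_apply, g.injective.extend_apply, g.injective.extend_apply, eval_X]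
      · rw [Function.comp_apply, Function.extend_apply' _ _ _ hi, Function.extend_apply' _ _ _ hi,
          Pi.zero_apply, map_zero, Pi.zero_apply]
    rw [e1, e2] at h1
    exact h1

end Pool.Agent.H78.LR
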