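import Pool.Agent.H78.LR.TwoA

/-!
# lr_mod TwoB: every element is a sum of two squares

`nrm z = z.re^2 + z.im^2` is multiplicative and, when `-1` is not a square in `K`, `nrm z = 0` only
for `z = 0`.

`norm_principle`: let `z` be a nonzero solution from `conic` (`β = ⟨1, x⟩`). Put
`p = nrm (z 0) + b nrm (z 1)`, `q = 2 Re(z 0 * cj (z 1))`. Identity
`nrm (u^2 - b v^2) = p^2 - b q^2` (`ext`/`ring` in the four real coordinates). So
`p^2 - b q^2 = nrm ⟨1, x⟩ nrm (z 2)^2 = (1 + x^2) nrm (z 2)^2`. If `z 2 ≠ 0` divide by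
`nrm (z 2)^2`. If `z 2 = 0` then `z 0 ^ 2 = b z 1 ^ 2`, `z 1 ≠ 0` (else `z = 0`), and
`y = z 0 * cj (z 1)` satisfies `y^2 = b nrm (z 1)^2 ∈ K`, so `y.re * y.im = 0` and `b = a^2` or
`b = -a^2` with `a = y.re / nrm (z 1)` or `y.im / nrm (z 1)`. For `b = a^2` (`a ≠ 0`):
`p = (c+1)/2`, `q = (c-1)/(2a)`, `c = 1 + x^2`. For `b = -a^2`: `p = 1`, `q = x / a`.

`three_sq`: `b = 1 + x^2 + y^2`. If `b = 0` trivial. Otherwise `1 + x^2 = p^2 - b q^2`, so
`b (1 + q^2) = p^2 + y^2`, `1 + q^2 ≠ 0`, and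
`b = ((p + y q)^2 + (p q - y)^2) / (1 + q^2)^2`.

`two_of_grow`: if `-1 = j^2`: `a = ((a+1)/2)^2 + (j (a-1)/2)^2`. Otherwise by induction on
`IsSumSq` every sum of squares is a sum of two squares (`x^2 + (s^2 + t^2)`: for `x = 0` clear,
else `x^2 (1 + (s/x)^2 + (t/x)^2)`), and every `a = ((a+1)/2)^2 + (-1) ((a-1)/2)^2` is a sum of
squares (`-1 = s^2 + t^2`).
-/

namespace Pool.Agent.H78.LR

private theorem twob_nrm {K : Type*} [Field K] (hns : ∀ j : K, j ^ 2 ≠ -1) {a b : K}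
    (h : a ^ 2 + b ^ 2 = 0) : a = 0 ∧ b = 0 := by
  by_cases hb : b = 0
  · subst hb
    refine ⟨?_, rfl⟩
    have : a ^ 2 = 0 := by linear_combination h
    exact pow_eq_zero_iff two_ne_zero |>.1 this
  · exfalso
    apply hns (a / b)
    field_simp
    linear_combination h

theorem norm_principle {K : Type*} [Field K] [CharZero K] (hns : ∀ j : K, j ^ 2 ≠ -1)
    {b x : K} (hb : b ≠ 0) (z : Fin 3 → LL K) (hz0 : z ≠ 0)
    (hz : z 0 ^ 2 - kk K b * z 1 ^ 2 - (⟨1, x⟩ : LL K) * z 2 ^ 2 = 0) :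
    ∃ p q : K, 1 + x ^ 2 = p ^ 2 - b * q ^ 2 := by
  have hre := congrArg QuadraticAlgebra.re hz
  have him := congrArg QuadraticAlgebra.im hz
  simp only [pow_two, QuadraticAlgebra.re_sub, QuadraticAlgebra.im_sub, QuadraticAlgebra.re_mul,
    QuadraticAlgebra.im_mul, kk_re, kk_im, QuadraticAlgebra.re_zero,
    QuadraticAlgebra.im_zero] at hre him
  set a0 := (z 0).re with ha0
  set b0 := (z 0).im with hb0
  set a1 := (z 1).re with ha1
  set b1 := (z 1).im with hb1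
  set a2 := (z 2).re with ha2
  set b2 := (z 2).im with hb2
  have e1 : a0 ^ 2 - b0 ^ 2 - b * (a1 ^ 2 - b1 ^ 2) - (a2 ^ 2 - b2 ^ 2 - 2 * x * a2 * b2) = 0 := by
    linear_combination hre
  have e2 : 2 * a0 * b0 - 2 * b * a1 * b1 - (2 * a2 * b2 + x * (a2 ^ 2 - b2 ^ 2)) = 0 := by
    linear_combination him
  have h2 : (2 : K) ≠ 0 := two_ne_zero
  by_cases hN : a2 ^ 2 + b2 ^ 2 = 0
  · obtain ⟨h3, h4⟩ := twob_nrm hns hN
    rw [h3, h4] at e1 e2
    have f1 : a0 ^ 2 - b0 ^ 2 = b * (a1 ^ 2 - b1 ^ 2) := by linear_combination e1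
    have f2 : a0 * b0 = b * a1 * b1 := by
      apply mul_left_cancel₀ h2
      linear_combination e2
    have hN1 : a1 ^ 2 + b1 ^ 2 ≠ 0 := by
      intro h
      obtain ⟨h5, h6⟩ := twob_nrm hns h
      rw [h5, h6] at f1 f2
      have g : (a0 ^ 2 + b0 ^ 2) ^ 2 = 0 := by
        have g1 : a0 ^ 2 - b0 ^ 2 = 0 := by linear_combination f1
        have g2 : a0 * b0 = 0 := by linear_combination f2
        linear_combination (a0 ^ 2 - b0 ^ 2) * g1 + 4 * (a0 * b0) * g2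
      obtain ⟨h7, h8⟩ := twob_nrm hns (pow_eq_zero_iff two_ne_zero |>.1 g)
      apply hz0
      funext i
      fin_cases i
      · exact QuadraticAlgebra.ext h7 h8
      · exact QuadraticAlgebra.ext h5 h6
      · exact QuadraticAlgebra.ext h3 h4
    have g1 : (a0 * a1 + b0 * b1) ^ 2 - (b0 * a1 - a0 * b1) ^ 2 = b * (a1 ^ 2 + b1 ^ 2) ^ 2 := by
      linear_combination (a1 ^ 2 - b1 ^ 2) * f1 + 4 * a1 * b1 * f2
    have g2 : (a0 * a1 + b0 * b1) * (b0 * a1 - a0 * b1) = 0 := by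
      linear_combination (a1 ^ 2 - b1 ^ 2) * f2 - a1 * b1 * f1
    rcases mul_eq_zero.1 g2 with h5 | h5
    · rw [h5] at g1
      have h6 : b0 * a1 - a0 * b1 ≠ 0 := by
        intro h
        rw [h] at g1
        have : b * (a1 ^ 2 + b1 ^ 2) ^ 2 = 0 := by linear_combination -g1
        exact (mul_ne_zero hb (pow_ne_zero 2 hN1)) this
      refine ⟨1, x / ((b0 * a1 - a0 * b1) / (a1 ^ 2 + b1 ^ 2)), ?_⟩
      have hbv : b = -((b0 * a1 - a0 * b1) / (a1 ^ 2 + b1 ^ 2)) ^ 2 := by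
        rw [div_pow, eq_neg_iff_add_eq_zero, add_comm]
        rw [div_add' _ _ _ (pow_ne_zero 2 hN1), div_eq_zero_iff]
        left
        linear_combination -g1
      set a := (b0 * a1 - a0 * b1) / (a1 ^ 2 + b1 ^ 2) with hadef
      have ha : a ≠ 0 := div_ne_zero h6 hN1
      rw [hbv]
      field_simp
      ring
    · rw [h5] at g1
      have h6 : a0 * a1 + b0 * b1 ≠ 0 := by
        intro h
        rw [h] at g1
        have : b * (a1 ^ 2 + b1 ^ 2) ^ 2 = 0 := by linear_combination -g1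
        exact (mul_ne_zero hb (pow_ne_zero 2 hN1)) this
      have hbv : b = ((a0 * a1 + b0 * b1) / (a1 ^ 2 + b1 ^ 2)) ^ 2 := by
        rw [div_pow, eq_div_iff (pow_ne_zero 2 hN1)]
        linear_combination -g1
      set a := (a0 * a1 + b0 * b1) / (a1 ^ 2 + b1 ^ 2) with hadef
      have ha : a ≠ 0 := div_ne_zero h6 hN1
      refine ⟨(1 + x ^ 2 + 1) / 2, (1 + x ^ 2 - 1) / (2 * a), ?_⟩
      rw [hbv]
      field_simp
      ring
  · set N := a2 ^ 2 + b2 ^ 2 with hNdef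
    refine ⟨(a0 ^ 2 + b0 ^ 2 + b * (a1 ^ 2 + b1 ^ 2)) / N, 2 * (a0 * a1 + b0 * b1) / N, ?_⟩
    have key : (a0 ^ 2 + b0 ^ 2 + b * (a1 ^ 2 + b1 ^ 2)) ^ 2 - b * (2 * (a0 * a1 + b0 * b1)) ^ 2 =
        (1 + x ^ 2) * N ^ 2 := by
      have k1 : (a0 ^ 2 + b0 ^ 2 + b * (a1 ^ 2 + b1 ^ 2)) ^ 2 -
          b * (2 * (a0 * a1 + b0 * b1)) ^ 2 =
          (a0 ^ 2 - b0 ^ 2 - b * (a1 ^ 2 - b1 ^ 2)) ^ 2 + (2 * a0 * b0 - 2 * b * a1 * b1) ^ 2 := by
        ring
      have k2 : a0 ^ 2 - b0 ^ 2 - b * (a1 ^ 2 - b1 ^ 2) = a2 ^ 2 - b2 ^ 2 - 2 * x * a2 * b2 := by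
        linear_combination e1
      have k3 : 2 * a0 * b0 - 2 * b * a1 * b1 = 2 * a2 * b2 + x * (a2 ^ 2 - b2 ^ 2) := by
        linear_combination e2
      rw [k1, k2, k3, hNdef]
      ring
    rw [div_pow, div_pow, mul_div_assoc', ← sub_div, key, mul_div_assoc,
      div_self (pow_ne_zero 2 hN), mul_one]

private theorem twob_three {K : Type*} [Field K] [Algebra ℝ K] (hGL : Grow K)
    (hns : ∀ j : K, j ^ 2 ≠ -1) (x y : K) : ∃ s t : K, 1 + x ^ 2 + y ^ 2 = s ^ 2 + t ^ 2 := by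
  have : CharZero K := charZero_of_injective_algebraMap (algebraMap ℝ K).injective
  by_cases hb : 1 + x ^ 2 + y ^ 2 = 0
  · exact ⟨0, 0, by rw [hb]; ring⟩
  obtain ⟨z, hz0, hz⟩ := conic hGL (kk K (1 + x ^ 2 + y ^ 2)) (⟨1, x⟩ : LL K)
  obtain ⟨p, q, hpq⟩ := norm_principle hns hb z hz0 hz
  have hq : 1 + q ^ 2 ≠ 0 := by
    intro h
    exact hns q (by linear_combination h)
  refine ⟨(p + y * q) / (1 + q ^ 2), (p * q - y) / (1 + q ^ 2), ?_⟩
  rw [div_pow, div_pow, ← add_div, eq_div_iff (pow_ne_zero 2 hq)]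
  linear_combination (1 + q ^ 2) * hpq

private theorem twob_three' {K : Type*} [Field K] [Algebra ℝ K] (hGL : Grow K)
    (hns : ∀ j : K, j ^ 2 ≠ -1) (a u v : K) : ∃ s t : K, a ^ 2 + u ^ 2 + v ^ 2 = s ^ 2 + t ^ 2 := by
  by_cases ha : a = 0
  · exact ⟨u, v, by rw [ha]; ring⟩
  obtain ⟨s, t, hst⟩ := twob_three hGL hns (u / a) (v / a)
  refine ⟨a * s, a * t, ?_⟩
  field_simp at hst
  linear_combination hst

theorem two_of_grow {K : Type*} [Field K] [Algebra ℝ K] (hGL : Grow K)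
    (hs : IsSumSq (-1 : K)) : TwoSq K := by
  have : CharZero K := charZero_of_injective_algebraMap (algebraMap ℝ K).injective
  have h2 : (2 : K) ≠ 0 := two_ne_zero
  by_cases hns : ∀ j : K, j ^ 2 ≠ -1
  · have hsum : ∀ a : K, IsSumSq a → ∃ s t : K, a = s ^ 2 + t ^ 2 := by
      intro a ha
      induction ha with
      | zero => exact ⟨0, 0, by ring⟩
      | sq_add a _ ih =>
        obtain ⟨u, v, huv⟩ := ih
        obtain ⟨s, t, hst⟩ := twob_three' hGL hns a u v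
        exact ⟨s, t, by rw [← hst, huv]; ring⟩
    obtain ⟨s, t, hst⟩ := hsum _ hs
    intro a
    obtain ⟨u, v, huv⟩ := twob_three' hGL hns ((a + 1) / 2) (s * ((a - 1) / 2)) (t * ((a - 1) / 2))
    refine ⟨u, v, ?_⟩
    rw [← huv]
    have e : ((a + 1) / 2) ^ 2 + (s * ((a - 1) / 2)) ^ 2 + (t * ((a - 1) / 2)) ^ 2 =
        ((a + 1) / 2) ^ 2 + (s ^ 2 + t ^ 2) * ((a - 1) / 2) ^ 2 := by ring
    rw [e, ← hst]
    field_simp
    ring
  · push Not at hns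
    obtain ⟨j, hj⟩ := hns
    intro a
    refine ⟨(a + 1) / 2, j * ((a - 1) / 2), ?_⟩
    rw [mul_pow, hj]
    field_simp
    ring

end Pool.Agent.H78.LR
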