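import Pool.Agent.H78.LR.IndC
import Pool.Agent.H78.LR.TwoB
import Pool.Agent.H78.LR.GrD
import Pool.Agent.H78.LR.Quart

/-!
# MP_3d4eef_ag: the weak Lang conjecture for curves, all degrees
-/

namespace Pool.Agent.H78.LR

open MvPolynomial

theorem weak_lang_curves {K : Type*} [Field K] [Algebra ℝ K] (htr : Algebra.trdeg ℝ K ≤ 1)
    (hs : IsSumSq (-1 : K)) :
    (∀ r d n : ℕ, T r d ≤ n → ∀ f : Fin r → MvPolynomial (Fin n) K,
      (∀ j, ∃ e, 1 ≤ e ∧ e ≤ d ∧ (f j).IsHomogeneous e) →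
      ∃ x : Fin n → K, x ≠ 0 ∧ ∀ j, eval x (f j) = 0) ∧
    (∀ n : ℕ, 723 ≤ n → ∀ f : MvPolynomial (Fin n) K, f.IsHomogeneous 4 →
      ∃ x : Fin n → K, x ≠ 0 ∧ eval x f = 0) := by
  have hGL := grow_of_trdeg htr
  have h2 := two_of_grow hGL hs
  refine ⟨fun r d n hn f hf => ?_, fun n hn f hf => ?_⟩
  · exact good_T hGL h2 r d (Fin n) (by simpa using hn) f (fun j => Or.inr (hf j))
  · exact quart hGL h2 (Fin n) (by simpa using hn) f hf

end Pool.Agent.H78.LR
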