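import Pool.Agent.H78.LR.Defs

/-!
# lr_mod PlA: the coefficients of `FF`: rotation and conjugation

`coeff_rescale`: for monomials it is clear, extend by linearity (`MvPolynomial.induction_on`, or
write `p = ∑ monomial`).

`FF_rot`: `FF f (l z) = aeval (fun i => C (a i) * X i) (FF f z)` with `a (inl b) = cc (l b)`,
`a (inr b) = cc (conj (l b))` (both sides are images of `f` under ring homomorphisms which agree on
constants and variables; `cj (cc l * z) = cc (conj l) * cj z`). Then `coeff_rescale`,
`Fintype.prod_sum_type`, and `conj (l b) = (l b)⁻¹` as `‖l b‖ = 1`: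
`l^(u inl) (l⁻¹)^(u inr) = l^(u inl - u inr)`.

`FF_cj`: `rename Sum.swap (map (cj K) (FF f z)) = FF f z` (again ring homomorphisms which agree on
constants and variables), compare coefficients.

`FF_homog`: `f = ∑` of monomials of degree `d`; `eval₂` of a monomial is a constant times a product
of `d` forms of degree one (`IsHomogeneous.prod`, `.pow`, `.sum`; or
`MvPolynomial.IsHomogeneous.eval₂`/`aeval` if present).
-/

namespace Pool.Agent.H78.LR

open MvPolynomial

theorem coeff_rescale {R σ : Type*} [CommRing R] [Fintype σ] (a : σ → R) (p : MvPolynomial σ R)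
    (u : σ →₀ ℕ) :
    coeff u (aeval (fun i => C (a i) * X i) p : MvPolynomial σ R) =
      (∏ i, a i ^ u i) * coeff u p := by
  classical
  induction p using MvPolynomial.induction_on' with
  | monomial s r =>
    have h1 : (aeval (fun i => C (a i) * X i) (monomial s r) : MvPolynomial σ R)
        = monomial s (r * ∏ i, a i ^ s i) := by
      rw [aeval_monomial, Finsupp.prod_fintype _ _ (fun i => pow_zero _), algebraMap_eq]
      simp only [mul_pow]
      rw [Finset.prod_mul_distrib, monomial_eq, Finsupp.prod_fintype _ _ (fun i => pow_zero _),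
        C_mul, map_prod]
      simp only [C_pow]
      ring
    rw [h1, coeff_monomial, coeff_monomial]
    by_cases hs : s = u
    · rw [if_pos hs, if_pos hs, hs, mul_comm]
    · rw [if_neg hs, if_neg hs, mul_zero]
  | add p q hp hq =>
    rw [map_add, coeff_add, coeff_add, hp, hq, mul_add]

variable {K : Type*} [Field K] {m n : ℕ}

private theorem PlA_comp (F : MvPolynomial (Fin m ⊕ Fin m) (LL K) →+*
      MvPolynomial (Fin m ⊕ Fin m) (LL K)) (f : MvPolynomial (Fin m × Fin n) K)
    (z z' : Fin m → Fin n → LL K) (h1 : ∀ a : K, F (C (kk K a)) = C (kk K a))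
    (h2 : ∀ b c, F (C (z b c) * X (Sum.inl b) + C (cj K (z b c)) * X (Sum.inr b)) =
      C (z' b c) * X (Sum.inl b) + C (cj K (z' b c)) * X (Sum.inr b)) :
    F (FF f z) = FF f z' := by
  unfold FF
  rw [eval₂_comp_left]
  have e1 : F.comp (C.comp (kk K)) = C.comp (kk K) := by
    ext1 a
    exact h1 a
  have e2 : (F ∘ fun p : Fin m × Fin n => C (z p.1 p.2) * X (Sum.inl p.1) +
      C (cj K (z p.1 p.2)) * X (Sum.inr p.1)) = fun p : Fin m × Fin n =>
      C (z' p.1 p.2) * X (Sum.inl p.1) + C (cj K (z' p.1 p.2)) * X (Sum.inr p.1) := by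
    funext p
    exact h2 p.1 p.2
  rw [e1, e2]

theorem coeff_FF_rot [Algebra ℝ K] (f : MvPolynomial (Fin m × Fin n) K)
    (z : Fin m → Fin n → LL K) (l : Fin m → ℂ) (hl : ∀ b, ‖l b‖ = 1)
    (u : Fin m ⊕ Fin m →₀ ℕ) :
    coeff u (FF f (fun b c => cc K (l b) * z b c)) =
      cc K (∏ b, l b ^ ((u (Sum.inl b) : ℤ) - u (Sum.inr b))) * coeff u (FF f z) := by
  have h1 := PlA_comp (aeval (fun i : Fin m ⊕ Fin m => C (Sum.elim (fun b => cc K (l b))
      (fun b => cc K ((starRingEnd ℂ) (l b))) i) * X i) :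
      MvPolynomial (Fin m ⊕ Fin m) (LL K) →ₐ[LL K] MvPolynomial (Fin m ⊕ Fin m) (LL K)).toRingHom
    f z (fun b c => cc K (l b) * z b c) ?_ ?_
  · rw [← h1]
    have h2 := coeff_rescale (Sum.elim (fun b => cc K (l b))
      (fun b => cc K ((starRingEnd ℂ) (l b)))) (FF f z) u
    refine h2.trans ?_
    congr 1
    rw [Fintype.prod_sum_type]
    simp only [Sum.elim_inl, Sum.elim_inr]
    simp only [← map_pow, ← map_prod, ← map_mul]
    congr 1
    simp only [map_prod, map_pow]
    rw [← Finset.prod_mul_distrib]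
    refine Finset.prod_congr rfl fun b _ => ?_
    have hb : l b ≠ 0 := by
      intro h0
      have := hl b
      rw [h0, norm_zero] at this
      exact zero_ne_one this
    have hc : (starRingEnd ℂ) (l b) = (l b)⁻¹ := by
      rw [Complex.inv_def, Complex.normSq_eq_norm_sq, hl b]
      simp
    rw [hc, zpow_sub₀ hb, zpow_natCast, zpow_natCast, inv_pow, div_eq_mul_inv]
  · intro a
    change (aeval _ (C (kk K a)) : MvPolynomial (Fin m ⊕ Fin m) (LL K)) = _
    rw [aeval_C, algebraMap_eq]
  · intro b c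
    change (aeval _ _ : MvPolynomial (Fin m ⊕ Fin m) (LL K)) = _
    rw [map_add, map_mul, map_mul, aeval_C, aeval_C, aeval_X, aeval_X, algebraMap_eq]
    simp only [Sum.elim_inl, Sum.elim_inr, map_mul, cj_cc]
    ring

theorem coeff_FF_cj (f : MvPolynomial (Fin m × Fin n) K) (z : Fin m → Fin n → LL K)
    (u : Fin m ⊕ Fin m →₀ ℕ) :
    coeff (u.mapDomain Sum.swap) (FF f z) = cj K (coeff u (FF f z)) := by
  have h1 := PlA_comp ((rename Sum.swap : MvPolynomial (Fin m ⊕ Fin m) (LL K) →ₐ[LL K]
      MvPolynomial (Fin m ⊕ Fin m) (LL K)).toRingHom.comp (map (cj K))) f z z ?_ ?_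
  · have h2 : coeff (u.mapDomain Sum.swap) (rename Sum.swap (map (cj K) (FF f z)))
        = coeff u (map (cj K) (FF f z)) :=
      coeff_rename_mapDomain Sum.swap Sum.swap_leftInverse.injective _ _
    rw [coeff_map] at h2
    rw [← h2]
    congr 1
    exact h1.symm
  · intro a
    change rename Sum.swap (map (cj K) (C (kk K a))) = _
    rw [map_C, rename_C, cj_kk]
  · intro b c
    change rename Sum.swap (map (cj K) _) = _
    simp only [map_add, map_mul, map_C, map_X, rename_C, rename_X, Sum.swap_inl, Sum.swap_inr,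
      cj_cj]
    ring

theorem FF_homog {f : MvPolynomial (Fin m × Fin n) K} {d : ℕ} (hf : f.IsHomogeneous d)
    (z : Fin m → Fin n → LL K) : (FF f z).IsHomogeneous d := by
  have h := hf.eval₂ (C.comp (kk K) : K →+* MvPolynomial (Fin m ⊕ Fin m) (LL K))
    (fun p : Fin m × Fin n => C (z p.1 p.2) * X (Sum.inl p.1) +
      C (cj K (z p.1 p.2)) * X (Sum.inr p.1)) (n := 1) ?_ ?_
  · rw [one_mul] at h
    exact h
  · intro r
    exact isHomogeneous_C _ _
  · intro p
    have e1 : (C (z p.1 p.2) * X (Sum.inl p.1) :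
        MvPolynomial (Fin m ⊕ Fin m) (LL K)).IsHomogeneous 1 :=
      isHomogeneous_C_mul_X _ _
    have e2 : (C (cj K (z p.1 p.2)) * X (Sum.inr p.1) :
        MvPolynomial (Fin m ⊕ Fin m) (LL K)).IsHomogeneous 1 :=
      isHomogeneous_C_mul_X _ _
    exact e1.add e2

end Pool.Agent.H78.LR
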