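import Pool.Agent.H78.LR.CFa

/-!
# lr_mod PlB: the coefficients of `FF` are in the class `CF`

Proof. Call `Φ : Z → MvPolynomial σ (LL K)` of class `S` (`CFP S Φ`) if all coefficients are
`CF S`. Closure: sums; products (`coeff_mul`, finite sum over the antidiagonal, `CF.mul`,
`CF.sum`): `S * S'`; products of `N` factors of class `Ω`: class `Ω ^ N`; monotone in `S`.
`FF f z = ∑_{v ∈ f.support} C (kk (coeff v f)) * ∏_{p} (lin_p)^(v p)` (`eval₂_eq'`), where
`lin_p = C (z p) * X (inl p.1) + C (cj (z p)) * X (inr p.1)` is of class `Ω` for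
`z p = ∑_l cc (z' p.1 (p.2, l)) * kk (ω l)` (`CF.coord`, `CF.sum`, `CF.cj`; the coordinate function
is continuous). The constant is of class `span C`, so the `v`-th term is of class
`span C * Ω ^ |v|`, `|v| = d ≤ D`, and `Ω ^ d ≤ Ω ^ D` since `1 ∈ Ω`.
-/

namespace Pool.Agent.H78.LR

open MvPolynomial

variable {K : Type*} [Field K] [Algebra ℝ K]

/-- all coefficients are in the class `CF S` -/
def CFP {Z : Type} [TopologicalSpace Z] {σ : Type} (S : Submodule ℝ K)
    (Φ : Z → MvPolynomial σ (LL K)) : Prop :=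
  ∀ u, CF S (fun z => coeff u (Φ z))

theorem CFP.mul {Z : Type} [TopologicalSpace Z] {σ : Type} {S S' : Submodule ℝ K}
    {Φ Ψ : Z → MvPolynomial σ (LL K)} (h : CFP S Φ) (h' : CFP S' Ψ) :
    CFP (S * S') (fun z => Φ z * Ψ z) := by
  classical
  intro u
  have h1 : (fun z => coeff u (Φ z * Ψ z)) = fun z =>
      ∑ x ∈ Finset.HasAntidiagonal.antidiagonal u, coeff x.1 (Φ z) * coeff x.2 (Ψ z) := by
    funext z
    rw [coeff_mul]
  rw [h1]
  exact CF.sum _ (φ := fun (x : (σ →₀ ℕ) × (σ →₀ ℕ)) z => coeff x.1 (Φ z) * coeff x.2 (Ψ z))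
    fun x _ => CF.mul (h x.1) (h' x.2)

theorem CFP.one {Z : Type} [TopologicalSpace Z] {σ : Type} :
    CFP (Z := Z) (σ := σ) (1 : Submodule ℝ K) (fun _ => 1) := by
  classical
  intro u
  by_cases hu : u = 0
  · have h1 : (fun _ : Z => coeff u (1 : MvPolynomial σ (LL K))) = fun _ => kk K 1 := by
      funext z
      rw [hu, coeff_zero_one, map_one]
    rw [h1]
    exact CF.const (Submodule.one_le.1 le_rfl)
  · have h1 : (fun _ : Z => coeff u (1 : MvPolynomial σ (LL K))) = fun _ => 0 := by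
      funext z
      rw [coeff_one, if_neg (fun h => hu h.symm)]
    rw [h1]
    exact CF.zero _

theorem CFP.pow {Z : Type} [TopologicalSpace Z] {σ : Type} {Ω : Submodule ℝ K}
    {Φ : Z → MvPolynomial σ (LL K)} (h : CFP Ω Φ) (k : ℕ) :
    CFP (Ω ^ k) (fun z => Φ z ^ k) := by
  induction k with
  | zero =>
    simp only [pow_zero]
    exact CFP.one
  | succ k ih =>
    simp only [pow_succ]
    exact CFP.mul ih h

theorem CFP.finset_prod {Z : Type} [TopologicalSpace Z] {σ : Type} {Ω : Submodule ℝ K}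
    {ι : Type*} (t : Finset ι) {Φ : ι → Z → MvPolynomial σ (LL K)} (v : ι → ℕ)
    (h : ∀ i ∈ t, CFP Ω (Φ i)) :
    CFP (Ω ^ (∑ i ∈ t, v i)) (fun z => ∏ i ∈ t, Φ i z ^ v i) := by
  classical
  induction t using Finset.induction_on with
  | empty =>
    simp only [Finset.sum_empty, pow_zero, Finset.prod_empty]
    exact CFP.one
  | insert i t hi ih =>
    simp only [Finset.sum_insert hi, Finset.prod_insert hi, pow_add]
    exact CFP.mul (CFP.pow (h i (Finset.mem_insert_self i t)) (v i))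
      (ih fun j hj => h j (Finset.mem_insert_of_mem hj))

theorem CFP.sum {Z : Type} [TopologicalSpace Z] {σ : Type} {S : Submodule ℝ K}
    {ι : Type*} (t : Finset ι) {Φ : ι → Z → MvPolynomial σ (LL K)}
    (h : ∀ i ∈ t, CFP S (Φ i)) : CFP S (fun z => ∑ i ∈ t, Φ i z) := by
  intro u
  have h1 : (fun z => coeff u (∑ i ∈ t, Φ i z)) = fun z => ∑ i ∈ t, coeff u (Φ i z) := by
    funext z
    rw [coeff_sum]
  rw [h1]
  exact CF.sum t (φ := fun i z => coeff u (Φ i z)) fun i hi => h i hi u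

theorem CFP.mono {Z : Type} [TopologicalSpace Z] {σ : Type} {S S' : Submodule ℝ K}
    (hS : S ≤ S') {Φ : Z → MvPolynomial σ (LL K)} (h : CFP S Φ) : CFP S' Φ :=
  fun u => CF.mono hS (h u)

theorem CFP.C {Z : Type} [TopologicalSpace Z] {σ : Type} {S : Submodule ℝ K}
    {φ : Z → LL K} (h : CF S φ) : CFP (σ := σ) S (fun z => MvPolynomial.C (φ z)) := by
  classical
  intro u
  by_cases hu : u = 0
  · have h1 : (fun z : Z => coeff u (MvPolynomial.C (φ z) : MvPolynomial σ (LL K))) = φ := by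
      funext z
      rw [hu, coeff_zero_C]
    rw [h1]
    exact h
  · have h1 : (fun z : Z => coeff u (MvPolynomial.C (φ z) : MvPolynomial σ (LL K))) =
        fun _ => 0 := by
      funext z
      rw [coeff_C, if_neg (fun h => hu h.symm)]
    rw [h1]
    exact CF.zero _

theorem CFP.C_mul_X {Z : Type} [TopologicalSpace Z] {σ : Type} {S : Submodule ℝ K}
    {φ : Z → LL K} (h : CF S φ) (i : σ) :
    CFP (σ := σ) S (fun z => MvPolynomial.C (φ z) * MvPolynomial.X i) := by
  classical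
  intro u
  by_cases hu : Finsupp.single i 1 = u
  · have h1 : (fun z : Z => coeff u (MvPolynomial.C (φ z) * MvPolynomial.X i :
        MvPolynomial σ (LL K))) = φ := by
      funext z
      rw [coeff_C_mul, coeff_X, if_pos hu, mul_one]
    rw [h1]
    exact h
  · have h1 : (fun z : Z => coeff u (MvPolynomial.C (φ z) * MvPolynomial.X i :
        MvPolynomial σ (LL K))) = fun _ => 0 := by
      funext z
      rw [coeff_C_mul, coeff_X, if_neg hu, mul_zero]
    rw [h1]
    exact CF.zero _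

theorem CFP.add {Z : Type} [TopologicalSpace Z] {σ : Type} {S : Submodule ℝ K}
    {Φ Ψ : Z → MvPolynomial σ (LL K)} (h : CFP S Φ) (h' : CFP S Ψ) :
    CFP S (fun z => Φ z + Ψ z) := by
  intro u
  have h1 : (fun z => coeff u (Φ z + Ψ z)) = fun z => coeff u (Φ z) + coeff u (Ψ z) := by
    funext z
    rw [coeff_add]
  rw [h1]
  exact CF.add (h u) (h' u)

theorem CF_coeff_FF {m n d D e : ℕ} {f : MvPolynomial (Fin m × Fin n) K}
    (hf : f.IsHomogeneous d) (hd : d ≤ D) (C : Finset K)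
    (hC : ∀ v, coeff v f ∈ Submodule.span ℝ (C : Set K))
    (Ω : Submodule ℝ K) (ω : Fin e → K) (h1 : (1 : K) ∈ Ω) (hω : ∀ l, ω l ∈ Ω)
    (u : Fin m ⊕ Fin m →₀ ℕ) :
    CF (Submodule.span ℝ (C : Set K) * Ω ^ D) (fun z : Fin m → (Fin n × Fin e) → ℂ =>
      coeff u (FF f (fun b c => ∑ l, cc K (z b (c, l)) * kk K (ω l)))) := by
  classical
  have hcoord : ∀ p : Fin m × Fin n, CF Ω (fun z : Fin m → (Fin n × Fin e) → ℂ =>
      ∑ l, cc K (z p.1 (p.2, l)) * kk K (ω l)) := by
    intro p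
    apply CF.sum Finset.univ (φ := fun l (z : Fin m → (Fin n × Fin e) → ℂ) =>
      cc K (z p.1 (p.2, l)) * kk K (ω l))
    intro l _
    exact CF.coord (by fun_prop) (hω l)
  have hlin : ∀ p : Fin m × Fin n, CFP Ω (fun z : Fin m → (Fin n × Fin e) → ℂ =>
      MvPolynomial.C (∑ l, cc K (z p.1 (p.2, l)) * kk K (ω l)) * MvPolynomial.X (Sum.inl p.1) +
      MvPolynomial.C (cj K (∑ l, cc K (z p.1 (p.2, l)) * kk K (ω l))) *
        (MvPolynomial.X (Sum.inr p.1) : MvPolynomial (Fin m ⊕ Fin m) (LL K))) :=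
    fun p => CFP.add (CFP.C_mul_X (hcoord p) _) (CFP.C_mul_X (CF.cj (hcoord p)) _)
  have hpow : ∀ k, Ω ^ k ≤ Ω ^ (k + 1) := by
    intro k
    rw [pow_succ]
    intro x hx
    have := Submodule.mul_mem_mul hx h1
    rwa [mul_one] at this
  have hmono : Ω ^ d ≤ Ω ^ D := monotone_nat_of_le_succ hpow hd
  have key : CFP (Submodule.span ℝ (C : Set K) * Ω ^ D)
      (fun z : Fin m → (Fin n × Fin e) → ℂ =>
        ∑ v ∈ f.support, MvPolynomial.C (kk K (coeff v f)) *
          ∏ p ∈ Finset.univ, (MvPolynomial.C (∑ l, cc K (z p.1 (p.2, l)) * kk K (ω l)) *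
            MvPolynomial.X (Sum.inl p.1) +
            MvPolynomial.C (cj K (∑ l, cc K (z p.1 (p.2, l)) * kk K (ω l))) *
        (MvPolynomial.X (Sum.inr p.1) : MvPolynomial (Fin m ⊕ Fin m) (LL K))) ^ v p) := by
    apply CFP.sum
    intro v hv
    have hdeg : ∑ p, v p = d := by
      have := hf (mem_support_iff.1 hv)
      rw [← this, Finsupp.weight_apply, Finsupp.sum_fintype]
      · simp
      · simp
    have h2 := CFP.finset_prod Finset.univ v (fun p _ => hlin p)
    rw [hdeg] at h2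
    exact CFP.mono (mul_le_mul' le_rfl hmono) (CFP.mul (CFP.C (CF.const (hC v))) h2)
  have hexp : ∀ z : Fin m → (Fin n × Fin e) → ℂ,
      FF f (fun b c => ∑ l, cc K (z b (c, l)) * kk K (ω l)) =
        ∑ v ∈ f.support, MvPolynomial.C (kk K (coeff v f)) *
          ∏ p ∈ Finset.univ, (MvPolynomial.C (∑ l, cc K (z p.1 (p.2, l)) * kk K (ω l)) *
            MvPolynomial.X (Sum.inl p.1) +
            MvPolynomial.C (cj K (∑ l, cc K (z p.1 (p.2, l)) * kk K (ω l))) *
        (MvPolynomial.X (Sum.inr p.1) : MvPolynomial (Fin m ⊕ Fin m) (LL K))) ^ v p := by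
    intro z
    unfold FF
    rw [eval₂_eq']
    rfl
  simp only [hexp]
  exact key u

end Pool.Agent.H78.LR
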