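import Pool.Agent.H78.LR.PlA

/-!
# lr_mod PlC: restriction to the planes

Proof of `plane`. For `u` with `u (inl b) = u (inr b)` for all `b` write `u = dbl α`,
`α b = u (inl b)`. Put `P = ∑_{u ∈ (FF f z).support} monomial α_u ((coeff u (FF f z)).re)`.

Evaluate `FF f z` at `inl b ↦ τ_b = ⟨s b, -t b⟩`, `inr b ↦ cj τ_b = ⟨s b, t b⟩`. The definition
gives `eval₂ (kk) (fun p => τ z + cj (τ z)) f`, and `τ z + cj (τ z) = kk (2 (s z.re + t z.im))`, so
the value is `kk (eval (2 (s re + t im)) f)`. On the other hand, expanding `FF f z` in monomials,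
only `u = dbl α` contribute and `∏_b τ_b^(α b) (cj τ_b)^(α b) = kk (∏ (s b^2 + t b^2)^(α b))`
(`τ * cj τ = kk (s^2 + t^2)`). Take real parts (`(x * kk y).re = x.re * y`).
Degrees: `FF f z` is homogeneous of degree `d` (`FF_homog`), a nonzero coefficient at `dbl α` gives
`2 ∑ α = d`: for odd `d` the support is empty, for `d = 2 e` all `α` have degree `e`.
-/

namespace Pool.Agent.H78.LR

open MvPolynomial

/-- the relation between `f` and `P` given by the planes spanned by `x b = (z b).re`,
`y b = (z b).im` -/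
def PlaneRel {K : Type*} [Field K] {m n : ℕ} (d : ℕ) (f : MvPolynomial (Fin m × Fin n) K)
    (z : Fin m → Fin n → LL K) (P : MvPolynomial (Fin m) K) : Prop :=
  (∀ s t : Fin m → K, eval (fun p => 2 * (s p.1 * (z p.1 p.2).re + t p.1 * (z p.1 p.2).im)) f =
    eval (fun b => s b ^ 2 + t b ^ 2) P) ∧
  (Odd d → P = 0) ∧ ∀ e, d = 2 * e → P.IsHomogeneous e

private theorem re_finsum {K : Type*} [Field K] {ι : Type*} (S : Finset ι) (φ : ι → LL K) :
    (∑ i ∈ S, φ i).re = ∑ i ∈ S, (φ i).re := by
  classical
  induction S using Finset.induction_on with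
  | empty => rfl
  | insert a S ha ih =>
    rw [Finset.sum_insert ha, Finset.sum_insert ha, ← ih]
    rfl

theorem plane {K : Type*} [Field K] {m n d : ℕ} {f : MvPolynomial (Fin m × Fin n) K}
    (hf : f.IsHomogeneous d) (z : Fin m → Fin n → LL K)
    (h0 : ∀ u : Fin m ⊕ Fin m →₀ ℕ, (∃ b, u (Sum.inl b) ≠ u (Sum.inr b)) →
      coeff u (FF f z) = 0) :
    ∃ P : MvPolynomial (Fin m) K, PlaneRel d f z P := by
  classical
  have hsym : ∀ u ∈ (FF f z).support, ∀ b, u (Sum.inl b) = u (Sum.inr b) := by
    intro u hu b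
    by_contra hne
    exact (mem_support_iff.1 hu) (h0 u ⟨b, hne⟩)
  have hdeg : ∀ u ∈ (FF f z).support, 2 * ∑ b, u (Sum.inl b) = d := by
    intro u hu
    have h1 := FF_homog hf z (mem_support_iff.1 hu)
    rw [Finsupp.weight_apply, Finsupp.sum_fintype _ _ (fun _ => by simp),
      Fintype.sum_sum_type] at h1
    simp only [Pi.one_apply, smul_eq_mul, mul_one] at h1
    rw [← h1, two_mul]
    congr 1
    exact Finset.sum_congr rfl fun b _ => hsym u hu b
  refine ⟨∑ u ∈ (FF f z).support, monomial (Finsupp.equivFunOnFinite.symm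
    (fun b => u (Sum.inl b))) ((coeff u (FF f z)).re), ?_, ?_, ?_⟩
  · intro s t
    have e1 : eval (Sum.elim (fun b => (⟨s b, -t b⟩ : LL K)) (fun b => cj K ⟨s b, -t b⟩))
        (FF f z) =
        kk K (eval (fun p => 2 * (s p.1 * (z p.1 p.2).re + t p.1 * (z p.1 p.2).im)) f) := by
      unfold FF
      rw [eval₂_comp_left]
      have e3 : kk K (eval (fun p => 2 * (s p.1 * (z p.1 p.2).re + t p.1 * (z p.1 p.2).im)) f) =
          eval₂ ((kk K).comp (RingHom.id K)) (kk K ∘ fun p : Fin m × Fin n =>
            2 * (s p.1 * (z p.1 p.2).re + t p.1 * (z p.1 p.2).im)) f :=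
        eval₂_comp_left (kk K) (RingHom.id K) _ f
      rw [e3]
      congr 1
      · ext1 a
        change eval _ (C (kk K a)) = kk K a
        rw [eval_C]
      · funext p
        simp only [Function.comp_apply, map_add, map_mul, eval_C, eval_X, Sum.elim_inl,
          Sum.elim_inr]
        ext
        · simp [QuadraticAlgebra.re_mul]
          ring
        · simp [QuadraticAlgebra.im_mul]
          ring
    have e2 := congrArg QuadraticAlgebra.re e1
    rw [kk_re] at e2
    rw [← e2, eval_eq', re_finsum, map_sum]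
    refine Finset.sum_congr rfl fun u hu => ?_
    rw [eval_monomial, Finsupp.prod_fintype _ _ (fun i => pow_zero _)]
    simp only [Finsupp.equivFunOnFinite_symm_apply_apply]
    have e4 : (∏ i, (Sum.elim (fun b => (⟨s b, -t b⟩ : LL K))
        (fun b => cj K ⟨s b, -t b⟩) i) ^ u i) =
        kk K (∏ b, (s b ^ 2 + t b ^ 2) ^ u (Sum.inl b)) := by
      rw [Fintype.prod_sum_type, ← Finset.prod_mul_distrib, map_prod]
      refine Finset.prod_congr rfl fun b _ => ?_
      rw [← hsym u hu b, ← mul_pow, map_pow]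
      congr 1
      simp only [Sum.elim_inl, Sum.elim_inr]
      ext
      · simp only [QuadraticAlgebra.re_mul, kk_re, cj_re, cj_im]
        ring
      · simp only [QuadraticAlgebra.im_mul, kk_im, cj_re, cj_im]
        ring
    rw [e4, QuadraticAlgebra.re_mul, kk_re, kk_im]
    ring
  · intro hd
    apply Finset.sum_eq_zero
    intro u hu
    have := hdeg u hu
    obtain ⟨k, hk⟩ := hd
    omega
  · intro e he
    apply IsHomogeneous.sum
    intro u hu
    apply isHomogeneous_monomial
    have := hdeg u hu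
    rw [Finsupp.degree_eq_sum]
    simp only [Finsupp.equivFunOnFinite_symm_apply_apply]
    omega

end Pool.Agent.H78.LR
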