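import Pool.Agent.H78.LR.Eng2
import Pool.Agent.H73.Avr.Label

/-!
# The configuration space, the action and the homotopies

`XX m A` = `m`-tuples of nonzero vectors of `ℂ^A`; the generator of `ℤ/q` acts on the `b`-th vector
by `ζ^(c b)`; step `k` of the resolution moves every vector on a straight line to the vector
`pp q c k b`, a multiple of the basis vector number `(k+1)/2`.
-/

namespace Pool.Agent.H78.LR

open Pool.Agent.H73.Avr

/-- `m`-tuples of vectors -/
abbrev V (m A : ℕ) : Type := Fin m → Fin A → ℂ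

/-- `m`-tuples of nonzero vectors -/
abbrev XX (m A : ℕ) : Type := {z : V m A // ∀ b, z b ≠ 0}

theorem zt_pow_ne (q k : ℕ) : zt q ^ k ≠ 0 := by
  apply pow_ne_zero
  intro h
  have := norm_zt q
  rw [h, norm_zero] at this
  exact zero_ne_one this

/-- the generator of `ℤ/q` -/
noncomputable def gq {m A : ℕ} (q : ℕ) (c : Fin m → ℕ) (z : XX m A) : XX m A :=
  ⟨fun b a => zt q ^ c b * z.1 b a, fun b h => z.2 b (by
    funext a
    have := congrFun h a
    exact (mul_eq_zero.1 this).resolve_left (zt_pow_ne q (c b)))⟩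

theorem gq_iter {m A : ℕ} (q : ℕ) (c : Fin m → ℕ) (s : ℕ) (z : XX m A) (b : Fin m) (a : Fin A) :
    ((gq q c)^[s] z).1 b a = (zt q ^ c b) ^ s * z.1 b a := by
  induction s with
  | zero => simp
  | succ s ih =>
    rw [Function.iterate_succ_apply']
    show zt q ^ c b * ((gq q c)^[s] z).1 b a = _
    rw [ih, pow_succ]; ring

theorem gq_q {m A : ℕ} {q : ℕ} (hq : 0 < q) (c : Fin m → ℕ) : (gq (A := A) q c)^[q] = id := by
  funext z
  apply Subtype.ext
  funext b a
  rw [gq_iter, ← pow_mul, mul_comm (c b) q, pow_mul, zt_pow_q hq, one_pow, one_mul]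
  rfl

/-- number of the coordinate used in step `k` -/
def ix (A k : ℕ) : ℕ := min ((k + 1) / 2) (A - 1)

/-- end point of the homotopy of step `k` -/
noncomputable def pp {m : ℕ} (A q : ℕ) (c : Fin m → ℕ) (k : ℕ) : V m A := fun b a =>
  if (a : ℕ) = ix A k then (if Even k then 1 + zt q ^ c b else 1) else 0

/-- `1 + ζ^c ≠ 0` for `q` odd: otherwise `1 = ζ^(c q) = (-1)^q = -1` -/
theorem one_add_zt {q : ℕ} (hq : Odd q) (c : ℕ) : 1 + zt q ^ c ≠ 0 := by
  intro h
  have hq0 : 0 < q := hq.pos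
  have h1 : zt q ^ c = -1 := by linear_combination h
  have h2 : (zt q ^ c) ^ q = 1 := by rw [← pow_mul, mul_comm, pow_mul, zt_pow_q hq0, one_pow]
  rw [h1, hq.neg_one_pow] at h2
  norm_num at h2

theorem pp_ne {m A q : ℕ} (hq : Odd q) (hA : 0 < A) (c : Fin m → ℕ) (k : ℕ) (b : Fin m) :
    pp A q c k b ≠ 0 := by
  intro h
  have hlt : ix A k < A := by unfold ix; omega
  have := congrFun h ⟨ix A k, hlt⟩
  simp only [pp, if_true, Pi.zero_apply] at this
  split_ifs at this with hk
  · exact one_add_zt hq (c b) this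
  · exact one_ne_zero this

/-- straight line from `x` to `pp k` -/
noncomputable def cand {m A : ℕ} (q : ℕ) (c : Fin m → ℕ) (k : ℕ) (x : V m A) (τ : ℝ) : V m A :=
  fun b a => ((1 - τ : ℝ) : ℂ) * x b a + (τ : ℂ) * pp A q c k b a

open Classical in
/-- the homotopy of step `k` (the time is clipped to `[0,1]`; constant if the straight line meets
zero) -/
noncomputable def hh {m A : ℕ} (q : ℕ) (c : Fin m → ℕ) (k : ℕ) (x : XX m A) (t : ℝ) : XX m A :=
  if h : ∀ b, cand q c k x.1 (max 0 (min 1 t)) b ≠ 0 then ⟨cand q c k x.1 (max 0 (min 1 t)), h⟩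
  else x

theorem hh_zero {m A : ℕ} (q : ℕ) (c : Fin m → ℕ) (k : ℕ) (x : XX m A) : hh q c k x 0 = x := by
  have h0 : cand q c k x.1 (max 0 (min 1 (0 : ℝ))) = x.1 := by
    funext b a
    simp [cand]
  unfold hh
  split_ifs with h
  · exact Subtype.ext h0
  · rfl

theorem hh_one {m A q : ℕ} (hq : Odd q) (hA : 0 < A) (c : Fin m → ℕ) (k : ℕ) (x : XX m A) :
    hh q c k x 1 = ⟨pp A q c k, pp_ne hq hA c k⟩ := by
  have h0 : cand q c k x.1 (max 0 (min 1 (1 : ℝ))) = pp A q c k := by
    funext b a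
    simp [cand]
  unfold hh
  rw [dif_pos (by rw [h0]; exact pp_ne hq hA c k)]
  exact Subtype.ext h0

/-- the base point -/
noncomputable def xb {m A : ℕ} (hA : 0 < A) : XX m A :=
  ⟨fun _ a => if (a : ℕ) = 0 then 1 else 0, fun b h => by
    have := congrFun h ⟨0, hA⟩
    simp at this⟩

end Pool.Agent.H78.LR
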