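import Pool.Agent.H78.LR.StDef

/-!
# lr_mod Stage: the iterated cones are continuous

Proof. Call `z : V m A` of stage `k`, for `k = 2j`: `∀ b, (∀ a > j, z b a = 0)` and
`z b j = ρ` for a real `ρ ≥ 0`; for `k = 2j+1`: `∀ b, ∀ a > j, z b a = 0`. Claim: for `k ≤ 2r`,
`r < A` and admissible `a` the point `theta' hh gq xb k a t` is of stage `k` and its underlying
vector depends continuously on `t`. Induction on `k`; `k = 0` is `xb` (`ρ = 1`).

Step `k = 2j` to `2j+1` (`j ≤ r - 1 < A`, so `ix A k = j`): let `x` be of stage `2j`,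
`s ∈ {0, 1}`, `τ = max 0 (min 1 t) ∈ [0,1]`. `x' = g^s x` has `j`-th coordinate `ζ^(c s) ρ`. The
candidate `(1-τ) x' + τ (1 + ζ^c) e_j` is nonzero in every block: for `τ = 0` it is `x'`. For
`τ > 0` and `s = 0` its `j`-th coordinate is `(1-τ)ρ + τ + τ ζ^c`; if it is zero then
`ζ^c = -((1-τ)ρ + τ)/τ` is a negative real number of norm one, so `ζ^c = -1`, excluded by
`one_add_zt`. For `s = 1`: `ζ^c ((1-τ)ρ + τ) + τ = 0` gives `ζ^c = -τ/((1-τ)ρ+τ)`, again a
negative real of norm one. So `hh` is given by the first branch, the value is of stage `2j+1`, and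
the underlying vector `cand ... (g^s theta_k) (max 0 (min 1 (t k)))` is continuous.

Step `k = 2j+1` to `2j+2` (`j + 1 ≤ r < A`, `ix A k = j+1`): `x' = g^s x` has coordinates `0` for
`a > j`. Candidate: coordinate `j+1` is `τ`, real and `≥ 0`; nonzero vector if `τ > 0`, and for
`τ = 0` the candidate is `x'`.
-/

namespace Pool.Agent.H78.LR

open Pool.Agent.H73.Avr

/-- points of stage `k` -/
def St {m A : ℕ} (k : ℕ) (z : V m A) : Prop :=
  ∀ b, (∀ a : Fin A, k / 2 < (a : ℕ) → z b a = 0) ∧
    (Even k → ∀ a : Fin A, (a : ℕ) = k / 2 → ∃ ρ : ℝ, 0 ≤ ρ ∧ z b a = (ρ : ℂ))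

private theorem stage_nz {z : ℂ} (hz : ‖z‖ = 1) (hz1 : 1 + z ≠ 0) {u v : ℝ} (hu : 0 < u)
    (hv : 0 ≤ v) : (u : ℂ) + (v : ℂ) * z ≠ 0 := by
  intro h
  have h1 : (v : ℂ) * z = -(u : ℂ) := by linear_combination h
  have h2 : ‖(v : ℂ) * z‖ = ‖-(u : ℂ)‖ := by rw [h1]
  rw [norm_mul, hz, mul_one, norm_neg, Complex.norm_real, Complex.norm_real, Real.norm_eq_abs,
    Real.norm_eq_abs, abs_of_nonneg hv, abs_of_pos hu] at h2
  rw [h2] at h
  have h3 : (u : ℂ) * (1 + z) = 0 := by linear_combination h
  rcases mul_eq_zero.1 h3 with h4 | h4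
  · exact hu.ne' (by exact_mod_cast h4)
  · exact hz1 h4

/-- the first branch of `hh` is used on stage `k` and leads to stage `k + 1` -/
theorem stage_step {m A q r : ℕ} (hq : Odd q) (hr : r < A) (c : Fin m → ℕ) {k : ℕ}
    (hk : k < 2 * r) (x : XX m A) (hx : St k x.1) {s : ℕ} (hs : s < ran q k) (t : ℝ) :
    (hh q c k ((gq q c)^[s] x) t).1 =
      cand q c k ((gq q c)^[s] x).1 (max 0 (min 1 t)) ∧
    St (k + 1) (hh q c k ((gq q c)^[s] x) t).1 := by
  have hτ0 : 0 ≤ max 0 (min 1 t) := le_max_left _ _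
  have hτ1 : max 0 (min 1 t) ≤ 1 := max_le zero_le_one (min_le_left _ _)
  generalize hτ : max 0 (min 1 t) = τ at *
  set y := (gq q c)^[s] x with hy
  have hyv : ∀ b (a : Fin A), y.1 b a = (zt q ^ c b) ^ s * x.1 b a := fun b a =>
    gq_iter q c s x b a
  have hnorm : ∀ n : ℕ, ‖zt q ^ n‖ = 1 := fun n => by rw [norm_pow, norm_zt, one_pow]
  rcases Nat.even_or_odd k with hev | hod
  · -- even step
    obtain ⟨j, hj⟩ := hev
    have hev : Even k := ⟨j, hj⟩
    have hjA : j < A := by omega
    have hk2 : k / 2 = j := by omega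
    have hix : ix A k = j := by unfold ix; omega
    have hk3 : (k + 1) / 2 = j := by omega
    have hs2 : s < 2 := by
      have := hs
      unfold ran at this
      rwa [if_pos hev] at this
    have hpj : ∀ b, pp A q c k b ⟨j, hjA⟩ = 1 + zt q ^ c b := by
      intro b
      simp only [pp, hix, if_true, hev]
    have hnz : ∀ b, cand q c k y.1 τ b ≠ 0 := by
      intro b hb
      rcases hτ0.eq_or_lt with h0 | hpos
      · apply y.2 b
        refine Eq.trans ?_ hb
        funext a
        simp [cand, ← h0]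
      · obtain ⟨ρ, hρ, hxρ⟩ := (hx b).2 hev ⟨j, hjA⟩ (by simp [hk2])
        have h1 := congrFun hb ⟨j, hjA⟩
        simp only [cand, Pi.zero_apply] at h1
        rw [hpj, hyv, hxρ] at h1
        have hu : 0 < (1 - τ) * ρ + τ := by
          have : 0 ≤ (1 - τ) * ρ := mul_nonneg (by linarith) hρ
          linarith
        have hs01 : s = 0 ∨ s = 1 := by omega
        rcases hs01 with rfl | rfl
        · apply stage_nz (hnorm (c b)) (one_add_zt hq (c b)) hu hpos.le
          rw [← h1]
          push_cast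
          ring
        · have h2 : (zt q ^ c b) * ((((1 - τ) * ρ + τ : ℝ) : ℂ) +
              (τ : ℂ) * (zt q ^ c b)⁻¹) = 0 := by
            rw [mul_add, mul_comm (τ : ℂ), mul_inv_cancel_left₀ (zt_pow_ne q (c b)), ← h1]
            push_cast
            ring
          rcases mul_eq_zero.1 h2 with h3 | h3
          · exact zt_pow_ne q (c b) h3
          · refine stage_nz (z := (zt q ^ c b)⁻¹) ?_ ?_ hu hpos.le h3
            · rw [norm_inv, hnorm, inv_one]
            · intro h4
              apply one_add_zt hq (c b)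
              have h5 : zt q ^ c b * (1 + (zt q ^ c b)⁻¹) = 0 := by rw [h4, mul_zero]
              rw [mul_add, mul_inv_cancel₀ (zt_pow_ne q (c b)), mul_one] at h5
              linear_combination h5
    have hval : (hh q c k y t).1 = cand q c k y.1 τ := by
      unfold hh
      simp only [hτ]
      rw [dif_pos hnz]
    refine ⟨hval, ?_⟩
    rw [hval]
    intro b
    refine ⟨fun a ha => ?_, fun he => ?_⟩
    · rw [hk3] at ha
      simp only [cand]
      rw [hyv, (hx b).1 a (by rw [hk2]; exact ha)]
      have : pp A q c k b a = 0 := by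
        simp only [pp, hix]
        rw [if_neg (by omega)]
      rw [this]
      ring
    · exfalso
      exact (Nat.not_even_iff_odd.2 (Even.add_one hev)) he
  · -- odd step
    obtain ⟨j, hj⟩ := hod
    have hne : ¬ Even k := Nat.not_even_iff_odd.2 ⟨j, hj⟩
    have hjA : j + 1 < A := by omega
    have hk2 : k / 2 = j := by omega
    have hix : ix A k = j + 1 := by unfold ix; omega
    have hk3 : (k + 1) / 2 = j + 1 := by omega
    have hpj : ∀ b (a : Fin A), (a : ℕ) = j + 1 → pp A q c k b a = 1 := by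
      intro b a ha
      simp only [pp, hix]
      rw [if_pos ha, if_neg hne]
    have hxj : ∀ b (a : Fin A), (a : ℕ) = j + 1 → y.1 b a = 0 := by
      intro b a ha
      rw [hyv, (hx b).1 a (by rw [hk2]; omega), mul_zero]
    have hcj : ∀ b (a : Fin A), (a : ℕ) = j + 1 → cand q c k y.1 τ b a = (τ : ℂ) := by
      intro b a ha
      simp only [cand]
      rw [hpj b a ha, hxj b a ha]
      ring
    have hnz : ∀ b, cand q c k y.1 τ b ≠ 0 := by
      intro b hb
      rcases hτ0.eq_or_lt with h0 | hpos
      · apply y.2 b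
        refine Eq.trans ?_ hb
        funext a
        simp [cand, ← h0]
      · have h1 := congrFun hb ⟨j + 1, hjA⟩
        rw [hcj b _ rfl, Pi.zero_apply] at h1
        exact hpos.ne' (by exact_mod_cast h1)
    have hval : (hh q c k y t).1 = cand q c k y.1 τ := by
      unfold hh
      simp only [hτ]
      rw [dif_pos hnz]
    refine ⟨hval, ?_⟩
    rw [hval]
    intro b
    refine ⟨fun a ha => ?_, fun _ a ha => ?_⟩
    · rw [hk3] at ha
      simp only [cand]
      rw [hyv, (hx b).1 a (by rw [hk2]; omega)]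
      have : pp A q c k b a = 0 := by
        simp only [pp, hix]
        rw [if_neg (by omega)]
      rw [this]
      ring
    · rw [hk3] at ha
      exact ⟨τ, hτ0, hcj b a ha⟩

private theorem stage_all {m A q r : ℕ} (hq : Odd q) (hr : r < A) (hA : 0 < A) (c : Fin m → ℕ)
    (k : ℕ) (hk : k ≤ 2 * r) (a : ℕ → ℕ) (ha : ∀ i < k, a i < ran q i) :
    (∀ t, St k (theta' (hh q c) (gq q c) (xb (m := m) hA) k a t).1) ∧
    Continuous (fun t => (theta' (hh q c) (gq q c) (xb (m := m) hA) k a t).1) := by
  induction k with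
  | zero =>
    refine ⟨fun t b => ⟨fun a ha => ?_, fun _ a ha => ⟨1, zero_le_one, ?_⟩⟩, ?_⟩
    · show (if (a : ℕ) = 0 then (1 : ℂ) else 0) = 0
      rw [if_neg (by omega)]
    · show (if (a : ℕ) = 0 then (1 : ℂ) else 0) = _
      rw [if_pos (by omega)]
      simp
    · exact continuous_const
  | succ k ih =>
    obtain ⟨ih1, ih2⟩ := ih (by omega) (fun i hi => ha i (by omega))
    have hst : ∀ t, _ := fun t : ℕ → ℝ => stage_step hq hr c (by omega : k < 2 * r)
      (theta' (hh q c) (gq q c) (xb (m := m) hA) k a t) (ih1 t) (ha k (by omega)) (t k)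
    refine ⟨fun t => (hst t).2, ?_⟩
    have h1 : (fun t => (theta' (hh q c) (gq q c) (xb (m := m) hA) (k + 1) a t).1) =
        fun t : ℕ → ℝ => cand q c k ((gq q c)^[a k]
          (theta' (hh q c) (gq q c) (xb (m := m) hA) k a t)).1 (max 0 (min 1 (t k))) := by
      funext t
      exact (hst t).1
    rw [h1]
    apply continuous_pi
    intro b
    apply continuous_pi
    intro i
    have hτc : Continuous fun t : ℕ → ℝ => max 0 (min 1 (t k)) :=
      continuous_const.max (continuous_const.min (continuous_apply k))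
    have h2 : Continuous fun t : ℕ → ℝ => ((gq q c)^[a k]
          (theta' (hh q c) (gq q c) (xb (m := m) hA) k a t)).1 b i := by
      have h3 : (fun t : ℕ → ℝ => ((gq q c)^[a k]
          (theta' (hh q c) (gq q c) (xb (m := m) hA) k a t)).1 b i) = fun t =>
          (zt q ^ c b) ^ (a k) * (theta' (hh q c) (gq q c) (xb (m := m) hA) k a t).1 b i := by
        funext t
        exact gq_iter q c (a k) _ b i
      rw [h3]
      exact continuous_const.mul ((continuous_apply i).comp ((continuous_apply b).comp ih2))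
    show Continuous fun t : ℕ → ℝ => ((1 - max 0 (min 1 (t k)) : ℝ) : ℂ) * _ +
      ((max 0 (min 1 (t k)) : ℝ) : ℂ) * pp A q c k b i
    exact ((Complex.continuous_ofReal.comp (continuous_const.sub hτc)).mul h2).add
      ((Complex.continuous_ofReal.comp hτc).mul continuous_const)

theorem stage_cont {m A q r : ℕ} (hq : Odd q) (hr : r < A) (c : Fin m → ℕ) (k : ℕ)
    (hk : k ≤ 2 * r) (a : ℕ → ℕ) (ha : ∀ i < k, a i < ran q i) :
    Continuous (theta' (hh q c) (gq q c) (xb (m := m) (by omega : 0 < A)) k a) :=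
  continuous_induced_rng.2 (stage_all hq hr (by omega) c k hk a ha).2

end Pool.Agent.H78.LR
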