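import Pool.Agent.H78.LR.BUK
import Pool.Agent.H78.LR.PlB
import Pool.Agent.H78.LR.PlC

/-!
# lr_mod Step: planes for systems

Proof of `planes`. Index type of the equations `ρ = Fin r × E` (`Fintype.card = r * E.card`),
weights `w (j, u) b = u (inl b) - u (inr b)` (nonzero by `hE1`), functions
`A (j, u) z = coeff u (FF (f j) z)` (for `f j = 0` it is zero, `FF 0 z = 0`), `C` = all
coefficients of all `f j` (finite set; the zero coefficients are in the span anyway). Conditions of
`buK`: `coeff_FF_rot`, `CF_coeff_FF` (for `f j = 0`: `CF.zero`). This gives `z`, all `z b ≠ 0`, with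
`coeff u (FF (f j) z) = 0` for `u ∈ E`. For other `u` with `∃ b, u (inl b) ≠ u (inr b)`:
if `u.degree ≠ d j` the coefficient is zero by `FF_homog`; otherwise `u ∈ E` or
`u.mapDomain Sum.swap ∈ E`, in the second case use `coeff_FF_cj`. Now `plane`.
For `f j = 0` take `P = 0`.
-/

namespace Pool.Agent.H78.LR

open MvPolynomial

theorem planes {K : Type*} [Field K] [Algebra ℝ K] (hGL : Grow K) {m n r D : ℕ} (hD : 1 ≤ D)
    (f : Fin r → MvPolynomial (Fin m × Fin n) K) (d : Fin r → ℕ)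
    (hf : ∀ j, f j = 0 ∨ (1 ≤ d j ∧ d j ≤ D ∧ (f j).IsHomogeneous (d j)))
    (E : Finset (Fin m ⊕ Fin m →₀ ℕ))
    (hE1 : ∀ u ∈ E, ∃ b, u (Sum.inl b) ≠ u (Sum.inr b))
    (hE2 : ∀ u : Fin m ⊕ Fin m →₀ ℕ, ∀ j, u.degree = d j →
      (∃ b, u (Sum.inl b) ≠ u (Sum.inr b)) → u ∈ E ∨ u.mapDomain Sum.swap ∈ E)
    (hn : r * E.card * D < n) :
    ∃ z : Fin m → Fin n → LL K, (∀ b, z b ≠ 0) ∧
      ∀ j, ∃ P : MvPolynomial (Fin m) K, PlaneRel (d j) (f j) z P := by
  classical
  have hF0 : ∀ z : Fin m → Fin n → LL K, FF (0 : MvPolynomial (Fin m × Fin n) K) z = 0 := by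
    intro z
    simp [FF]
  set C : Finset K := Finset.univ.biUnion
    (fun j : Fin r => (f j).support.image (fun v => coeff v (f j))) with hCdef
  have hC : ∀ (j : Fin r) v, coeff v (f j) ∈ Submodule.span ℝ (C : Set K) := by
    intro j v
    by_cases hv : v ∈ (f j).support
    · apply Submodule.subset_span
      rw [hCdef, Finset.coe_biUnion]
      simp only [Finset.coe_univ, Set.mem_univ, Set.iUnion_true, Set.mem_iUnion, Finset.coe_image]
      exact ⟨j, v, hv, rfl⟩
    · rw [MvPolynomial.notMem_support_iff.1 hv]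
      exact zero_mem _
  obtain ⟨z, hz, hA⟩ := buK hGL hD (m := m) (n := n) (ρ := Fin r × {u // u ∈ E})
    (fun ju b => ((ju.2.1 (Sum.inl b) : ℕ) : ℤ) - ((ju.2.1 (Sum.inr b) : ℕ) : ℤ))
    (by
      rintro ⟨j, u, hu⟩ h
      obtain ⟨b, hb⟩ := hE1 u hu
      have h1 := congrFun h b
      simp only [Pi.zero_apply] at h1
      exact hb (by exact_mod_cast sub_eq_zero.1 h1))
    C (fun ju z => coeff ju.2.1 (FF (f ju.1) z))
    (by
      rintro ⟨j, u, hu⟩ l hl z
      exact coeff_FF_rot (f j) z l hl u)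
    (by
      rintro ⟨j, u, hu⟩ Ω e ω h1 hω
      rcases hf j with h0 | ⟨hd1, hd2, hh⟩
      · simp only [h0, hF0, coeff_zero]
        exact CF.zero _
      · exact CF_coeff_FF hh hd2 C (hC j) Ω ω h1 hω u)
    (by simpa using hn)
  refine ⟨z, hz, fun j => ?_⟩
  rcases hf j with h0 | ⟨hd1, hd2, hh⟩
  · refine ⟨0, ?_, fun _ => rfl, fun e _ => isHomogeneous_zero _ _ _⟩
    intro s t
    rw [h0]
    simp
  · apply plane hh z
    intro u hb
    by_cases hu : u.degree = d j
    · rcases hE2 u j hu hb with h1 | h1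
      · exact hA (j, ⟨u, h1⟩)
      · have h2 := hA (j, ⟨_, h1⟩)
        simp only at h2
        rw [coeff_FF_cj] at h2
        have h3 := congrArg (cj K) h2
        rw [cj_cj, map_zero] at h3
        exact h3
    · exact (FF_homog hh z).coeff_eq_zero hu

end Pool.Agent.H78.LR
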