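import Pool.Agent.H78.LR.Step
import Pool.Agent.H78.LR.Dep

/-!
# lr_mod Tern: ternary quadratic forms

`tern`. Let `Q(x) = eval x P`, `B(x,y) = Q(x+y) - Q(x) - Q(y)`: there are `c_ij` with
`Q(x) = ∑_{i,j} c_ij x_i x_j` (`P` is homogeneous of degree `2`), so `B` is bilinear, symmetric and
`B(x,x) = 2 Q(x)`. `planes` with `m = 1`, `n = 3`, `r = 1`, `D = 2`: the exponents of degree `2`
with `u inl ≠ u inr` are `(2,0)` and its swap `(0,2)`; `E = {single (inl 0) 2}`, `1 * 1 * 2 < 3`
(rename `Fin 3` to `Fin 1 × Fin 3`). So there are `x, y ∈ K^3`, not both zero, with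
`Q(2(s x + t y)) = c (s^2 + t^2)`; if `x, y` are dependent `dep` gives a zero. Otherwise, if
`c = 0`, `x` is a nonzero zero. If `c ≠ 0`: `4 Q(s x + t y) = c (s² + t²)`, so
`Q(x) = Q(y) = c/4 =: c'`, `B(x,y) = 0`. Choose `e ∉ span(x,y)` (dimension `3`) and
`u = e - B(e,x)/(2c') x - B(e,y)/(2c') y`: `B(u,x) = B(u,y) = 0`. Then
`Q(s x + t y + u) = c'(s²+t²) + Q(u) = 0` for `s² + t² = -Q(u)/c'` (`h2`), and
`s x + t y + u ≠ 0` since `e ∉ span(x,y)`.
-/

namespace Pool.Agent.H78.LR

open MvPolynomial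

private theorem tern_mon {K : Type*} [Field K] (u : Fin 3 →₀ ℕ) (hu : u.degree = 2) (a : K) :
    ∃ c : Fin 3 → Fin 3 → K, ∀ x : Fin 3 → K,
      eval x (monomial u a) = ∑ i, ∑ j, c i j * (x i * x j) := by
  have h1 : u 0 + u 1 + u 2 = 2 := by
    rw [Finsupp.degree_eq_sum, Fin.sum_univ_three] at hu
    exact hu
  have hev : ∀ x : Fin 3 → K, eval x (monomial u a) = a * (x 0 ^ u 0 * x 1 ^ u 1 * x 2 ^ u 2) := by
    intro x
    rw [eval_monomial, Finsupp.prod_fintype _ _ (fun i => pow_zero _), Fin.prod_univ_three]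
  have key : ∀ i j : Fin 3, (∀ x : Fin 3 → K, x 0 ^ u 0 * x 1 ^ u 1 * x 2 ^ u 2 = x i * x j) →
      ∃ c : Fin 3 → Fin 3 → K, ∀ x : Fin 3 → K,
        eval x (monomial u a) = ∑ i, ∑ j, c i j * (x i * x j) := by
    intro i j hij
    refine ⟨fun k l => if k = i ∧ l = j then a else 0, fun x => ?_⟩
    rw [hev, hij, Finset.sum_eq_single i, Finset.sum_eq_single j]
    · simp
    · intro l _ hl
      simp [hl]
    · intro h; exact absurd (Finset.mem_univ _) h
    · intro k _ hk
      apply Finset.sum_eq_zero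
      intro l _
      simp [hk]
    · intro h; exact absurd (Finset.mem_univ _) h
  have hcases : (u 0 = 2 ∧ u 1 = 0 ∧ u 2 = 0) ∨ (u 0 = 0 ∧ u 1 = 2 ∧ u 2 = 0) ∨
      (u 0 = 0 ∧ u 1 = 0 ∧ u 2 = 2) ∨ (u 0 = 1 ∧ u 1 = 1 ∧ u 2 = 0) ∨
      (u 0 = 1 ∧ u 1 = 0 ∧ u 2 = 1) ∨ (u 0 = 0 ∧ u 1 = 1 ∧ u 2 = 1) := by omega
  rcases hcases with ⟨h, h', h''⟩ | ⟨h, h', h''⟩ | ⟨h, h', h''⟩ | ⟨h, h', h''⟩ | ⟨h, h', h''⟩ |
    ⟨h, h', h''⟩
  · exact key 0 0 fun x => by rw [h, h', h'']; ring
  · exact key 1 1 fun x => by rw [h, h', h'']; ring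
  · exact key 2 2 fun x => by rw [h, h', h'']; ring
  · exact key 0 1 fun x => by rw [h, h', h'']; ring
  · exact key 0 2 fun x => by rw [h, h', h'']; ring
  · exact key 1 2 fun x => by rw [h, h', h'']; ring

private theorem tern_form {K : Type*} [Field K] (P : MvPolynomial (Fin 3) K)
    (hP : P.IsHomogeneous 2) : ∃ c : Fin 3 → Fin 3 → K, ∀ x : Fin 3 → K,
      eval x P = ∑ i, ∑ j, c i j * (x i * x j) := by
  have h1 : ∀ u : Fin 3 →₀ ℕ, ∃ c : Fin 3 → Fin 3 → K, u ∈ P.support → ∀ x : Fin 3 → K,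
      eval x (monomial u (coeff u P)) = ∑ i, ∑ j, c i j * (x i * x j) := by
    intro u
    by_cases hu : u ∈ P.support
    · have h2 : u.degree = 2 := by
        have := hP (mem_support_iff.1 hu)
        rw [← this]
        simp [Finsupp.weight_apply, Finsupp.degree_eq_sum, Finsupp.sum_fintype]
      obtain ⟨c, hc⟩ := tern_mon u h2 (coeff u P)
      exact ⟨c, fun _ => hc⟩
    · exact ⟨fun _ _ => 0, fun h => absurd h hu⟩
  choose c hc using h1
  refine ⟨fun i j => ∑ u ∈ P.support, c u i j, fun x => ?_⟩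
  conv_lhs => rw [P.as_sum, map_sum]
  rw [Finset.sum_congr rfl fun u hu => hc u hu x, Finset.sum_comm]
  refine Finset.sum_congr rfl fun i _ => ?_
  rw [Finset.sum_comm]
  refine Finset.sum_congr rfl fun j _ => ?_
  rw [Finset.sum_mul]

theorem tern {K : Type*} [Field K] [Algebra ℝ K] (hGL : Grow K) (h2 : TwoSq K)
    (P : MvPolynomial (Fin 3) K) (hP : P.IsHomogeneous 2) :
    ∃ x : Fin 3 → K, x ≠ 0 ∧ eval x P = 0 := by
  classical
  have : CharZero K := charZero_of_injective_algebraMap (algebraMap ℝ K).injective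
  obtain ⟨a, ha⟩ := tern_form P hP
  -- the form and its polarisation
  let Q : (Fin 3 → K) → K := fun v => ∑ i, ∑ j, a i j * (v i * v j)
  let B : (Fin 3 → K) → (Fin 3 → K) → K := fun v w =>
    ∑ i, ∑ j, a i j * (v i * w j + w i * v j)
  have hQP : ∀ v, eval v P = Q v := ha
  have hQB : ∀ v w : Fin 3 → K, Q (v + w) = Q v + Q w + B v w := by
    intro v w
    simp only [Q, B, ← Finset.sum_add_distrib, Pi.add_apply]
    refine Finset.sum_congr rfl fun i _ => Finset.sum_congr rfl fun j _ => ?_
    ring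
  have hQs : ∀ (s : K) (v : Fin 3 → K), Q (s • v) = s ^ 2 * Q v := by
    intro s v
    simp only [Q, Finset.mul_sum, Pi.smul_apply, smul_eq_mul]
    refine Finset.sum_congr rfl fun i _ => Finset.sum_congr rfl fun j _ => ?_
    ring
  have hBs : ∀ (s : K) (v w : Fin 3 → K), B (s • v) w = s * B v w := by
    intro s v w
    simp only [B, Finset.mul_sum, Pi.smul_apply, smul_eq_mul]
    refine Finset.sum_congr rfl fun i _ => Finset.sum_congr rfl fun j _ => ?_
    ring
  have hBa : ∀ v v' w : Fin 3 → K, B (v + v') w = B v w + B v' w := by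
    intro v v' w
    simp only [B, ← Finset.sum_add_distrib, Pi.add_apply]
    refine Finset.sum_congr rfl fun i _ => Finset.sum_congr rfl fun j _ => ?_
    ring
  have hBc : ∀ v w : Fin 3 → K, B v w = B w v := by
    intro v w
    simp only [B]
    refine Finset.sum_congr rfl fun i _ => Finset.sum_congr rfl fun j _ => ?_
    ring
  have hBQ : ∀ v : Fin 3 → K, B v v = 2 * Q v := by
    intro v
    simp only [B, Q, Finset.mul_sum]
    refine Finset.sum_congr rfl fun i _ => Finset.sum_congr rfl fun j _ => ?_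
    ring
  -- the plane
  let f : MvPolynomial (Fin 1 × Fin 3) K := rename (fun i => ((0 : Fin 1), i)) P
  have hf : f.IsHomogeneous 2 := hP.rename_isHomogeneous
  have hev : ∀ w : Fin 1 × Fin 3 → K, eval w f = Q fun i => w (0, i) := by
    intro w
    rw [← hQP]
    simp only [f, eval_rename]
    rfl
  have hdeg : ∀ u : Fin 1 ⊕ Fin 1 →₀ ℕ, u.degree = u (Sum.inl 0) + u (Sum.inr 0) := by
    intro u
    rw [Finsupp.degree_eq_sum, Fintype.sum_sum_type]
    simp
  obtain ⟨z, hz, hpl⟩ := planes hGL (m := 1) (n := 3) (r := 1) (D := 2) (by norm_num)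
    (fun _ => f) (fun _ => 2) (fun _ => Or.inr ⟨by norm_num, le_rfl, hf⟩)
    {Finsupp.single (Sum.inl 0) 2}
    (by
      intro u hu
      rw [Finset.mem_singleton] at hu
      subst hu
      exact ⟨0, by simp⟩)
    (by
      rintro u - hu ⟨b, hb⟩
      have hb0 : b = 0 := Subsingleton.elim _ _
      subst hb0
      rw [hdeg] at hu
      simp only [Finset.mem_singleton]
      have hc : (u (Sum.inl 0) = 2 ∧ u (Sum.inr 0) = 0) ∨
          (u (Sum.inl 0) = 0 ∧ u (Sum.inr 0) = 2) := by omega
      rcases hc with ⟨h1, h2⟩ | ⟨h1, h2⟩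
      · left
        ext i
        rcases i with i | i
        · have : i = 0 := Subsingleton.elim _ _
          subst this
          simp [h1]
        · have : i = 0 := Subsingleton.elim _ _
          subst this
          simp [h2]
      · right
        have h3 : u = Finsupp.single (Sum.inr 0) 2 := by
          ext i
          rcases i with i | i
          · have : i = 0 := Subsingleton.elim _ _
            subst this
            simp [h1]
          · have : i = 0 := Subsingleton.elim _ _
            subst this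
            simp [h2]
        rw [h3, Finsupp.mapDomain_single]
        rfl)
    (by simp)
  obtain ⟨P', hrel, -, hhom⟩ := hpl 0
  let x : Fin 3 → K := fun c => (z 0 c).re
  let y : Fin 3 → K := fun c => (z 0 c).im
  have hxy : x ≠ 0 ∨ y ≠ 0 := by
    by_contra hcon
    push Not at hcon
    apply hz 0
    funext c
    have h3 := congrFun hcon.1 c
    have h4 := congrFun hcon.2 c
    ext
    · exact h3
    · exact h4
  by_cases hli : LinearIndependent K ![x, y]
  swap
  · obtain ⟨v0, p, q, hv0, hpq, hxp, hyq⟩ := dep_exists hxy hli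
    have h3 := dep (by norm_num) hf z P' ⟨hrel, fun h => absurd h (by decide), hhom⟩
      0 p q hpq v0 hxp hyq
    refine ⟨v0, hv0, ?_⟩
    rw [hev] at h3
    rw [hQP]
    simpa using h3
  -- the value on the plane
  let c : K := eval (fun _ => 1) P'
  have hP' : ∀ r : K, eval (fun _ : Fin 1 => r) P' = r * c := by
    intro r
    have h3 : P'.IsHomogeneous 1 := hhom 1 (by norm_num)
    simp only [c, eval_eq', Finset.mul_sum]
    refine Finset.sum_congr rfl fun u hu => ?_
    have h4 : u 0 = 1 := by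
      have := h3 (mem_support_iff.1 hu)
      simpa [Finsupp.weight_apply, Finsupp.sum_fintype] using this
    simp [h4]
    ring
  have hst : ∀ s t : K, 4 * Q (s • x + t • y) = (s ^ 2 + t ^ 2) * c := by
    intro s t
    have h3 := hrel (fun _ => s) (fun _ => t)
    rw [hP', hev] at h3
    rw [← h3]
    have h4 : (fun i => (2 * (s * (z 0 i).re + t * (z 0 i).im) : K)) =
        (2 : K) • (s • x + t • y) := by
      funext i
      simp [x, y]
    show _ = Q (fun i => (2 * (s * (z 0 i).re + t * (z 0 i).im) : K))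
    rw [h4, hQs]
    norm_num
  have h4 : (4 : K) ≠ 0 := by norm_num
  have hQx : 4 * Q x = c := by
    have := hst 1 0
    simpa using this
  have hQy : 4 * Q y = c := by
    have := hst 0 1
    simpa using this
  have hBxy : B x y = 0 := by
    have := hst 1 1
    rw [one_smul, one_smul, hQB] at this
    have h5 : 4 * B x y = 0 := by linear_combination this - hQx - hQy
    exact (mul_eq_zero.1 h5).resolve_left h4
  have hx0 : x ≠ 0 := hli.ne_zero 0
  by_cases hc0 : c = 0
  · refine ⟨x, hx0, ?_⟩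
    rw [hQP]
    rw [hc0] at hQx
    exact (mul_eq_zero.1 hQx).resolve_left h4
  -- a third vector
  obtain ⟨e, he⟩ : ∃ e : Fin 3 → K, e ∉ Submodule.span K (Set.range ![x, y]) := by
    by_contra hcon
    push Not at hcon
    have h5 : Submodule.span K (Set.range ![x, y]) = ⊤ := Submodule.eq_top_iff'.2 hcon
    have h6 := finrank_range_le_card (R := K) ![x, y]
    have h7 : Module.finrank K (Submodule.span K (Set.range ![x, y])) = 3 := by
      rw [h5, finrank_top, Module.finrank_fin_fun]
    rw [Set.finrank, h7] at h6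
    simp at h6
  let u : Fin 3 → K := e + (-(2 * B e x / c)) • x + (-(2 * B e y / c)) • y
  have hBux : B u x = 0 := by
    show B (e + (-(2 * B e x / c)) • x + (-(2 * B e y / c)) • y) x = 0
    rw [hBa, hBa, hBs, hBs, hBQ, hBc y x, hBxy]
    have : 2 * Q x = c / 2 := by linear_combination hQx / 2
    rw [this]
    field_simp
    ring
  have hBuy : B u y = 0 := by
    show B (e + (-(2 * B e x / c)) • x + (-(2 * B e y / c)) • y) y = 0
    rw [hBa, hBa, hBs, hBs, hBQ, hBxy]
    have : 2 * Q y = c / 2 := by linear_combination hQy / 2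
    rw [this]
    field_simp
    ring
  obtain ⟨s, t, hst2⟩ := h2 (-(4 * Q u / c))
  refine ⟨s • x + t • y + u, ?_, ?_⟩
  · intro h0
    apply he
    have h5 : e = (-s + 2 * B e x / c) • x + (-t + 2 * B e y / c) • y := by
      have h6 : s • x + t • y + (e + (-(2 * B e x / c)) • x + (-(2 * B e y / c)) • y) = 0 := h0
      funext i
      have h7 := congrFun h6 i
      simp only [Pi.add_apply, Pi.smul_apply, smul_eq_mul, Pi.zero_apply] at h7 ⊢
      linear_combination h7
    rw [h5]
    refine Submodule.add_mem _ (Submodule.smul_mem _ _ (Submodule.subset_span ⟨0, rfl⟩))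
      (Submodule.smul_mem _ _ (Submodule.subset_span ⟨1, rfl⟩))
  · rw [hQP, hQB, hBa, hBs, hBs, hBc x u, hBc y u, hBux, hBuy]
    have h5 := hst s t
    rw [← hst2] at h5
    have h6 : 4 * (Q (s • x + t • y) + Q u + (s * 0 + t * 0)) = 0 := by
      have h7 : -(4 * Q u / c) * c = -(4 * Q u) := by field_simp
      linear_combination h5 + h7
    exact (mul_eq_zero.1 h6).resolve_left h4

end Pool.Agent.H78.LR
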