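import Pool.Agent.H78.LR.BUK

/-!
# lr_mod TwoA: conics and ternary forms over `K[i]`

Proof of `conic`. `buK` with `m = 1`, `n = 3`, `D = 2`, `ρ = Unit`, weight `2`,
`C = {1, b.re, b.im, β.re, β.im}`, `A _ z = z 0 0 ^ 2 - b * z 0 1 ^ 2 - β * z 0 2 ^ 2`. `hE`:
`(cc l * z)^2 = cc (l^2) * z^2`, the product over `Fin 1` of `l b ^ (2 : ℤ)`. `hP`: every
coordinate `∑_l cc (z b (c,l)) * kk (ω l)` is `CF Ω`, its square is `CF (Ω ^ 2)` (`CF.finset_prod`
over a singleton or `CF.mul`, `pow_two`), the constants `1`, `b = kk b.re + cc I * kk b.im`, `β`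
are `CF (span C)`. `1 * 2 < 3`.
-/

namespace Pool.Agent.H78.LR

private theorem cf_const' {Z : Type} [TopologicalSpace Z] {K : Type*} [Field K] [Algebra ℝ K]
    {S : Submodule ℝ K} (b : LL K) (h1 : b.re ∈ S) (h2 : b.im ∈ S) :
    CF S (fun _ : Z => b) := by
  constructor
  · apply Submodule.subset_span
    exact ⟨fun _ => 1, b.re, h1, continuous_const, by funext z; simp⟩
  · apply Submodule.subset_span
    exact ⟨fun _ => 1, b.im, h2, continuous_const, by funext z; simp⟩

private theorem cf_neg {Z : Type} [TopologicalSpace Z] {K : Type*} [Field K] [Algebra ℝ K]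
    {S : Submodule ℝ K} {φ : Z → LL K} (h : CF S φ) : CF S (fun z => - φ z) := by
  constructor
  · have h1 : (fun z => (-φ z).re) = -(fun z => (φ z).re) := by
      funext z; simp
    rw [h1]
    exact neg_mem h.1
  · have h1 : (fun z => (-φ z).im) = -(fun z => (φ z).im) := by
      funext z; simp
    rw [h1]
    exact neg_mem h.2

theorem conic {K : Type*} [Field K] [Algebra ℝ K] (hGL : Grow K) (b β : LL K) :
    ∃ z : Fin 3 → LL K, z ≠ 0 ∧ z 0 ^ 2 - b * z 1 ^ 2 - β * z 2 ^ 2 = 0 := by
  classical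
  obtain ⟨z, hz, hA⟩ := buK hGL (m := 1) (n := 3) (D := 2) (by norm_num) (ρ := Unit)
    (fun _ _ => 2) (fun _ h => by simpa using congrFun h 0)
    ({1, b.re, b.im, β.re, β.im} : Finset K)
    (fun _ z => z 0 0 ^ 2 - b * z 0 1 ^ 2 - β * z 0 2 ^ 2)
    (by
      intro _ l hl z
      simp only [Finset.univ_unique, Finset.prod_singleton]
      have : cc K (l default ^ (2 : ℤ)) = cc K (l 0) ^ 2 := by
        rw [← map_pow]
        congr 1
      rw [this]
      ring)
    (by
      intro _ Ω e ω h1 hω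
      have hcoord : ∀ c : Fin 3, CF Ω (fun z : Fin 1 → (Fin 3 × Fin e) → ℂ =>
          ∑ l, cc K (z 0 (c, l)) * kk K (ω l)) := by
        intro c
        apply CF.sum
        intro l _
        exact CF.coord (by fun_prop) (hω l)
      have hsq : ∀ c : Fin 3, CF (Ω ^ 2) (fun z : Fin 1 → (Fin 3 × Fin e) → ℂ =>
          (∑ l, cc K (z 0 (c, l)) * kk K (ω l)) ^ 2) := by
        intro c
        have := CF.mul (hcoord c) (hcoord c)
        rw [← pow_two] at this
        simpa only [← pow_two] using this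
      have hmem : ∀ x ∈ ({1, b.re, b.im, β.re, β.im} : Finset K),
          x ∈ Submodule.span ℝ (({1, b.re, b.im, β.re, β.im} : Finset K) : Set K) :=
        fun x hx => Submodule.subset_span hx
      have hS1 : CF (Submodule.span ℝ (({1, b.re, b.im, β.re, β.im} : Finset K) : Set K))
          (fun _ : Fin 1 → (Fin 3 × Fin e) → ℂ => (1 : LL K)) :=
        cf_const' 1 (hmem (1 : K) (by simp)) (Submodule.zero_mem _)
      have hSb : CF (Submodule.span ℝ (({1, b.re, b.im, β.re, β.im} : Finset K) : Set K))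
          (fun _ : Fin 1 → (Fin 3 × Fin e) → ℂ => b) :=
        cf_const' b (hmem _ (by simp)) (hmem _ (by simp))
      have hSβ : CF (Submodule.span ℝ (({1, b.re, b.im, β.re, β.im} : Finset K) : Set K))
          (fun _ : Fin 1 → (Fin 3 × Fin e) → ℂ => β) :=
        cf_const' β (hmem _ (by simp)) (hmem _ (by simp))
      have e0 := CF.mul hS1 (hsq 0)
      have e1 := cf_neg (CF.mul hSb (hsq 1))
      have e2 := cf_neg (CF.mul hSβ (hsq 2))
      have e3 := CF.add (CF.add e0 e1) e2
      simpa only [one_mul, ← sub_eq_add_neg] using e3)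
    (by simp)
  exact ⟨z 0, hz 0, hA ()⟩

end Pool.Agent.H78.LR
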